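import Pool.Agent.P.MP_4376e9_pr.Bridge

/-!
Explicit two-sided bounds in the critical window and the limit.
-/

set_option linter.unusedSectionVars false
set_option linter.unusedVariables false

namespace Pool.Agent.P.MP_4376e9_pr
open Finset Function Filter Topology

/-- Codegree constant. -/
noncomputable def C0 (i : ℕ) (c : ℝ) : ℝ := (4 * ((i : ℝ) + 2)) ^ (i + 2) * (1 + c) ^ (i + 2)

/-- The limit value. -/
noncomputable def phiv (i : ℕ) (c x : ℝ) : ℝ :=
  - (x * Real.log (x / c) - x + c) / 2 - x ^ (i + 2) / (2 * ((i : ℝ) + 2))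

section fixed
variable {i n : ℕ} {c d : ℝ}

lemma np_eq (hd : 1 ≤ d) (hdn : d ^ (i + 1) = n) : (n : ℝ) * (c / d ^ i) = c * d := by
  rw [← hdn]; field_simp; ring

lemma codeg (hi : 1 ≤ i) (hc : 0 < c) (hd : 1 ≤ d) (hdn : d ^ (i + 1) = n)
    (A : Finset (Sym2 (Fin n))) (h0 : 1 ≤ A.card) (h1 : A.card < i + 2) :
    (deg (Hc (Fin n) (i + 1)) A : ℝ) * (c / d ^ i) ^ (i + 2 - A.card)
      ≤ C0 i c * (d ^ (i + 2 - A.card) / d ^ (i + 1)) := by
  have hn : (1 : ℝ) ≤ n := hdn ▸ one_le_pow₀ hd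
  have : Nonempty (Fin n) := ⟨⟨0, by exact_mod_cast hn⟩⟩
  have h := deg_Hc_le (show 2 ≤ i + 1 by omega) A h0 h1
  rw [Fintype.card_fin] at h
  obtain ⟨l, hl⟩ : ∃ l, i + 1 - A.card = l := ⟨_, rfl⟩
  have hl' : i + 2 - A.card = l + 1 := by omega
  rw [hl] at h
  rw [hl']
  have e : (n : ℝ) ^ l * (c / d ^ i) ^ (l + 1) = c ^ (l + 1) * (d ^ (l + 1) / d ^ (i + 1)) := by
    have : (n : ℝ) ^ l * (c / d ^ i) ^ (l + 1) * n = (c * d) ^ (l + 1) := by
      rw [← np_eq hd hdn]; ring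
    rw [hdn, ← mul_div_assoc, ← mul_pow, eq_div_iff (by positivity), this]
  have h2 : c ^ (l + 1) ≤ (1 + c) ^ (i + 2) :=
    (pow_le_pow_left₀ hc.le (by linarith) _).trans (pow_le_pow_right₀ (by linarith) (by omega))
  calc _ ≤ (4 * (((i + 1 : ℕ) : ℝ) + 1)) ^ (i + 1 + 1) * (n : ℝ) ^ l * (c / d ^ i) ^ (l + 1) :=
        mul_le_mul_of_nonneg_right h (by positivity)
    _ = (4 * ((i : ℝ) + 2)) ^ (i + 2) * c ^ (l + 1) * (d ^ (l + 1) / d ^ (i + 1)) := by
        rw [mul_assoc, e]; push_cast; ring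
    _ ≤ _ := by
        unfold C0
        gcongr

lemma C0_pos (i : ℕ) (hc : 0 < c) : 0 < C0 i c := by unfold C0; positivity

lemma codeg1 (hi : 1 ≤ i) (hc : 0 < c) (hd : 1 ≤ d) (hdn : d ^ (i + 1) = n)
    (A : Finset (Sym2 (Fin n))) (h0 : 1 ≤ A.card) (h1 : A.card < i + 2) :
    (deg (Hc (Fin n) (i + 1)) A : ℝ) * (c / d ^ i) ^ (i + 2 - A.card) ≤ C0 i c := by
  refine (codeg hi hc hd hdn A h0 h1).trans ?_
  apply mul_le_of_le_one_right (C0_pos i hc).le
  rw [div_le_one (by positivity)]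
  exact pow_le_pow_right₀ hd (by omega)

lemma codeg2 (hi : 1 ≤ i) (hc : 0 < c) (hd : 1 ≤ d) (hdn : d ^ (i + 1) = n)
    (A : Finset (Sym2 (Fin n))) (h0 : 2 ≤ A.card) (h1 : A.card < i + 2) :
    (deg (Hc (Fin n) (i + 1)) A : ℝ) * (c / d ^ i) ^ (i + 2 - A.card) ≤ C0 i c / d := by
  refine (codeg hi hc hd hdn A (by omega) h1).trans ?_
  rw [div_eq_mul_one_div (C0 i c)]
  apply mul_le_mul_of_nonneg_left _ (C0_pos i hc).le
  rw [div_le_div_iff₀ (by positivity) (by positivity), one_mul, ← pow_succ]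
  exact pow_le_pow_right₀ hd (by omega)

lemma cardH_le (hi : 1 ≤ i) : ((Hc (Fin n) (i + 1)).card : ℝ) ≤ (n : ℝ) ^ (i + 2) / (2 * ((i : ℝ) + 2)) := by
  have h := card_Hc_le (V := Fin n) (show 2 ≤ i + 1 by omega)
  rw [Fintype.card_fin] at h
  rw [le_div_iff₀ (by positivity)]
  push_cast at h
  linarith

lemma cardH_le' (hi : 1 ≤ i) : ((Hc (Fin n) (i + 1)).card : ℝ) ≤ (n : ℝ) ^ (i + 2) :=
  (cardH_le hi).trans (div_le_self (by positivity) (by have : (0 : ℝ) ≤ i := Nat.cast_nonneg i; linarith))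

lemma HP_le (hi : 1 ≤ i) (hc : 0 < c) (hd : 1 ≤ d) (hdn : d ^ (i + 1) = n) :
    ((Hc (Fin n) (i + 1)).card : ℝ) * (c / d ^ i) ^ (i + 2) ≤ c ^ (i + 2) * d ^ (i + 2) := by
  rw [← mul_pow, ← np_eq hd hdn, mul_pow]
  exact mul_le_mul_of_nonneg_right (cardH_le' hi) (by positivity)

lemma cardU_le : ((U0 (Fin n)).card : ℝ) ≤ (n : ℝ) ^ 2 / 2 := by
  have h := card_U0 (V := Fin n)
  rw [Fintype.card_fin] at h
  have : (0 : ℝ) ≤ n := Nat.cast_nonneg n
  linarith

lemma harm_U0 (hd : 1 ≤ d) (hdn : d ^ (i + 1) = n) :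
    harm (U0 (Fin n)).card ≤ 2 * ((i : ℝ) + 2) * (1 + Real.log d) := by
  have hl : 0 ≤ Real.log d := Real.log_nonneg hd
  have hi : (0 : ℝ) ≤ i := Nat.cast_nonneg i
  have h1 : Real.log ((U0 (Fin n)).card : ℝ) ≤ 2 * ((i : ℝ) + 1) * Real.log d := by
    rcases Nat.eq_zero_or_pos (U0 (Fin n)).card with h | h
    · rw [h]; simp only [Nat.cast_zero, Real.log_zero]; positivity
    · have h2 : ((U0 (Fin n)).card : ℝ) ≤ d ^ (2 * (i + 1)) := by
        rw [mul_comm, pow_mul, hdn]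
        have := cardU_le (n := n)
        have : (0 : ℝ) ≤ (n : ℝ) ^ 2 := by positivity
        linarith
      have := Real.log_le_log (by exact_mod_cast h) h2
      rw [Real.log_pow] at this
      push_cast at this
      exact this
  have := harm_le (U0 (Fin n)).card
  nlinarith

lemma log_ratio {x : ℝ} (hx0 : 0 < x) (hx : x * Real.exp (x ^ (i + 1)) = c) :
    Real.log (x / c) = - x ^ (i + 1) := by
  rw [← hx, div_mul_cancel_left₀ hx0.ne', Real.log_inv, Real.log_exp]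

lemma kap_scale {x s : ℝ} (hc : 0 < c) (hs : 0 < s) :
    kap (c / s) (x / s) = (x * Real.log (x / c) - x + c) / s := by
  unfold kap
  rw [div_div_div_cancel_right₀ hs.ne']
  field_simp

/-- Constant in the lower bound. -/
noncomputable def CL (i : ℕ) (c : ℝ) : ℝ :=
  c ^ (i + 3) + c ^ 2 + 2 * ((i : ℝ) + 2) * (c ^ (i + 2) * (8 * ((i : ℝ) + 2) ^ 2 * c
    + 4 * ((i : ℝ) + 2) ^ 3 * (8 ^ (i + 2) * (3 * C0 i c + 2) * C0 i c)))

lemma lower_explicit (hi : 1 ≤ i) (hc : 0 < c) {x : ℝ} (hx0 : 0 < x)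
    (hx : x * Real.exp (x ^ (i + 1)) = c) (hd : 1 ≤ d) (hdn : d ^ (i + 1) = n)
    (hbig : 2 * ((i : ℝ) + 2) * c ≤ d) :
    phiv i c x - CL i c * ((1 + Real.log d) / d)
      ≤ Real.log (Zf (Hc (Fin n) (i + 1)) (c / d ^ i) (U0 (Fin n)) ∅) / d ^ (i + 2) := by
  have hi0 : (0 : ℝ) ≤ i := Nat.cast_nonneg i
  have hd0 : 0 < d := by linarith
  have hl : 0 ≤ Real.log d := Real.log_nonneg hd
  have hxc : x ≤ c := by
    rw [← hx]; exact le_mul_of_one_le_right hx0.le (Real.one_le_exp (by positivity))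
  have hdi : d ≤ d ^ i := le_self_pow₀ hd (by omega)
  set p := c / d ^ i with hp
  set a := x / d ^ i with ha
  have hp0 : 0 < p := by positivity
  have ha0 : 0 < a := by positivity
  have hpd : p ≤ c / d := div_le_div_of_nonneg_left hc.le hd0 hdi
  have hcd : ((i : ℝ) + 2) * (c / d) ≤ 1 / 2 := by
    rw [← mul_div_assoc, div_le_iff₀ hd0]; linarith
  have hrp : ((i + 2 : ℕ) : ℝ) * p ≤ 1 / 2 := by
    push_cast
    exact (mul_le_mul_of_nonneg_left hpd (by positivity)).trans hcd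
  have hp1 : p ≤ 1 / 2 := by push_cast at hrp; nlinarith
  have hr := card_of_mem_Hc (V := Fin n) (show 2 ≤ i + 1 by omega)
  set H := Hc (Fin n) (i + 1) with hH
  have hInd : ∀ S : Finset (Sym2 (Fin n)), S.card ≤ 1 → Ind H S := by
    intro S hS e he hsub
    have := card_le_card hsub
    rw [hr e he] at this
    omega
  have main := lower_main H hp0 (r := i + 2) (fun e he => (hr e he).le) hrp (by omega)
    _ (U0 (Fin n)) ∅ (fun _ => a) rfl (disjoint_empty_right _) (hInd _ (by simp))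
    (fun _ _ => ha0.le) (fun _ _ => div_le_div_of_nonneg_right hxc (by positivity))
    (fun v _ h => absurd (hInd _ (by simp)) h)
  set N : ℝ := ((U0 (Fin n)).card : ℝ) with hN
  have hN1 : N ≤ (n : ℝ) ^ 2 / 2 := cardU_le
  have hK : 0 ≤ x * Real.log (x / c) - x + c := kap_nonneg hc hx0.le
  set K := x * Real.log (x / c) - x + c with hKdef
  have s0 : 0 < d ^ (i + 2) := by positivity
  have g1 : ∑ v ∈ U0 (Fin n), kap p a ≤ K / 2 * d ^ (i + 2) := by
    rw [sum_const, nsmul_eq_mul, hp, ha, kap_scale hc (by positivity), ← hKdef]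
    calc N * (K / d ^ i) ≤ (n : ℝ) ^ 2 / 2 * (K / d ^ i) :=
          mul_le_mul_of_nonneg_right hN1 (by positivity)
      _ = _ := by rw [← hdn]; field_simp; ring
  have g2 : Lam H (ext (U0 (Fin n)) ∅ (fun _ => a)) ≤ x ^ (i + 2) / (2 * ((i : ℝ) + 2)) * d ^ (i + 2) := by
    refine (Lam_zb_le H hr ha0.le _).trans ?_
    refine (mul_le_mul_of_nonneg_right (cardH_le hi) (by positivity)).trans (le_of_eq ?_)
    have := np_eq (c := x) hd hdn
    rw [div_mul_eq_mul_div, ← mul_pow, ha, this]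
    ring
  have g3 : (1 - p)⁻¹ ≤ 1 + 2 * (c / d) := by
    rw [inv_le_iff_one_le_mul₀ (by linarith)]
    nlinarith
  have g4 : 2 * p ^ 2 * N ≤ c ^ 2 / d * d ^ (i + 2) := by
    have h1 : 2 * p ^ 2 * N ≤ (c * d) ^ 2 := by
      rw [← np_eq hd hdn, ← hp]; nlinarith [sq_nonneg p]
    have h2 : d ^ 2 ≤ d ^ (i + 1) := pow_le_pow_right₀ hd (by omega)
    calc _ ≤ c ^ 2 * d ^ 2 := by rw [← mul_pow]; exact h1
      _ ≤ c ^ 2 * d ^ (i + 1) := mul_le_mul_of_nonneg_left h2 (by positivity)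
      _ = _ := by field_simp; ring
  have hC0 := C0_pos i hc
  have g5 : EL H (i + 2) p (U0 (Fin n)) ∅ ≤ c ^ (i + 2) * (8 * ((i : ℝ) + 2) ^ 2 * c
      + 4 * ((i : ℝ) + 2) ^ 3 * (8 ^ (i + 2) * (3 * C0 i c + 2) * C0 i c)) / d * d ^ (i + 2) := by
    have t1 := (Lam_zb_le H hr hp0.le (U0 (Fin n))).trans (HP_le hi hc hd hdn)
    have t2 := (Trip_zb_le H hr (by omega) hp0.le hC0.le (by positivity : 0 ≤ C0 i c / d)
      (codeg1 hi hc hd hdn) (codeg2 hi hc hd hdn) (U0 (Fin n))).trans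
      (mul_le_mul_of_nonneg_right (HP_le hi hc hd hdn) (by positivity))
    have t0 := Lam_nonneg H (zb_nonneg hp0.le (U0 (Fin n)) ∅)
    unfold EL
    push_cast
    calc _ ≤ 8 * ((i : ℝ) + 2) ^ 2 * (c / d) * (c ^ (i + 2) * d ^ (i + 2))
          + 4 * ((i : ℝ) + 2) ^ 3 * (c ^ (i + 2) * d ^ (i + 2)
            * (8 ^ (i + 2) * (3 * C0 i c + 2) * (C0 i c / d))) := by gcongr
      _ = _ := by field_simp
  have g6 := harm_U0 (i := i) hd hdn
  have g7 := mul_le_mul g6 g5 (by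
    unfold EL
    have := Lam_nonneg H (zb_nonneg hp0.le (U0 (Fin n)) ∅)
    have := Trip_nonneg H (zb_nonneg hp0.le (U0 (Fin n)) ∅)
    positivity) (by positivity)
  have g8 := mul_le_mul g3 g2 (Lam_nonneg H (ext_nonneg fun _ _ => ha0.le)) (by positivity)
  have g9 : 2 * (c / d) * (x ^ (i + 2) / (2 * ((i : ℝ) + 2))) ≤ c ^ (i + 3) / d := by
    have h1 : x ^ (i + 2) / (2 * ((i : ℝ) + 2)) ≤ c ^ (i + 2) / 2 :=
      div_le_div₀ (by positivity) (pow_le_pow_left₀ hx0.le hxc _) (by norm_num) (by linarith)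
    calc _ ≤ 2 * (c / d) * (c ^ (i + 2) / 2) := mul_le_mul_of_nonneg_left h1 (by positivity)
      _ = _ := by field_simp; ring
  rw [le_div_iff₀ s0]
  unfold GLo at main
  refine le_trans ?_ main
  unfold phiv CL
  rw [← hKdef]
  set W := c ^ (i + 2) * (8 * ((i : ℝ) + 2) ^ 2 * c
      + 4 * ((i : ℝ) + 2) ^ 3 * (8 ^ (i + 2) * (3 * C0 i c + 2) * C0 i c)) with hW
  have g10 : (c ^ (i + 3) + c ^ 2) / d ≤ (c ^ (i + 3) + c ^ 2) * ((1 + Real.log d) / d) := by
    rw [← mul_div_assoc]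
    apply div_le_div_of_nonneg_right _ hd0.le
    exact le_mul_of_one_le_right (by positivity) (by linarith)
  have g11 := mul_le_mul_of_nonneg_right g10 s0.le
  have g12 := mul_le_mul_of_nonneg_right g9 s0.le
  have e1 : 2 * ((i : ℝ) + 2) * (1 + Real.log d) * (W / d * d ^ (i + 2))
      = 2 * ((i : ℝ) + 2) * W * ((1 + Real.log d) / d) * d ^ (i + 2) := by ring
  have e2 : (c ^ (i + 3) + c ^ 2) / d * d ^ (i + 2)
      = c ^ (i + 3) / d * d ^ (i + 2) + c ^ 2 / d * d ^ (i + 2) := by ring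
  rw [e1] at g7
  rw [e2] at g11
  linarith

/-- Convexity-defect constant. -/
noncomputable def C2 (i : ℕ) (c : ℝ) : ℝ := 4 * c * ((i : ℝ) + 2) ^ 3 * (4 * c) ^ (i - 1)

/-- Constant in the upper bound. -/
noncomputable def CU (i : ℕ) (c : ℝ) : ℝ :=
  c + c ^ (i + 2) + ((i : ℝ) + 2) * c ^ (i + 2) + 2 * ((i : ℝ) + 2) * (((i : ℝ) + 2) ^ 2 *
    (c ^ (i + 2) * (C2 i c + 2 * c + 2 * (2 ^ (i + 2) * C0 i c))))

lemma upper_explicit (hi : 1 ≤ i) (hev : Even (i + 2)) (hc : 0 < c) {x : ℝ} (hx0 : 0 < x)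
    (hx : x * Real.exp (x ^ (i + 1)) = c) (hd : 1 ≤ d) (hdn : d ^ (i + 1) = n)
    (hbig : 2 * c ≤ d) (hbig2 : 2 * C2 i c ≤ d) (hbig3 : 1 ≤ 4 * c * d) :
    Real.log (Zf (Hc (Fin n) (i + 1)) (c / d ^ i) (U0 (Fin n)) ∅) / d ^ (i + 2)
      ≤ phiv i c x + CU i c * ((1 + Real.log d) / d)
        + d ^ ((i + 1) * (i + 5)) * Real.exp (- c * d) := by
  have hi0 : (0 : ℝ) ≤ i := Nat.cast_nonneg i
  have hd0 : 0 < d := by linarith
  have hl : 0 ≤ Real.log d := Real.log_nonneg hd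
  have hn : (1 : ℝ) ≤ n := hdn ▸ one_le_pow₀ hd
  have : Nonempty (Fin n) := ⟨⟨0, by exact_mod_cast hn⟩⟩
  have hxc : x ≤ c := by
    rw [← hx]; exact le_mul_of_one_le_right hx0.le (Real.one_le_exp (by positivity))
  have hdi : d ≤ d ^ i := le_self_pow₀ hd (by omega)
  have hdn' : d ≤ n := hdn ▸ le_self_pow₀ hd (by omega)
  set p := c / d ^ i with hp
  set a := x / d ^ i with ha
  have hp0 : 0 < p := by positivity
  have ha0 : 0 < a := by positivity
  have hpd : p ≤ c / d := div_le_div_of_nonneg_left hc.le hd0 hdi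
  have hp1 : p ≤ 1 / 2 := hpd.trans (by rw [div_le_iff₀ hd0]; linarith)
  have hr := card_of_mem_Hc (V := Fin n) (show 2 ≤ i + 1 by omega)
  set H := Hc (Fin n) (i + 1) with hH
  have hInd : Ind H ∅ := by
    intro e he hsub
    have := card_le_card hsub
    rw [hr e he] at this
    simp at this
  have hC2 : 0 < C2 i c := by unfold C2; positivity
  have hω : (((i + 1 : ℕ) : ℝ) + 1) ^ 3 * (4 * c * d) ^ (i + 1 - 2) ≤ C2 i c / d / (4 * p) := by
    apply le_of_eq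
    obtain ⟨l, rfl⟩ := Nat.exists_eq_add_of_le' hi
    have : l + 1 + 1 - 2 = l := by omega
    rw [this, hp]
    unfold C2
    rw [Nat.add_sub_cancel]
    push_cast
    field_simp
    ring
  have main := upper_main H (r := i + 2) (fun e he => (hr e he).le) hp0 hp1
    (η := C2 i c / d) (by positivity) (by rw [div_le_iff₀ hd0]; linarith) hω (U0 (Fin n))
    (Bad (i + 1) p (4 * c * d)) (super_Bad _ hp0.le _) (Bad_nonneg _ hp0.le _)
    (fun U I hU hI => good_or_bad (by omega) hev hp0.le (by linarith) hbig3 U I hU hI)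
    _ (U0 (Fin n)) ∅ rfl (disjoint_empty_right _) hInd Subset.rfl (empty_subset _)
  have hnp : p * n = c * d := by rw [mul_comm]; exact np_eq hd hdn
  have hna : a * n = x * d := by rw [mul_comm]; exact np_eq hd hdn
  have hcrit : Real.log (a / p) = - (a ^ (i + 1) * (Fintype.card (Fin n) : ℝ) ^ i) := by
    rw [Fintype.card_fin, ha, hp, div_div_div_cancel_right₀ (by positivity), log_ratio hx0 hx,
      ← hdn]
    congr 1
    rw [div_pow, ← pow_mul, ← pow_mul, mul_comm (i + 1) i]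
    field_simp
  have init := init_bound (V := Fin n) hi hev hp0 ha0 hcrit
    (q := mq H p (U0 (Fin n)) ∅) (fun v _ => mq_nonneg H hp0.le (by linarith) _ _ v)
    (fun v hv => mq_le H hp0.le (by linarith) _ hv)
  rw [Fintype.card_fin, hnp, hna] at init
  set N : ℝ := ((U0 (Fin n)).card : ℝ) with hN
  have hN1 : N ≤ (n : ℝ) ^ 2 / 2 := cardU_le
  have hN2 : 2 * N = (n : ℝ) ^ 2 - n := by
    have := card_U0 (V := Fin n)
    rwa [Fintype.card_fin] at this
  have hK : 0 ≤ x * Real.log (x / c) - x + c := kap_nonneg hc hx0.le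
  have hKc : x * Real.log (x / c) - x + c ≤ c := by
    rw [log_ratio hx0 hx]
    have : 0 < x * x ^ (i + 1) := by positivity
    nlinarith
  set K := x * Real.log (x / c) - x + c with hKdef
  have s0 : 0 < d ^ (i + 2) := by positivity
  have g1 : K / 2 * d ^ (i + 2) - c / d * d ^ (i + 2) ≤ N * kap p a := by
    rw [hp, ha, kap_scale hc (by positivity), ← hKdef]
    have e1 : N * (K / d ^ i) = K / 2 * d ^ (i + 2) - K / 2 * d := by
      have : N = ((n : ℝ) ^ 2 - n) / 2 := by linarith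
      rw [this, ← hdn]; field_simp; ring
    have e2 : c / d * d ^ (i + 2) = c * d ^ (i + 1) := by field_simp; ring
    have e3 : d ≤ d ^ (i + 1) := le_self_pow₀ hd (by omega)
    rw [e1, e2]
    nlinarith
  have g2 : (x * d) ^ (i + 2) / n ≤ c ^ (i + 2) / d * d ^ (i + 2) := by
    rw [mul_pow, div_mul_eq_mul_div]
    exact div_le_div₀ (by positivity) (by gcongr) hd0 hdn'
  have g3 : ((i : ℝ) + 2) * (c * d) ^ (i + 2) / n ≤ ((i : ℝ) + 2) * c ^ (i + 2) / d * d ^ (i + 2) := by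
    rw [mul_pow, div_mul_eq_mul_div, mul_assoc]
    exact div_le_div_of_nonneg_left (by positivity) hd0 hdn'
  have hC0 := C0_pos i hc
  have g5 : EU H (i + 2) p (C2 i c / d) (U0 (Fin n)) ∅ ≤ ((i : ℝ) + 2) ^ 2 *
      (c ^ (i + 2) * (C2 i c + 2 * c + 2 * (2 ^ (i + 2) * C0 i c))) / d * d ^ (i + 2) := by
    have t1 := (Lam_zb_le H hr hp0.le (U0 (Fin n))).trans (HP_le hi hc hd hdn)
    have t2 := (Pairs_zb_le H hr hp0.le (by positivity : 0 ≤ C0 i c / d)
      (codeg2 hi hc hd hdn) (U0 (Fin n))).trans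
      (mul_le_mul_of_nonneg_right (HP_le hi hc hd hdn) (by positivity))
    have t0 := Lam_nonneg H (zb_nonneg hp0.le (U0 (Fin n)) ∅)
    unfold EU
    push_cast
    calc _ ≤ ((i : ℝ) + 2) ^ 2 * ((C2 i c / d + 2 * (c / d)) * (c ^ (i + 2) * d ^ (i + 2))
          + 2 * (c ^ (i + 2) * d ^ (i + 2) * (2 ^ (i + 2) * (C0 i c / d)))) := by gcongr
      _ = _ := by field_simp
  have g6 := harm_U0 (i := i) hd hdn
  have g7 := mul_le_mul g6 g5 (by
    unfold EU
    have := Lam_nonneg H (zb_nonneg hp0.le (U0 (Fin n)) ∅)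
    have := Pairs_nonneg H (zb_nonneg hp0.le (U0 (Fin n)) ∅)
    positivity) (by positivity)
  have g8 : N * Bad (i + 1) p (4 * c * d) (U0 (Fin n)) ∅
      ≤ d ^ ((i + 1) * (i + 5)) * Real.exp (- c * d) * d ^ (i + 2) := by
    have b1 := Bad_init (V := Fin n) (i + 1) hp0.le (4 * c * d) (U0 (Fin n))
    rw [Fintype.card_fin, mul_comm (n : ℝ) p, hnp] at b1
    have b2 : Real.exp (-(4 * c * d / 2)) * Real.exp (c * d) = Real.exp (- c * d) := by
      rw [← Real.exp_add]; congr 1; ring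
    have b3 : N ≤ (n : ℝ) ^ 2 := by nlinarith [sq_nonneg (n : ℝ)]
    calc _ ≤ (n : ℝ) ^ 2 * ((n : ℝ) ^ (i + 2) * Real.exp (-(4 * c * d / 2))
          * (n * Real.exp (c * d))) := by
          apply mul_le_mul b3 (b1.trans _) (Bad_nonneg _ hp0.le _ _ _) (by positivity)
          gcongr
          exact cardH_le' hi
      _ = d ^ ((i + 1) * (i + 5)) * Real.exp (- c * d) * 1 := by
          rw [pow_mul, hdn, ← b2]; ring
      _ ≤ _ := mul_le_mul_of_nonneg_left (one_le_pow₀ hd) (by positivity)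
  rw [div_le_iff₀ s0]
  unfold GU at main
  unfold phiv CU
  rw [← hKdef]
  set W := ((i : ℝ) + 2) ^ 2 *
      (c ^ (i + 2) * (C2 i c + 2 * c + 2 * (2 ^ (i + 2) * C0 i c))) with hW
  have g10 : (c + c ^ (i + 2) + ((i : ℝ) + 2) * c ^ (i + 2)) / d
      ≤ (c + c ^ (i + 2) + ((i : ℝ) + 2) * c ^ (i + 2)) * ((1 + Real.log d) / d) := by
    rw [← mul_div_assoc]
    apply div_le_div_of_nonneg_right _ hd0.le
    exact le_mul_of_one_le_right (by positivity) (by linarith)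
  have g11 := mul_le_mul_of_nonneg_right g10 s0.le
  have e1 : 2 * ((i : ℝ) + 2) * (1 + Real.log d) * (W / d * d ^ (i + 2))
      = 2 * ((i : ℝ) + 2) * W * ((1 + Real.log d) / d) * d ^ (i + 2) := by ring
  have e2 : (c + c ^ (i + 2) + ((i : ℝ) + 2) * c ^ (i + 2)) / d * d ^ (i + 2)
      = c / d * d ^ (i + 2) + c ^ (i + 2) / d * d ^ (i + 2)
        + ((i : ℝ) + 2) * c ^ (i + 2) / d * d ^ (i + 2) := by ring
  have e3 : (x * d) ^ (i + 2) / (2 * ((i : ℝ) + 2))
      = x ^ (i + 2) / (2 * ((i : ℝ) + 2)) * d ^ (i + 2) := by rw [mul_pow]; ring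
  rw [e1] at g7
  rw [e2] at g11
  rw [e3] at init
  linarith

end fixed

theorem limit_explicit {i : ℕ} (hi : 1 ≤ i) (hev : Even (i + 2)) {c x : ℝ} (hc : 0 < c)
    (hx0 : 0 < x) (hx : x * Real.exp (x ^ (i + 1)) = c) {d : ℕ → ℝ}
    (hd : Tendsto d atTop atTop) (hdn : ∀ n : ℕ, d n ^ (i + 1) = n) :
    Tendsto (fun n : ℕ =>
      Real.log (Zf (Hc (Fin n) (i + 1)) (c / d n ^ i) (U0 (Fin n)) ∅) / d n ^ (i + 2))
      atTop (𝓝 (phiv i c x)) := by
  have t1 : Tendsto (fun y : ℝ => (1 + Real.log y) / y) atTop (𝓝 0) := by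
    have h1 := Real.isLittleO_log_id_atTop.tendsto_div_nhds_zero
    have h2 := (tendsto_inv_atTop_zero (𝕜 := ℝ)).add h1
    rw [add_zero] at h2
    refine h2.congr fun y => ?_
    simp only [id]; ring
  have t2 : Tendsto (fun y : ℝ => y ^ ((i + 1) * (i + 5)) * Real.exp (- c * y)) atTop (𝓝 0) := by
    have := tendsto_rpow_mul_exp_neg_mul_atTop_nhds_zero (((i + 1) * (i + 5) : ℕ) : ℝ) c hc
    simpa only [Real.rpow_natCast] using this
  have l1 : Tendsto (fun n => phiv i c x - CL i c * ((1 + Real.log (d n)) / d n)) atTop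
      (𝓝 (phiv i c x)) := by
    simpa using ((t1.comp hd).const_mul (CL i c)).const_sub (phiv i c x)
  have l2 : Tendsto (fun n => phiv i c x + CU i c * ((1 + Real.log (d n)) / d n)
      + d n ^ ((i + 1) * (i + 5)) * Real.exp (- c * d n)) atTop (𝓝 (phiv i c x)) := by
    simpa using (((t1.comp hd).const_mul (CU i c)).const_add (phiv i c x)).add (t2.comp hd)
  apply tendsto_of_tendsto_of_tendsto_of_le_of_le' l1 l2
  · filter_upwards [hd.eventually_ge_atTop 1, hd.eventually_ge_atTop (2 * ((i : ℝ) + 2) * c)]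
      with n h1 h2
    exact lower_explicit hi hc hx0 hx h1 (hdn n) h2
  · filter_upwards [hd.eventually_ge_atTop 1, hd.eventually_ge_atTop (2 * c),
      hd.eventually_ge_atTop (2 * C2 i c), hd.eventually_ge_atTop (1 / (4 * c))]
      with n h1 h2 h3 h4
    refine upper_explicit hi hev hc hx0 hx h1 (hdn n) h2 h3 ?_
    rw [div_le_iff₀ (by positivity)] at h4
    linarith

end Pool.Agent.P.MP_4376e9_pr
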