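import Mathlib

/-!
Basic definitions for the entropy method: partition function of independent sets of a
hypergraph with a partially revealed state, weight vectors, supermartingale polynomials,
and scalar entropy inequalities.
-/

set_option linter.unusedSectionVars false
set_option linter.unusedVariables false

namespace Pool.Agent.P.MP_4376e9_pr
open Finset

variable {α : Type*} [DecidableEq α]

/-- `S` contains no edge of `H`. -/
def Ind (H : Finset (Finset α)) (S : Finset α) : Prop := ∀ e ∈ H, ¬ e ⊆ S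

instance (H : Finset (Finset α)) (S : Finset α) : Decidable (Ind H S) := by
  unfold Ind; infer_instance

lemma Ind.mono {H : Finset (Finset α)} {S T : Finset α} (h : Ind H T) (hST : S ⊆ T) : Ind H S :=
  fun e he hes => h e he (hes.trans hST)

/-- Probability that `I` together with a `p`-random subset of `U` is independent. -/
noncomputable def Zf (H : Finset (Finset α)) (p : ℝ) (U I : Finset α) : ℝ :=
  ∑ S ∈ U.powerset, if Ind H (I ∪ S) then p ^ S.card * (1 - p) ^ (U.card - S.card) else 0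

lemma Zf_insert (H : Finset (Finset α)) (p : ℝ) (U I : Finset α) (u : α) (hu : u ∉ U) :
    Zf H p (insert u U) I = p * Zf H p U (insert u I) + (1 - p) * Zf H p U I := by
  unfold Zf
  rw [sum_powerset_insert hu, mul_sum, mul_sum, add_comm]
  congr 1
  · apply sum_congr rfl
    intro S hS
    have hSU : S ⊆ U := mem_powerset.mp hS
    have huS : u ∉ S := fun h => hu (hSU h)
    have h1 : I ∪ insert u S = insert u I ∪ S := by
      ext x; simp only [mem_union, mem_insert]; tauto
    rw [h1, card_insert_of_notMem huS, card_insert_of_notMem hu]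
    split_ifs
    · rw [Nat.add_sub_add_right]; ring
    · simp
  · apply sum_congr rfl
    intro S hS
    have hSU : S ⊆ U := mem_powerset.mp hS
    rw [card_insert_of_notMem hu]
    split_ifs
    · rw [Nat.sub_add_comm (card_le_card hSU)]; ring
    · simp

lemma Zf_erase (H : Finset (Finset α)) (p : ℝ) (U I : Finset α) (u : α) (hu : u ∈ U) :
    Zf H p U I = p * Zf H p (U.erase u) (insert u I) + (1 - p) * Zf H p (U.erase u) I := by
  conv_lhs => rw [← insert_erase hu]
  exact Zf_insert H p _ I u (notMem_erase u U)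

lemma Zf_nonneg (H : Finset (Finset α)) {p : ℝ} (hp0 : 0 ≤ p) (hp1 : p ≤ 1) (U I : Finset α) :
    0 ≤ Zf H p U I := by
  unfold Zf
  apply sum_nonneg
  intro S _
  split_ifs
  · exact mul_nonneg (pow_nonneg hp0 _) (pow_nonneg (by linarith) _)
  · exact le_rfl

lemma Zf_anti (H : Finset (Finset α)) {p : ℝ} (hp0 : 0 ≤ p) (hp1 : p ≤ 1) (U : Finset α)
    {I J : Finset α} (hIJ : I ⊆ J) : Zf H p U J ≤ Zf H p U I := by
  unfold Zf
  apply sum_le_sum
  intro S _
  by_cases h : Ind H (J ∪ S)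
  · rw [if_pos h, if_pos (h.mono (union_subset_union hIJ Subset.rfl))]
  · rw [if_neg h]
    split_ifs
    · exact mul_nonneg (pow_nonneg hp0 _) (pow_nonneg (by linarith) _)
    · exact le_rfl

lemma Zf_pos (H : Finset (Finset α)) {p : ℝ} (hp0 : 0 ≤ p) (hp1 : p < 1) (U : Finset α)
    {I : Finset α} (hI : Ind H I) : 0 < Zf H p U I := by
  unfold Zf
  apply sum_pos'
  · intro S _
    split_ifs
    · exact mul_nonneg (pow_nonneg hp0 _) (pow_nonneg (by linarith) _)
    · exact le_rfl
  · refine ⟨∅, empty_mem_powerset U, ?_⟩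
    rw [union_empty, if_pos hI]
    simp only [card_empty, pow_zero, one_mul]
    exact pow_pos (by linarith) _

lemma Zf_eq_zero (H : Finset (Finset α)) (p : ℝ) (U : Finset α)
    {I : Finset α} (hI : ¬ Ind H I) : Zf H p U I = 0 := by
  unfold Zf
  apply sum_eq_zero
  intro S _
  rw [if_neg]
  exact fun h => hI (h.mono subset_union_left)

lemma Zf_empty (H : Finset (Finset α)) (p : ℝ) {I : Finset α} (hI : Ind H I) :
    Zf H p ∅ I = 1 := by
  unfold Zf
  simp [hI]

/-- Extend a weight vector on `U` by `1` on `I` and `0` elsewhere. -/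
noncomputable def ext (U I : Finset α) (q : α → ℝ) (v : α) : ℝ :=
  if v ∈ U then q v else if v ∈ I then 1 else 0

/-- The dominating weight vector. -/
noncomputable def zb (p : ℝ) (U I : Finset α) : α → ℝ := ext U I (fun _ => p)

/-- The edge polynomial. -/
noncomputable def Lam (H : Finset (Finset α)) (z : α → ℝ) : ℝ := ∑ e ∈ H, ∏ v ∈ e, z v

/-- Poissonised relative entropy. -/
noncomputable def kap (p a : ℝ) : ℝ := a * Real.log (a / p) - a + p

/-- Bernoulli relative entropy. -/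
noncomputable def klb (p a : ℝ) : ℝ :=
  a * Real.log (a / p) + (1 - a) * Real.log ((1 - a) / (1 - p))

lemma ext_nonneg {U I : Finset α} {q : α → ℝ} (hq : ∀ v ∈ U, 0 ≤ q v) (v : α) :
    0 ≤ ext U I q v := by
  unfold ext; split_ifs with h1 h2
  · exact hq v h1
  · exact zero_le_one
  · exact le_rfl

lemma ext_le_zb {U I : Finset α} {q : α → ℝ} {p : ℝ} (hq : ∀ v ∈ U, q v ≤ p) (v : α) :
    ext U I q v ≤ zb p U I v := by
  unfold zb ext; split_ifs with h1 h2
  · exact hq v h1
  · exact le_rfl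
  · exact le_rfl

lemma zb_nonneg {p : ℝ} (hp : 0 ≤ p) (U I : Finset α) (v : α) : 0 ≤ zb p U I v :=
  ext_nonneg (fun _ _ => hp) v

lemma zb_le_one {p : ℝ} (hp : p ≤ 1) (U I : Finset α) (v : α) : zb p U I v ≤ 1 := by
  unfold zb ext; split_ifs
  · exact hp
  · exact le_rfl
  · exact zero_le_one

lemma zb_of_mem {p : ℝ} {U I : Finset α} {v : α} (hv : v ∈ U) : zb p U I v = p := by
  unfold zb ext; rw [if_pos hv]

lemma zb_le_of_notMem {p : ℝ} (hp : 0 ≤ p) {U I : Finset α} {v : α} (hv : v ∉ I) :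
    zb p U I v ≤ p := by
  unfold zb ext; split_ifs
  · exact le_rfl
  · exact hp

lemma zb_of_memI {p : ℝ} {U I : Finset α} (hd : Disjoint U I) {v : α} (hv : v ∈ I) :
    zb p U I v = 1 := by
  unfold zb ext
  rw [if_neg (fun h => (disjoint_left.mp hd) h hv), if_pos hv]

lemma Lam_nonneg (H : Finset (Finset α)) {z : α → ℝ} (hz : ∀ v, 0 ≤ z v) : 0 ≤ Lam H z :=
  sum_nonneg fun _ _ => prod_nonneg fun v _ => hz v

lemma Lam_le_card (H : Finset (Finset α)) {z : α → ℝ} (hz : ∀ v, 0 ≤ z v) (hz1 : ∀ v, z v ≤ 1) :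
    Lam H z ≤ H.card := by
  unfold Lam
  calc ∑ e ∈ H, ∏ v ∈ e, z v ≤ ∑ _e ∈ H, (1 : ℝ) :=
        sum_le_sum fun _ _ => prod_le_one (fun v _ => hz v) (fun v _ => hz1 v)
    _ = H.card := by simp

lemma Lam_ext_empty {H : Finset (Finset α)} {I : Finset α} (hI : Ind H I) (q : α → ℝ) :
    Lam H (ext ∅ I q) = 0 := by
  unfold Lam
  apply sum_eq_zero
  intro e he
  obtain ⟨v, hv, hvI⟩ := not_subset.mp (hI e he)
  apply prod_eq_zero hv
  simp [ext, hvI]

/-- Supermartingale property under revealing one coordinate with inclusion probability `≤ p`. -/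
def Super (p : ℝ) (F : Finset α → Finset α → ℝ) : Prop :=
  ∀ U I u t, u ∈ U → u ∉ I → 0 ≤ t → t ≤ p →
    t * F (U.erase u) (insert u I) + (1 - t) * F (U.erase u) I ≤ F U I

lemma Super.add {p : ℝ} {F G : Finset α → Finset α → ℝ} (hF : Super p F) (hG : Super p G) :
    Super p (fun U I => F U I + G U I) := by
  intro U I u t h1 h2 h3 h4
  have := hF U I u t h1 h2 h3 h4
  have := hG U I u t h1 h2 h3 h4
  simp only
  linarith

lemma Super.smul {p : ℝ} {F : Finset α → Finset α → ℝ} (hF : Super p F) {c : ℝ} (hc : 0 ≤ c) :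
    Super p (fun U I => c * F U I) := by
  intro U I u t h1 h2 h3 h4
  have := mul_le_mul_of_nonneg_left (hF U I u t h1 h2 h3 h4) hc
  simp only
  linarith

lemma Super.sum {p : ℝ} {ι : Type*} (s : Finset ι) {F : ι → Finset α → Finset α → ℝ}
    (hF : ∀ i ∈ s, Super p (F i)) : Super p (fun U I => ∑ i ∈ s, F i U I) := by
  intro U I u t h1 h2 h3 h4
  simp only
  rw [mul_sum, mul_sum, ← sum_add_distrib]
  exact sum_le_sum fun i hi => hF i hi U I u t h1 h2 h3 h4

lemma zb_erase_insert_ne {p : ℝ} {U I : Finset α} {u v : α} (h : v ≠ u) :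
    zb p (U.erase u) (insert u I) v = zb p U I v := by
  simp [zb, ext, h]

lemma zb_erase_ne {p : ℝ} {U I : Finset α} {u v : α} (h : v ≠ u) :
    zb p (U.erase u) I v = zb p U I v := by
  simp [zb, ext, h]

lemma super_prod {p : ℝ} (hp : 0 ≤ p) (A : Finset α) {a b : ℝ} (ha : 0 ≤ a) (hb : 0 ≤ b) :
    Super p (fun U I => ∏ v ∈ A, (a + b * zb p U I v)) := by
  intro U I u t h1 h2 h3 h4
  simp only
  by_cases hu : u ∈ A
  · rw [← mul_prod_erase A _ hu, ← mul_prod_erase A _ hu, ← mul_prod_erase A _ hu]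
    have e1 : ∏ v ∈ A.erase u, (a + b * zb p (U.erase u) (insert u I) v)
        = ∏ v ∈ A.erase u, (a + b * zb p U I v) :=
      prod_congr rfl fun v hv => by rw [zb_erase_insert_ne (ne_of_mem_erase hv)]
    have e2 : ∏ v ∈ A.erase u, (a + b * zb p (U.erase u) I v)
        = ∏ v ∈ A.erase u, (a + b * zb p U I v) :=
      prod_congr rfl fun v hv => by rw [zb_erase_ne (ne_of_mem_erase hv)]
    have e3 : zb p (U.erase u) (insert u I) u = 1 := by simp [zb, ext]
    have e4 : zb p (U.erase u) I u = 0 := by simp [zb, ext, h2]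
    rw [e1, e2, e3, e4, zb_of_mem h1]
    have hP : 0 ≤ ∏ v ∈ A.erase u, (a + b * zb p U I v) :=
      prod_nonneg fun v _ => add_nonneg ha (mul_nonneg hb (zb_nonneg hp U I v))
    have : b * t ≤ b * p := mul_le_mul_of_nonneg_left h4 hb
    nlinarith [mul_le_mul_of_nonneg_right this hP]
  · have e1 : ∏ v ∈ A, (a + b * zb p (U.erase u) (insert u I) v)
        = ∏ v ∈ A, (a + b * zb p U I v) :=
      prod_congr rfl fun v hv => by rw [zb_erase_insert_ne (ne_of_mem_of_not_mem hv hu)]
    have e2 : ∏ v ∈ A, (a + b * zb p (U.erase u) I v)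
        = ∏ v ∈ A, (a + b * zb p U I v) :=
      prod_congr rfl fun v hv => by rw [zb_erase_ne (ne_of_mem_of_not_mem hv hu)]
    rw [e1, e2]
    linarith

lemma super_mono {p : ℝ} (hp : 0 ≤ p) (A : Finset α) :
    Super p (fun U I => ∏ v ∈ A, zb p U I v) := by
  have := super_prod hp A (le_refl (0 : ℝ)) zero_le_one
  simpa using this

lemma super_Lam {p : ℝ} (hp : 0 ≤ p) (H : Finset (Finset α)) :
    Super p (fun U I => Lam H (zb p U I)) :=
  Super.sum H fun e _ => super_mono hp e

/-! Scalar inequalities. -/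

lemma breg_ge_sqrt {a w : ℝ} (ha : 0 ≤ a) (hw : 0 < w) :
    (Real.sqrt a - Real.sqrt w) ^ 2 ≤ a * Real.log (a / w) - a + w := by
  rcases ha.eq_or_lt with rfl | ha
  · simp [Real.sq_sqrt hw.le]
  have hsa : 0 < Real.sqrt a := Real.sqrt_pos.mpr ha
  have hsw : 0 < Real.sqrt w := Real.sqrt_pos.mpr hw
  have h1 : Real.log (a / w) = - 2 * Real.log (Real.sqrt w / Real.sqrt a) := by
    rw [Real.log_div ha.ne' hw.ne', Real.log_div hsw.ne' hsa.ne', Real.log_sqrt ha.le,
      Real.log_sqrt hw.le]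
    ring
  have h2 : Real.log (Real.sqrt w / Real.sqrt a) ≤ Real.sqrt w / Real.sqrt a - 1 :=
    Real.log_le_sub_one_of_pos (div_pos hsw hsa)
  have h3 : a * (Real.sqrt w / Real.sqrt a) = Real.sqrt a * Real.sqrt w := by
    field_simp
    rw [Real.sq_sqrt ha.le]
  have h4 : (Real.sqrt a - Real.sqrt w) ^ 2 = a - 2 * (Real.sqrt a * Real.sqrt w) + w := by
    have := Real.sq_sqrt ha.le
    have := Real.sq_sqrt hw.le
    nlinarith
  rw [h4, h1]
  nlinarith [mul_le_mul_of_nonneg_left h2 ha.le]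

lemma breg_ge_sq {a w p : ℝ} (ha : 0 ≤ a) (hw : 0 < w) (hap : a ≤ p) (hwp : w ≤ p) :
    (a - w) ^ 2 / (4 * p) ≤ a * Real.log (a / w) - a + w := by
  refine le_trans ?_ (breg_ge_sqrt ha hw)
  have hp : 0 < p := lt_of_lt_of_le hw hwp
  rw [div_le_iff₀ (by positivity)]
  have e1 := Real.sq_sqrt ha
  have e2 := Real.sq_sqrt hw.le
  have h1 : a - w = (Real.sqrt a - Real.sqrt w) * (Real.sqrt a + Real.sqrt w) := by nlinarith
  have h2 : (Real.sqrt a + Real.sqrt w) ^ 2 ≤ 4 * p := by
    nlinarith [sq_nonneg (Real.sqrt a - Real.sqrt w)]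
  rw [h1, mul_pow]
  exact mul_le_mul_of_nonneg_left h2 (sq_nonneg _)

lemma kap_nonneg {p a : ℝ} (hp : 0 < p) (ha : 0 ≤ a) : 0 ≤ kap p a :=
  le_trans (sq_nonneg _) (breg_ge_sqrt ha hp)

lemma kap_self {p : ℝ} (hp : 0 < p) : kap p p = 0 := by
  simp [kap, hp.ne']

lemma kap_zero (p : ℝ) : kap p 0 = p := by simp [kap]

lemma kap_eq_tangent {p a w : ℝ} (hp : 0 < p) (ha : 0 ≤ a) (hw : 0 < w) :
    kap p a = kap p w + Real.log (w / p) * (a - w) + (a * Real.log (a / w) - a + w) := by
  rcases ha.eq_or_lt with rfl | ha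
  · simp [kap]; ring
  unfold kap
  rw [Real.log_div ha.ne' hp.ne', Real.log_div hw.ne' hp.ne', Real.log_div ha.ne' hw.ne']
  ring

lemma kap_tangent {p a w : ℝ} (hp : 0 < p) (ha : 0 ≤ a) (hw : 0 < w) :
    kap p w + Real.log (w / p) * (a - w) ≤ kap p a := by
  rw [kap_eq_tangent hp ha hw]
  have := le_trans (sq_nonneg _) (breg_ge_sqrt ha hw)
  linarith

/-- Jensen gap, quadratic lower bound. -/
lemma jensen_sq {p t x y w : ℝ} (hp : 0 < p) (ht0 : 0 ≤ t) (ht1 : t ≤ 1) (hx : 0 ≤ x) (hxp : x ≤ p)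
    (hy : 0 ≤ y) (hyp : y ≤ p) (hw : w = t * x + (1 - t) * y) :
    (t * (x - w) ^ 2 + (1 - t) * (y - w) ^ 2) / (4 * p)
      ≤ t * kap p x + (1 - t) * kap p y - kap p w := by
  have hw0 : 0 ≤ w := by rw [hw]; nlinarith
  have hwp : w ≤ p := by rw [hw]; nlinarith
  rcases hw0.eq_or_lt with h0 | h0
  · have h1 : t * x = 0 := by nlinarith [mul_nonneg ht0 hx, mul_nonneg (sub_nonneg.mpr ht1) hy]
    have h2 : (1 - t) * y = 0 := by
      nlinarith [mul_nonneg ht0 hx, mul_nonneg (sub_nonneg.mpr ht1) hy]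
    rw [← h0]
    have h3 : t * (x - 0) ^ 2 + (1 - t) * (y - 0) ^ 2 = 0 := by
      have : t * (x - 0) ^ 2 + (1 - t) * (y - 0) ^ 2 = (t * x) * x + ((1 - t) * y) * y := by ring
      rw [this, h1, h2]; ring
    have h4 : t * kap p x + (1 - t) * kap p y - kap p 0
        = (t * x) * (Real.log (x / p) - 1) + ((1 - t) * y) * (Real.log (y / p) - 1) := by
      simp only [kap]; ring
    rw [h3, h4, h1, h2]; simp
  · rw [kap_eq_tangent hp hx h0, kap_eq_tangent hp hy h0]
    have b1 := breg_ge_sq hx h0 hxp hwp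
    have b2 := breg_ge_sq hy h0 hyp hwp
    have e : (t * (x - w) ^ 2 + (1 - t) * (y - w) ^ 2) / (4 * p)
        = t * ((x - w) ^ 2 / (4 * p)) + (1 - t) * ((y - w) ^ 2 / (4 * p)) := by ring
    have e2 : t * (x - w) + (1 - t) * (y - w) = 0 := by rw [hw]; ring
    have e3 : t * (Real.log (w / p) * (x - w)) + (1 - t) * (Real.log (w / p) * (y - w)) = 0 := by
      have : t * (Real.log (w / p) * (x - w)) + (1 - t) * (Real.log (w / p) * (y - w))
        = Real.log (w / p) * (t * (x - w) + (1 - t) * (y - w)) := by ring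
      rw [this, e2, mul_zero]
    rw [e]
    nlinarith [mul_le_mul_of_nonneg_left b1 ht0, mul_le_mul_of_nonneg_left b2 (sub_nonneg.mpr ht1)]

/-- Jensen gap when the first branch is killed. -/
lemma jensen_kill {p t y w : ℝ} (hp : 0 < p) (ht0 : 0 ≤ t) (ht1 : t ≤ 1)
    (hy : 0 ≤ y) (hw : w = t * 0 + (1 - t) * y) :
    t * w ≤ t * kap p 0 + (1 - t) * kap p y - kap p w := by
  have hw0 : 0 ≤ w := by rw [hw]; nlinarith
  rcases hw0.eq_or_lt with h0 | h0
  · have h2 : (1 - t) * y = 0 := by linarith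
    rw [← h0]
    have h4 : t * kap p 0 + (1 - t) * kap p y - kap p 0
        = ((1 - t) * y) * (Real.log (y / p) - 1) := by
      simp only [kap]; ring
    rw [h4, h2]; simp
  · have b1 := kap_eq_tangent hp (le_refl (0 : ℝ)) h0
    have b2 := kap_tangent hp hy h0
    have e2 : t * (0 - w) + (1 - t) * (y - w) = 0 := by rw [hw]; ring
    have e3 : t * (Real.log (w / p) * (0 - w)) + (1 - t) * (Real.log (w / p) * (y - w)) = 0 := by
      have : t * (Real.log (w / p) * (0 - w)) + (1 - t) * (Real.log (w / p) * (y - w))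
        = Real.log (w / p) * (t * (0 - w) + (1 - t) * (y - w)) := by ring
      rw [this, e2, mul_zero]
    rw [b1]
    nlinarith [mul_le_mul_of_nonneg_left b2 (sub_nonneg.mpr ht1)]

lemma kap_le_klb {p a : ℝ} (hp1 : p < 1) (ha : a < 1) : kap p a ≤ klb p a := by
  unfold kap klb
  have h1 : 0 < 1 - a := by linarith
  have h2 : 0 < 1 - p := by linarith
  have h := Real.one_sub_inv_le_log_of_pos (div_pos h1 h2)
  have h3 : (1 - a) * (1 - ((1 - a) / (1 - p))⁻¹) = p - a := by
    field_simp; ring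
  nlinarith [mul_le_mul_of_nonneg_left h h1.le]

lemma klb_le_kap {p a : ℝ} (hp1 : p ≤ 1 / 2) (ha0 : 0 ≤ a) (ha : a ≤ p) :
    klb p a ≤ kap p a + 2 * p ^ 2 := by
  unfold kap klb
  have h1 : 0 < 1 - a := by linarith
  have h2 : 0 < 1 - p := by linarith
  have h := Real.log_le_sub_one_of_pos (div_pos h1 h2)
  have h3 : (1 - a) / (1 - p) - 1 = (p - a) / (1 - p) := by field_simp; ring
  have h4 : (p - a) / (1 - p) ≤ (p - a) + 2 * p ^ 2 := by
    rw [div_le_iff₀ h2]; nlinarith
  have h5 : 0 ≤ (p - a) / (1 - p) := div_nonneg (by linarith) h2.le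
  rw [h3] at h
  have h6 : (1 - a) * Real.log ((1 - a) / (1 - p)) ≤ (p - a) / (1 - p) := by
    calc (1 - a) * Real.log ((1 - a) / (1 - p)) ≤ (1 - a) * ((p - a) / (1 - p)) :=
          mul_le_mul_of_nonneg_left h h1.le
      _ ≤ 1 * ((p - a) / (1 - p)) := mul_le_mul_of_nonneg_right (by linarith) h5
      _ = _ := one_mul _
  linarith

/-- Exact chain rule. -/
lemma chain_eq {p A B : ℝ} (hp0 : 0 < p) (hp1 : p < 1) (hA : 0 ≤ A) (hB : 0 < B) {q : ℝ}
    (hq : q = p * A / (p * A + (1 - p) * B)) :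
    - Real.log (p * A + (1 - p) * B) = klb p q + q * (- Real.log A) + (1 - q) * (- Real.log B) := by
  have h2 : 0 < 1 - p := by linarith
  have hZ : 0 < p * A + (1 - p) * B := by positivity
  rcases hA.eq_or_lt with rfl | hA
  · subst hq
    simp only [klb, mul_zero, zero_add, zero_div, zero_mul, sub_zero, one_mul]
    rw [Real.log_mul h2.ne' hB.ne', one_div, Real.log_inv]
    ring
  have e1 : q / p = A / (p * A + (1 - p) * B) := by rw [hq]; field_simp
  have e2 : (1 - q) / (1 - p) = B / (p * A + (1 - p) * B) := by rw [hq]; field_simp; ring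
  unfold klb
  rw [e1, e2, Real.log_div hA.ne' hZ.ne', Real.log_div hB.ne' hZ.ne']
  ring

/-- Variational inequality. -/
lemma chain_ge {p A B t : ℝ} (hp0 : 0 < p) (hp1 : p < 1) (hA : 0 ≤ A) (hB : 0 < B)
    (ht0 : 0 ≤ t) (ht1 : t < 1) (htA : 0 < t → 0 < A) :
    - klb p t + t * Real.log A + (1 - t) * Real.log B ≤ Real.log (p * A + (1 - p) * B) := by
  have h2 : 0 < 1 - p := by linarith
  have h3 : 0 < 1 - t := by linarith
  have hZ : 0 < p * A + (1 - p) * B := by positivity
  rcases ht0.eq_or_lt with rfl | ht0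
  · simp only [klb, zero_div, zero_mul, sub_zero, one_mul, zero_add, add_zero]
    rw [one_div, Real.log_inv, neg_neg, ← Real.log_mul h2.ne' hB.ne']
    exact Real.log_le_log (by positivity) (by nlinarith)
  have hA' := htA ht0
  set Z := p * A + (1 - p) * B with hZdef
  have l1 := Real.log_le_sub_one_of_pos (show 0 < p * A / (t * Z) by positivity)
  have l2 := Real.log_le_sub_one_of_pos (show 0 < (1 - p) * B / ((1 - t) * Z) by positivity)
  rw [Real.log_div (by positivity) (by positivity), Real.log_mul hp0.ne' hA'.ne',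
    Real.log_mul ht0.ne' hZ.ne'] at l1
  rw [Real.log_div (by positivity) (by positivity), Real.log_mul h2.ne' hB.ne',
    Real.log_mul h3.ne' hZ.ne'] at l2
  have e : t * (p * A / (t * Z) - 1) + (1 - t) * ((1 - p) * B / ((1 - t) * Z) - 1) = 0 := by
    field_simp
    rw [hZdef]; ring
  unfold klb
  rw [Real.log_div ht0.ne' hp0.ne', Real.log_div h3.ne' h2.ne']
  nlinarith [mul_le_mul_of_nonneg_left l1 ht0.le, mul_le_mul_of_nonneg_left l2 h3.le]

/-- The harmonic numbers, real valued. -/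
noncomputable def harm (n : ℕ) : ℝ := (harmonic n : ℝ)

lemma harm_succ (n : ℕ) : harm (n + 1) = harm n + 1 / ((n : ℝ) + 1) := by
  simp [harm, harmonic_succ]

lemma harm_nonneg (n : ℕ) : 0 ≤ harm n := by
  induction n with
  | zero => simp [harm]
  | succ n ih => rw [harm_succ]; positivity

lemma harm_le (n : ℕ) : harm n ≤ 1 + Real.log n := harmonic_le_one_add_log n

end Pool.Agent.P.MP_4376e9_pr
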