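import Pool.Agent.P.MP_4376e9_pr.Cycle2

/-!
The partition function is the probability under the binomial random graph; the analytic
limit function.
-/

set_option linter.unusedSectionVars false
set_option linter.unusedVariables false

namespace Pool.Agent.P.MP_4376e9_pr
open Finset Function MeasureTheory

lemma prob_eq_Zf {V : Type*} [Fintype V] [DecidableEq V] {j : ℕ} (hj : 2 ≤ j) (p : unitInterval) :
    (SimpleGraph.binomialRandom V p).real {G | (SimpleGraph.cycleGraph (j + 1)).Free G}
      = Zf (Hc V j) p (U0 V) ∅ := by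
  classical
  have : MeasurableSingletonClass (SimpleGraph V) := ⟨fun G => by
    have : ({G} : Set (SimpleGraph V)) = SimpleGraph.edgeSet ⁻¹' {G.edgeSet} := by
      ext G'; simp
    rw [this]
    exact SimpleGraph.measurable_edgeSet (measurableSet_singleton _)⟩
  have e1 : {G : SimpleGraph V | (SimpleGraph.cycleGraph (j + 1)).Free G}
      = ↑(univ.filter (fun G : SimpleGraph V => (SimpleGraph.cycleGraph (j + 1)).Free G)) := by
    ext G; simp
  have hc : (U0 V).card = (Nat.card V).choose 2 := by
    rw [Nat.card_eq_fintype_card, ← Sym2.card_subtype_not_diag, Fintype.card_subtype]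
    rfl
  rw [e1, ← sum_measureReal_singleton, sum_filter]
  unfold Zf
  apply sum_nbij' (fun G : SimpleGraph V => G.edgeFinset)
    (fun S : Finset (Sym2 V) => SimpleGraph.fromEdgeSet (S : Set (Sym2 V)))
  · intro G _
    rw [mem_powerset]
    intro e he
    simp only [U0, mem_filter, mem_univ, true_and]
    exact G.not_isDiag_of_mem_edgeFinset he
  · intro S _; exact mem_univ _
  · intro G _; simp
  · intro S hS
    rw [mem_powerset] at hS
    ext e
    simp only [SimpleGraph.mem_edgeFinset, SimpleGraph.edgeSet_fromEdgeSet, Set.mem_sdiff,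
      mem_coe, Sym2.mem_diagSet, and_iff_left_iff_imp]
    intro he
    exact (mem_filter.mp (hS he)).2
  · intro G _
    rw [empty_union]
    simp only [← free_iff hj G]
    split_ifs with h
    · rw [measureReal_def, SimpleGraph.binomialRandom_singleton, hc,
        ← SimpleGraph.coe_edgeFinset, Set.ncard_coe_finset]
      simp
    · rfl

lemma exists_root (i : ℕ) : ∃ X : ℝ → ℝ, AnalyticOnNhd ℝ X (Set.Ioi 0) ∧
    ∀ c, 0 < c → 0 < X c ∧ X c * Real.exp (X c ^ (i + 1)) = c := by
  let ψ : ℝ → ℝ := fun y => y + Real.exp ((i + 1) * y)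
  have hi : (0 : ℝ) < i + 1 := by positivity
  have hmono : StrictMono ψ := fun a b h =>
    add_lt_add h (Real.exp_lt_exp.mpr (mul_lt_mul_of_pos_left h hi))
  have hcd : ContDiff ℝ ⊤ ψ := by
    unfold ψ; fun_prop
  have hsurj : Surjective ψ := by
    apply hcd.continuous.surjective
    · exact Filter.tendsto_atTop_mono (fun y => le_add_of_nonneg_right (Real.exp_pos _).le)
        Filter.tendsto_id
    · have h1 : Filter.Tendsto (fun y : ℝ => Real.exp ((i + 1) * y)) Filter.atBot (nhds 0) :=
        Real.tendsto_exp_atBot.comp (Filter.tendsto_id.const_mul_atBot hi)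
      exact Filter.tendsto_id.atBot_add h1
  let e : ℝ ≃ₜ ℝ := (hmono.orderIsoOfSurjective ψ hsurj).toHomeomorph
  have he : ∀ y, e y = ψ y := fun y => rfl
  have hd : ∀ y, HasDerivAt e (1 + Real.exp ((i + 1) * y) * (i + 1)) y := by
    intro y
    have h1 : HasDerivAt (fun y : ℝ => ((i : ℝ) + 1) * y) (i + 1) y := by
      simpa using (hasDerivAt_id y).const_mul ((i : ℝ) + 1)
    exact (hasDerivAt_id y).add h1.exp
  have hsymm : ContDiff ℝ ⊤ e.symm :=
    e.contDiff_symm_deriv (fun y => by positivity) hd hcd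
  have han : AnalyticOnNhd ℝ e.symm Set.univ := contDiff_omega_iff_analyticOnNhd.mp hsymm
  refine ⟨fun c => Real.exp (e.symm (Real.log c)), ?_, ?_⟩
  · intro c hc
    exact ((han _ (Set.mem_univ _)).comp (analyticAt_log hc)).rexp
  · intro c hc
    refine ⟨Real.exp_pos _, ?_⟩
    have h1 := e.apply_symm_apply (Real.log c)
    rw [he] at h1
    simp only [ψ] at h1
    rw [← Real.exp_nat_mul, ← Real.exp_add]
    push_cast
    rw [h1, Real.exp_log hc]

lemma root_unique (i : ℕ) {x y : ℝ} (hx : 0 < x) (hy : 0 < y)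
    (h : x * Real.exp (x ^ (i + 1)) = y * Real.exp (y ^ (i + 1))) : x = y := by
  have hm : ∀ a b : ℝ, 0 < a → a < b → a * Real.exp (a ^ (i + 1)) < b * Real.exp (b ^ (i + 1)) :=
    fun a b ha hab => mul_lt_mul hab (Real.exp_le_exp.mpr (pow_le_pow_left₀ ha.le hab.le _))
      (Real.exp_pos _) (ha.trans hab).le
  rcases lt_trichotomy x y with h1 | h1 | h1
  · exact absurd h (hm x y hx h1).ne
  · exact h1
  · exact absurd h.symm (hm y x hy h1).ne

end Pool.Agent.P.MP_4376e9_pr
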