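import Pool.Agent.P.MP_4376e9_pr.Lower1

/-!
The abstract lower bound on the partition function.
-/

set_option linter.unusedSectionVars false
set_option linter.unusedVariables false

namespace Pool.Agent.P.MP_4376e9_pr
open Finset

variable {α : Type*} [DecidableEq α]

/-- Three edges forming a loose triangle. -/
def Tri (e e₁ e₂ : Finset α) : Prop :=
  ∃ u ∈ e₁, ∃ v ∈ e, ∃ w ∈ e, u ∉ e ∧ v ∈ e₁ ∧ w ∉ e₁ ∧ u ∈ e₂ ∧ w ∈ e₂ ∧ v ∉ e₂

instance (e e₁ e₂ : Finset α) : Decidable (Tri e e₁ e₂) := by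
  unfold Tri; infer_instance

/-- Weighted count of triangles of edges. -/
noncomputable def Trip (H : Finset (Finset α)) (z : α → ℝ) : ℝ :=
  ∑ e ∈ H, ∑ e₁ ∈ H, ∑ e₂ ∈ H, if Tri e e₁ e₂ then ∏ v ∈ e ∪ e₁ ∪ e₂, z v else 0

lemma Trip_nonneg (H : Finset (Finset α)) {z : α → ℝ} (hz : ∀ v, 0 ≤ z v) : 0 ≤ Trip H z := by
  refine sum_nonneg fun _ _ => sum_nonneg fun _ _ => sum_nonneg fun _ _ => ?_
  split_ifs
  · exact prod_nonneg fun v _ => hz v
  · exact le_rfl

lemma super_Trip {p : ℝ} (hp : 0 ≤ p) (H : Finset (Finset α)) :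
    Super p (fun U I => Trip H (zb p U I)) := by
  refine Super.sum H fun e _ => Super.sum H fun e₁ _ => Super.sum H fun e₂ _ => ?_
  by_cases h : Tri e e₁ e₂
  · simp only [h, if_true]; exact super_mono hp _
  · simp only [h, if_false]
    intro U I u t _ _ _ _
    simp

lemma CC_le (H : Finset (Finset α)) {p : ℝ} (hp0 : 0 ≤ p) {r : ℕ} (hr : ∀ e ∈ H, e.card ≤ r)
    {U I : Finset α} (hd : Disjoint U I)
    {z : α → ℝ} (hz0 : ∀ v ∈ U, 0 ≤ z v) (hz1 : ∀ v ∈ U, z v ≤ p)
    (hzb : ∀ v ∈ U, ¬ Ind H (insert v I) → z v = 0) {e : Finset α} (he : e ∈ H) :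
    (∏ v ∈ e, ext U I z v) * CC H U I z e ≤ (r : ℝ) ^ 3 *
      ∑ e₁ ∈ H, ∑ e₂ ∈ H, if Tri e e₁ e₂ then ∏ v ∈ e ∪ e₁ ∪ e₂, zb p U I v else 0 := by
  set T : Finset α → Finset α → ℝ :=
    fun e₁ e₂ => if Tri e e₁ e₂ then ∏ v ∈ e ∪ e₁ ∪ e₂, zb p U I v else 0 with hT
  have hT0 : ∀ e₁ e₂, 0 ≤ T e₁ e₂ := by
    intro e₁ e₂; simp only [hT]; split_ifs
    · exact prod_nonneg fun v _ => zb_nonneg hp0 U I v
    · exact le_rfl
  have hP0 : 0 ≤ ∏ v ∈ e, ext U I z v := prod_nonneg fun v _ => ext_nonneg hz0 v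
  have hpt : ∀ u ∈ U \ e, ∀ v ∈ U ∩ e, ∀ w ∈ (U ∩ e).erase v,
      (∏ v ∈ e, ext U I z v) * (if adj H I u v ∧ adj H I u w then z u else 0)
        ≤ ∑ e₁ ∈ H, if u ∈ e₁ then ∑ e₂ ∈ H, T e₁ e₂ else 0 := by
    intro u hu v hv w hw
    have hnn : ∀ e₁ ∈ H, 0 ≤ if u ∈ e₁ then ∑ e₂ ∈ H, T e₁ e₂ else 0 := by
      intro e₁ _; split_ifs
      · exact sum_nonneg fun e₂ _ => hT0 e₁ e₂
      · exact le_rfl
    rw [mem_sdiff] at hu
    have hwv := ne_of_mem_erase hw
    have hw' := mem_inter.mp (mem_of_mem_erase hw)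
    have hv' := mem_inter.mp hv
    by_cases hadj : adj H I u v ∧ adj H I u w
    swap
    · rw [if_neg hadj, mul_zero]; exact sum_nonneg hnn
    rw [if_pos hadj]
    by_cases hu1 : Ind H (insert u I)
    swap
    · rw [hzb u hu.1 hu1, mul_zero]; exact sum_nonneg hnn
    by_cases hv1 : Ind H (insert v I)
    swap
    · rw [prod_eq_zero hv'.2 (by simp [ext, hv'.1, hzb v hv'.1 hv1]), zero_mul]
      exact sum_nonneg hnn
    by_cases hw1 : Ind H (insert w I)
    swap
    · rw [prod_eq_zero hw'.2 (by simp [ext, hw'.1, hzb w hw'.1 hw1]), zero_mul]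
      exact sum_nonneg hnn
    by_cases hI : ∀ x ∈ e, x ∉ U → x ∈ I
    swap
    · push Not at hI
      obtain ⟨x, hxe, hxU, hxI⟩ := hI
      rw [prod_eq_zero hxe (by simp [ext, hxU, hxI]), zero_mul]
      exact sum_nonneg hnn
    obtain ⟨e₁, he₁, hue₁, hve₁, hs₁⟩ := adj_edge hadj.1 hu1 hv1
    obtain ⟨e₂, he₂, hue₂, hwe₂, hs₂⟩ := adj_edge hadj.2 hu1 hw1
    have hwe₁ : w ∉ e₁ := by
      intro h
      have := hs₁ h
      simp only [mem_insert] at this
      rcases this with h3 | h3 | h3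
      · exact hwv h3
      · exact hu.2 (h3 ▸ hw'.2)
      · exact disjoint_left.mp hd hw'.1 h3
    have hve₂ : v ∉ e₂ := by
      intro h
      have := hs₂ h
      simp only [mem_insert] at this
      rcases this with h3 | h3 | h3
      · exact hwv h3.symm
      · exact hu.2 (h3 ▸ hv'.2)
      · exact disjoint_left.mp hd hv'.1 h3
    have htri : Tri e e₁ e₂ := ⟨u, hue₁, v, hv'.2, w, hw'.2, hu.2, hve₁, hwe₁, hue₂, hwe₂, hve₂⟩
    refine le_trans ?_ (single_le_sum hnn he₁)
    rw [if_pos hue₁]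
    refine le_trans ?_ (single_le_sum (fun e₂ _ => hT0 e₁ e₂) he₂)
    simp only [hT, if_pos htri]
    have hI2 : ∀ x ∈ e ∪ e₁ ∪ e₂, x ∉ U → x ∈ I := by
      intro x hx hxU
      simp only [mem_union] at hx
      rcases hx with (h | h) | h
      · exact hI x h hxU
      · have := hs₁ h
        simp only [mem_insert] at this
        rcases this with h3 | h3 | h3
        · exact absurd (h3 ▸ hv'.1) hxU
        · exact absurd (h3 ▸ hu.1) hxU
        · exact h3
      · have := hs₂ h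
        simp only [mem_insert] at this
        rcases this with h3 | h3 | h3
        · exact absurd (h3 ▸ hw'.1) hxU
        · exact absurd (h3 ▸ hu.1) hxU
        · exact h3
    have hset : U ∩ (e ∪ e₁ ∪ e₂) = insert u (U ∩ e) := by
      ext x
      simp only [mem_inter, mem_union, mem_insert]
      constructor
      · rintro ⟨hxU, (h | h) | h⟩
        · exact Or.inr ⟨hxU, h⟩
        · have := hs₁ h
          simp only [mem_insert] at this
          rcases this with h3 | h3 | h3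
          · exact Or.inr ⟨hxU, h3 ▸ hv'.2⟩
          · exact Or.inl h3
          · exact absurd h3 (disjoint_left.mp hd hxU)
        · have := hs₂ h
          simp only [mem_insert] at this
          rcases this with h3 | h3 | h3
          · exact Or.inr ⟨hxU, h3 ▸ hw'.2⟩
          · exact Or.inl h3
          · exact absurd h3 (disjoint_left.mp hd hxU)
      · rintro (rfl | ⟨h1, h2⟩)
        · exact ⟨hu.1, Or.inl (Or.inr hue₁)⟩
        · exact ⟨h1, Or.inl (Or.inl h2)⟩
    unfold zb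
    rw [prod_ext hI, prod_ext hI2, hset, prod_insert (fun h => hu.2 (mem_inter.mp h).2), mul_comm]
    exact mul_le_mul (hz1 u hu.1)
      (prod_le_prod (fun x hx => hz0 x (mem_inter.mp hx).1) (fun x hx => hz1 x (mem_inter.mp hx).1))
      (prod_nonneg fun x hx => hz0 x (mem_inter.mp hx).1) hp0
  have hAr : ((U ∩ e).card : ℝ) ≤ r := by
    exact_mod_cast (card_le_card inter_subset_right).trans (hr e he)
  have hS0 : ∀ u, 0 ≤ ∑ e₁ ∈ H, if u ∈ e₁ then ∑ e₂ ∈ H, T e₁ e₂ else 0 := by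
    intro u
    apply sum_nonneg
    intro e₁ _; split_ifs
    · exact sum_nonneg fun e₂ _ => hT0 e₁ e₂
    · exact le_rfl
  unfold CC
  rw [mul_sum]
  calc ∑ u ∈ U \ e, (∏ v ∈ e, ext U I z v) * ∑ v ∈ U ∩ e, ∑ w ∈ (U ∩ e).erase v,
        (if adj H I u v ∧ adj H I u w then z u else 0)
      ≤ ∑ u ∈ U \ e, (r : ℝ) ^ 2 * ∑ e₁ ∈ H, if u ∈ e₁ then ∑ e₂ ∈ H, T e₁ e₂ else 0 := by
        apply sum_le_sum
        intro u hu
        rw [mul_sum]
        calc _ ≤ ∑ v ∈ U ∩ e, (r : ℝ) * ∑ e₁ ∈ H, if u ∈ e₁ then ∑ e₂ ∈ H, T e₁ e₂ else 0 := by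
              apply sum_le_sum
              intro v hv
              rw [mul_sum]
              refine (sum_le_sum (hpt u hu v hv)).trans ?_
              rw [sum_const, nsmul_eq_mul]
              apply mul_le_mul_of_nonneg_right _ (hS0 u)
              refine le_trans ?_ hAr
              exact_mod_cast card_le_card (erase_subset _ _)
          _ ≤ _ := by
              rw [sum_const, nsmul_eq_mul, sq, mul_assoc]
              exact mul_le_mul_of_nonneg_right hAr (mul_nonneg (Nat.cast_nonneg r) (hS0 u))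
    _ = (r : ℝ) ^ 2 * ∑ e₁ ∈ H, ((U \ e ∩ e₁).card : ℝ) * ∑ e₂ ∈ H, T e₁ e₂ := by
        rw [← mul_sum, sum_comm]
        congr 1
        apply sum_congr rfl
        intro e₁ _
        rw [sum_ite_mem, sum_const, nsmul_eq_mul]
    _ ≤ (r : ℝ) ^ 2 * ∑ e₁ ∈ H, (r : ℝ) * ∑ e₂ ∈ H, T e₁ e₂ := by
        apply mul_le_mul_of_nonneg_left _ (by positivity)
        apply sum_le_sum
        intro e₁ he₁
        apply mul_le_mul_of_nonneg_right _ (sum_nonneg fun e₂ _ => hT0 e₁ e₂)
        exact_mod_cast (card_le_card inter_subset_right).trans (hr e₁ he₁)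
    _ = _ := by rw [← mul_sum]; ring

/-- The potential for the lower bound. -/
noncomputable def GLo (H : Finset (Finset α)) (p : ℝ) (U I : Finset α) (z : α → ℝ) : ℝ :=
  ∑ v ∈ U, kap p (z v) + (1 - p)⁻¹ * Lam H (ext U I z)

/-- Error polynomial for the lower bound. -/
noncomputable def EL (H : Finset (Finset α)) (r : ℕ) (p : ℝ) (U I : Finset α) : ℝ :=
  8 * (r : ℝ) ^ 2 * p * Lam H (zb p U I) + 4 * (r : ℝ) ^ 3 * Trip H (zb p U I)

lemma lower_step (H : Finset (Finset α)) {p : ℝ} (hp0 : 0 < p) {r : ℕ} (hr : ∀ e ∈ H, e.card ≤ r)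
    (hrp : r * p ≤ 1 / 2) (hr1 : 1 ≤ r) {U I : Finset α} (hd : Disjoint U I)
    {z : α → ℝ} (hz0 : ∀ v ∈ U, 0 ≤ z v) (hz1 : ∀ v ∈ U, z v ≤ p)
    (hzb : ∀ v ∈ U, ¬ Ind H (insert v I) → z v = 0) :
    ∑ u ∈ U, (kap p (z u) + z u * GLo H p (U.erase u) (insert u I) (sp H p U I z u)
        + (1 - z u) * GLo H p (U.erase u) I (ss H p U I z))
      ≤ U.card * GLo H p U I z + EL H r p U I := by
  have hr1' : (1 : ℝ) ≤ r := by exact_mod_cast hr1
  have hp1 : p ≤ 1 / 2 := by nlinarith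
  have h1 := ent_sum H hp0 (by linarith) U I hz0 hz1
  have h2 := adj_sum_le H hd hz0 hzb
  have h3 := sum_le_sum fun e (he : e ∈ H) => energy_edge H hp0 hrp hr1 hd hz0 hz1 he (hr e he)
  have h4 := sum_le_sum fun e (he : e ∈ H) => CC_le H hp0.le hr hd hz0 hz1 hzb he
  rw [← mul_sum] at h4
  have h5 : Lam H (ext U I z) ≤ Lam H (zb p U I) :=
    sum_le_sum fun e _ => prod_le_prod (fun v _ => ext_nonneg hz0 v) (fun v _ => ext_le_zb hz1 v)
  rw [sum_comm] at h3
  set ρ := (1 - p)⁻¹ with hρ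
  have hρ0 : 0 ≤ ρ := inv_nonneg.mpr (by linarith)
  have hρ2 : ρ ≤ 2 := by
    rw [hρ, inv_le_comm₀ (by linarith) (by norm_num)]; linarith
  have e1 : ∑ u ∈ U, (kap p (z u) + z u * GLo H p (U.erase u) (insert u I) (sp H p U I z u)
        + (1 - z u) * GLo H p (U.erase u) I (ss H p U I z))
      = ∑ u ∈ U, kap p (z u) + ∑ u ∈ U, (z u * ∑ v ∈ U.erase u, kap p (sp H p U I z u v)
        + (1 - z u) * ∑ v ∈ U.erase u, kap p (ss H p U I z v))
        + ρ * ∑ u ∈ U, ∑ e ∈ H, (z u * ∏ v ∈ e, ext (U.erase u) (insert u I) (sp H p U I z u) v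
        + (1 - z u) * ∏ v ∈ e, ext (U.erase u) I (ss H p U I z) v) := by
    rw [mul_sum, ← sum_add_distrib, ← sum_add_distrib]
    apply sum_congr rfl
    intro u _
    rw [sum_add_distrib, ← mul_sum, ← mul_sum]
    unfold GLo Lam
    ring
  have e2 : ∑ e ∈ H, (∏ v ∈ e, ext U I z v) * ((U.card : ℝ) + 4 * (r : ℝ) ^ 2 * p
          - (if (U ∩ e).card = 2 then 2 else 0) + 2 * CC H U I z e)
      = ((U.card : ℝ) + 4 * (r : ℝ) ^ 2 * p) * Lam H (ext U I z)
        - ∑ e ∈ H, (if (U ∩ e).card = 2 then 2 else 0) * ∏ w ∈ e, ext U I z w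
        + 2 * ∑ e ∈ H, (∏ v ∈ e, ext U I z v) * CC H U I z e := by
    unfold Lam
    rw [mul_sum, mul_sum, ← sum_sub_distrib, ← sum_add_distrib]
    apply sum_congr rfl
    intro e _
    ring
  rw [e2] at h3
  rw [e1]
  have k2 := mul_le_mul_of_nonneg_left h2 hρ0
  have k3 := mul_le_mul_of_nonneg_left h3 hρ0
  have hT0 := Trip_nonneg H (zb_nonneg hp0.le U I)
  have hL0 := Lam_nonneg H (ext_nonneg (I := I) hz0)
  have k4 : ρ * (4 * (r : ℝ) ^ 2 * p * Lam H (ext U I z)
      + 2 * ∑ e ∈ H, (∏ v ∈ e, ext U I z v) * CC H U I z e) ≤ EL H r p U I := by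
    have a1 : 4 * (r : ℝ) ^ 2 * p * Lam H (ext U I z)
        + 2 * ∑ e ∈ H, (∏ v ∈ e, ext U I z v) * CC H U I z e
        ≤ 4 * (r : ℝ) ^ 2 * p * Lam H (zb p U I) + 2 * ((r : ℝ) ^ 3 * Trip H (zb p U I)) := by
      have := mul_le_mul_of_nonneg_left h5 (show 0 ≤ 4 * (r : ℝ) ^ 2 * p by positivity)
      unfold Trip
      linarith
    have a2 : 0 ≤ 4 * (r : ℝ) ^ 2 * p * Lam H (zb p U I) + 2 * ((r : ℝ) ^ 3 * Trip H (zb p U I)) := by
      have := hL0.trans h5
      positivity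
    calc _ ≤ ρ * (4 * (r : ℝ) ^ 2 * p * Lam H (zb p U I) + 2 * ((r : ℝ) ^ 3 * Trip H (zb p U I))) :=
          mul_le_mul_of_nonneg_left a1 hρ0
      _ ≤ 2 * (4 * (r : ℝ) ^ 2 * p * Lam H (zb p U I) + 2 * ((r : ℝ) ^ 3 * Trip H (zb p U I))) :=
          mul_le_mul_of_nonneg_right hρ2 a2
      _ = _ := by unfold EL; ring
  unfold GLo
  rw [← hρ]
  nlinarith

theorem lower_main (H : Finset (Finset α)) {p : ℝ} (hp0 : 0 < p) {r : ℕ}
    (hr : ∀ e ∈ H, e.card ≤ r) (hrp : r * p ≤ 1 / 2) (hr1 : 1 ≤ r) :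
    ∀ (M : ℕ) (U I : Finset α) (z : α → ℝ), U.card = M → Disjoint U I → Ind H I →
      (∀ v ∈ U, 0 ≤ z v) → (∀ v ∈ U, z v ≤ p) → (∀ v ∈ U, ¬ Ind H (insert v I) → z v = 0) →
      - GLo H p U I z - 2 * p ^ 2 * M - harm M * EL H r p U I ≤ Real.log (Zf H p U I) := by
  have hr1' : (1 : ℝ) ≤ r := by exact_mod_cast hr1
  have hp1 : p ≤ 1 / 2 := by nlinarith
  have hp1' : p < 1 := by linarith
  have hEs : Super p (EL H r p) :=
    ((super_Lam hp0.le H).smul (show 0 ≤ 8 * (r : ℝ) ^ 2 * p by positivity)).add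
      ((super_Trip hp0.le H).smul (show (0 : ℝ) ≤ 4 * (r : ℝ) ^ 3 by positivity))
  intro M
  induction M with
  | zero =>
    intro U I z hU hd hI _ _ _
    rw [card_eq_zero] at hU
    subst hU
    simp [GLo, Zf_empty H p hI, Lam_ext_empty hI, harm]
  | succ M ih =>
    intro U I z hU hd hI hz0 hz1 hzb
    have hb : ∀ v ∈ U, 0 ≤ hh H U I z v ∧ hh H U I z v ≤ p :=
      fun v hv => hh_bounds H hp0.le I hz0 hz1 hv
    have hs0 : ∀ v ∈ U, 0 ≤ ss H p U I z v := fun v hv =>
      le_min (div_nonneg (hz0 v hv) (by linarith [(hb v hv).2])) hp0.le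
    have hs1 : ∀ v, ss H p U I z v ≤ p := fun v => min_le_right _ _
    have key : ∀ u ∈ U,
        - (kap p (z u) + z u * GLo H p (U.erase u) (insert u I) (sp H p U I z u)
          + (1 - z u) * GLo H p (U.erase u) I (ss H p U I z))
          - 2 * p ^ 2 * (M + 1) - harm M * EL H r p U I ≤ Real.log (Zf H p U I) := by
      intro u hu
      have huI : u ∉ I := disjoint_left.mp hd hu
      have hcard : (U.erase u).card = M := by rw [card_erase_of_mem hu, hU]; rfl
      have hm := ih (U.erase u) I (ss H p U I z) hcard (hd.mono_left (erase_subset u U)) hI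
        (fun v hv => hs0 v (mem_of_mem_erase hv)) (fun v _ => hs1 v)
        (fun v hv h => by
          unfold ss
          rw [hzb v (mem_of_mem_erase hv) h, zero_div, min_eq_left hp0.le])
      set t := z u with ht
      have ht0 : 0 ≤ t := hz0 u hu
      have htp : t ≤ p := hz1 u hu
      have hpl : t * (- GLo H p (U.erase u) (insert u I) (sp H p U I z u) - 2 * p ^ 2 * M
          - harm M * EL H r p (U.erase u) (insert u I))
          ≤ t * (Real.log (Zf H p (U.erase u) (insert u I))) := by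
        by_cases hIu : Ind H (insert u I)
        · apply mul_le_mul_of_nonneg_left _ ht0
          apply ih (U.erase u) (insert u I) _ hcard _ hIu
          · intro v hv
            unfold sp; split_ifs
            · exact le_rfl
            · exact hs0 v (mem_of_mem_erase hv)
          · intro v hv
            unfold sp; split_ifs
            · exact hp0.le
            · exact hs1 v
          · intro v _ h
            unfold sp
            rw [if_pos (show adj H I u v from h)]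
          · rw [disjoint_insert_right]
            exact ⟨notMem_erase u U, hd.mono_left (erase_subset u U)⟩
        · have : t = 0 := hzb u hu hIu
          rw [this]; simp
      have hch := chain_ge hp0 hp1' (Zf_nonneg H hp0.le hp1'.le (U.erase u) (insert u I))
        (Zf_pos H hp0.le hp1' (U.erase u) hI) ht0 (show t < 1 by linarith)
        (fun h => Zf_pos H hp0.le hp1' _ (by
          by_contra h'; exact h.ne' (hzb u hu h')))
      rw [← Zf_erase H p U I u hu] at hch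
      have hk := klb_le_kap hp1 ht0 htp
      have hm' := mul_le_mul_of_nonneg_left hm (show 0 ≤ 1 - t by linarith)
      have hE := mul_le_mul_of_nonneg_left (hEs U I u t hu huI ht0 htp) (harm_nonneg M)
      nlinarith
    have hsum := sum_le_sum key
    simp only [sum_sub_distrib, sum_neg_distrib, sum_const, hU, nsmul_eq_mul] at hsum
    have hstep := lower_step H hp0 hr hrp hr1 hd hz0 hz1 hzb
    rw [hU] at hstep
    rw [harm_succ]
    push_cast at hsum hstep ⊢
    have hM : (0 : ℝ) < (M : ℝ) + 1 := by positivity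
    have hfin : ((M : ℝ) + 1) * (- GLo H p U I z - 2 * p ^ 2 * ((M : ℝ) + 1)
        - (harm M + 1 / ((M : ℝ) + 1)) * EL H r p U I)
        ≤ ((M : ℝ) + 1) * (Real.log (Zf H p U I)) := by
      have e : ((M : ℝ) + 1) * (- GLo H p U I z - 2 * p ^ 2 * ((M : ℝ) + 1)
        - (harm M + 1 / ((M : ℝ) + 1)) * EL H r p U I)
          = - (((M : ℝ) + 1) * GLo H p U I z) - EL H r p U I
          - ((M : ℝ) + 1) * (2 * p ^ 2 * ((M : ℝ) + 1))
          - ((M : ℝ) + 1) * (harm M * EL H r p U I) := by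
        field_simp; ring
      rw [e]
      linarith
    exact le_of_mul_le_mul_left hfin hM

end Pool.Agent.P.MP_4376e9_pr
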