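import Pool.Agent.P.MP_4376e9_pr.Upper2
import Pool.Agent.P.MP_4376e9_pr.Lower2

/-!
Bounding the error polynomials by codegree conditions.
-/

set_option linter.unusedSectionVars false
set_option linter.unusedVariables false

namespace Pool.Agent.P.MP_4376e9_pr
open Finset

variable {α : Type*} [DecidableEq α]

/-- Codegree of a set. -/
def deg (H : Finset (Finset α)) (A : Finset α) : ℕ := (H.filter (fun e => A ⊆ e)).card

lemma ext_sum (H : Finset (Finset α)) {r : ℕ} (hr : ∀ e ∈ H, e.card = r) {p X : ℝ} (hp : 0 ≤ p)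
    (hX0 : 0 ≤ X) (j : ℕ)
    (hX : ∀ A : Finset α, j ≤ A.card → A.card < r → (deg H A : ℝ) * p ^ (r - A.card) ≤ X)
    (B : Finset α) :
    (∑ e ∈ H, if j ≤ (e ∩ B).card ∧ ¬ e ⊆ B then p ^ (e \ B).card else 0) ≤ 2 ^ B.card * X := by
  rw [← sum_filter]
  rw [← sum_fiberwise_of_maps_to (s := H.filter (fun e => j ≤ (e ∩ B).card ∧ ¬ e ⊆ B))
    (t := B.powerset) (g := fun e => e ∩ B) (fun e _ => mem_powerset.mpr inter_subset_right)]
  calc _ ≤ ∑ A ∈ B.powerset, X := by
        apply sum_le_sum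
        intro A _
        rcases ((H.filter (fun e => j ≤ (e ∩ B).card ∧ ¬ e ⊆ B)).filter
          (fun e => e ∩ B = A)).eq_empty_or_nonempty with h | ⟨e₀, he₀⟩
        · rw [h, sum_empty]; exact hX0
        · simp only [mem_filter] at he₀
          obtain ⟨⟨h1, h2, h3⟩, h4⟩ := he₀
          have hlt : A.card < r := by
            rw [← h4, ← hr e₀ h1]
            apply card_lt_card
            refine ⟨inter_subset_left, fun h => h3 ?_⟩
            exact h.trans inter_subset_right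
          refine le_trans ?_ (hX A (h4 ▸ h2) hlt)
          have : ∀ e ∈ (H.filter (fun e => j ≤ (e ∩ B).card ∧ ¬ e ⊆ B)).filter
              (fun e => e ∩ B = A), p ^ (e \ B).card = p ^ (r - A.card) := by
            intro e he
            simp only [mem_filter] at he
            congr 1
            have := card_sdiff_add_card_inter e B
            rw [he.2, hr e he.1.1] at this
            omega
          rw [sum_congr rfl this, sum_const, nsmul_eq_mul]
          apply mul_le_mul_of_nonneg_right _ (pow_nonneg hp _)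
          unfold deg
          apply Nat.cast_le.mpr
          apply card_le_card
          intro e he
          simp only [mem_filter] at he ⊢
          exact ⟨he.1.1, he.2 ▸ inter_subset_left⟩
    _ = _ := by rw [sum_const, card_powerset, nsmul_eq_mul]; push_cast; ring

lemma sub_count (H : Finset (Finset α)) (B : Finset α) :
    (∑ e ∈ H, if e ⊆ B then (1 : ℝ) else 0) ≤ 2 ^ B.card := by
  rw [← sum_filter, sum_const, nsmul_eq_mul, mul_one]
  have : (H.filter (fun e => e ⊆ B)).card ≤ B.powerset.card :=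
    card_le_card fun e he => mem_powerset.mpr (mem_filter.mp he).2
  rw [card_powerset] at this
  exact_mod_cast this

lemma prod_zb_le {p : ℝ} (hp : 0 ≤ p) (U A : Finset α) :
    ∏ v ∈ A, zb p U ∅ v ≤ p ^ A.card := by
  rw [← prod_const]
  exact prod_le_prod (fun v _ => zb_nonneg hp U ∅ v)
    (fun v _ => zb_le_of_notMem hp (notMem_empty v))

lemma Lam_zb_le (H : Finset (Finset α)) {r : ℕ} (hr : ∀ e ∈ H, e.card = r) {p : ℝ} (hp : 0 ≤ p)
    (U : Finset α) : Lam H (zb p U ∅) ≤ H.card * p ^ r := by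
  unfold Lam
  calc ∑ e ∈ H, ∏ v ∈ e, zb p U ∅ v ≤ ∑ e ∈ H, p ^ r :=
        sum_le_sum fun e he => hr e he ▸ prod_zb_le hp U e
    _ = _ := by rw [sum_const, nsmul_eq_mul]

lemma pow_union (p : ℝ) (a b : Finset α) : p ^ (a ∪ b).card = p ^ a.card * p ^ (b \ a).card := by
  rw [← pow_add, union_comm, ← card_sdiff_add_card, add_comm]

lemma Pairs_zb_le [Fintype α] (H : Finset (Finset α)) {r : ℕ} (hr : ∀ e ∈ H, e.card = r)
    {p ε : ℝ} (hp : 0 ≤ p) (hε0 : 0 ≤ ε)
    (hε : ∀ A : Finset α, 2 ≤ A.card → A.card < r → (deg H A : ℝ) * p ^ (r - A.card) ≤ ε)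
    (U : Finset α) : Pairs H (zb p U ∅) ≤ H.card * p ^ r * (2 ^ r * ε) := by
  unfold Pairs
  calc _ ≤ ∑ e ∈ H, p ^ r * (2 ^ r * ε) := by
        apply sum_le_sum
        intro e he
        have h := ext_sum H hr hp hε0 2 hε e
        rw [hr e he] at h
        refine le_trans ?_ (mul_le_mul_of_nonneg_left h (pow_nonneg hp r))
        rw [sum_filter, mul_sum]
        apply sum_le_sum
        intro e' he'
        split_ifs with h1 h2 h2
        · rw [← hr e he, ← pow_union]; exact prod_zb_le hp U _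
        · exfalso
          apply h2
          refine ⟨inter_comm e e' ▸ h1.2, fun h3 => h1.1 ?_⟩
          exact eq_of_subset_of_card_le h3 (by rw [hr e he, hr e' he'])
        · positivity
        · simp
    _ = _ := by rw [sum_const, nsmul_eq_mul]; ring

/-- First type of term. -/
noncomputable def T1 (p : ℝ) (a b c : Finset α) : ℝ :=
  if (1 ≤ (b ∩ a).card ∧ ¬ b ⊆ a) ∧ (2 ≤ (c ∩ (a ∪ b)).card ∧ ¬ c ⊆ a ∪ b)
    then p ^ (a ∪ b ∪ c).card else 0

/-- Second type of term. -/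
noncomputable def T2 (p : ℝ) (a b c : Finset α) : ℝ :=
  if (2 ≤ (b ∩ a).card ∧ ¬ b ⊆ a) ∧ c ⊆ a ∪ b then p ^ (a ∪ b ∪ c).card else 0

lemma T1_nonneg {p : ℝ} (hp : 0 ≤ p) (a b c : Finset α) : 0 ≤ T1 p a b c := by
  unfold T1; split_ifs
  · positivity
  · exact le_rfl

lemma T2_nonneg {p : ℝ} (hp : 0 ≤ p) (a b c : Finset α) : 0 ≤ T2 p a b c := by
  unfold T2; split_ifs
  · positivity
  · exact le_rfl

lemma card_union_le_two {H : Finset (Finset α)} {r : ℕ} (hr : ∀ e ∈ H, e.card = r)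
    {a b : Finset α} (ha : a ∈ H) (hb : b ∈ H) : (2 : ℝ) ^ (a ∪ b).card ≤ 4 ^ r := by
  have : (a ∪ b).card ≤ 2 * r := by
    have := card_union_le a b
    rw [hr a ha, hr b hb] at this
    omega
  calc (2 : ℝ) ^ (a ∪ b).card ≤ 2 ^ (2 * r) := pow_le_pow_right₀ (by norm_num) this
    _ = 4 ^ r := by rw [pow_mul]; norm_num

lemma sum_T1_le (H : Finset (Finset α)) {r : ℕ} (hr : ∀ e ∈ H, e.card = r)
    {p D ε : ℝ} (hp : 0 ≤ p) (hD0 : 0 ≤ D) (hε0 : 0 ≤ ε)
    (hD : ∀ A : Finset α, 1 ≤ A.card → A.card < r → (deg H A : ℝ) * p ^ (r - A.card) ≤ D)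
    (hε : ∀ A : Finset α, 2 ≤ A.card → A.card < r → (deg H A : ℝ) * p ^ (r - A.card) ≤ ε) :
    ∑ a ∈ H, ∑ b ∈ H, ∑ c ∈ H, T1 p a b c ≤ H.card * p ^ r * (2 ^ r * D * (4 ^ r * ε)) := by
  calc _ ≤ ∑ a ∈ H, p ^ r * (2 ^ r * D * (4 ^ r * ε)) := by
        apply sum_le_sum
        intro a ha
        have h := ext_sum H hr hp hD0 1 hD a
        rw [hr a ha] at h
        have h' := mul_le_mul_of_nonneg_left (mul_le_mul_of_nonneg_right h
          (show (0 : ℝ) ≤ 4 ^ r * ε by positivity)) (pow_nonneg hp r)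
        refine le_trans ?_ h'
        rw [sum_mul, mul_sum]
        apply sum_le_sum
        intro b hb
        by_cases h1 : 1 ≤ (b ∩ a).card ∧ ¬ b ⊆ a
        · rw [if_pos h1]
          have g := (ext_sum H hr hp hε0 2 hε (a ∪ b)).trans
            (mul_le_mul_of_nonneg_right (card_union_le_two hr ha hb) hε0)
          have g' := mul_le_mul_of_nonneg_left (mul_le_mul_of_nonneg_left g
            (pow_nonneg hp (b \ a).card)) (pow_nonneg hp r)
          refine le_trans (le_of_eq ?_) g'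
          rw [mul_sum, mul_sum]
          apply sum_congr rfl
          intro c _
          unfold T1
          simp only [h1, not_false_eq_true, and_self, true_and]
          split_ifs
          · rw [pow_union, pow_union, hr a ha]; ring
          · simp
        · rw [if_neg h1]
          apply le_of_eq
          rw [zero_mul, mul_zero]
          apply sum_eq_zero
          intro c _
          unfold T1
          rw [if_neg (fun h => h1 h.1)]
    _ = _ := by rw [sum_const, nsmul_eq_mul]; ring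

lemma sum_T2_le (H : Finset (Finset α)) {r : ℕ} (hr : ∀ e ∈ H, e.card = r)
    {p ε : ℝ} (hp : 0 ≤ p) (hε0 : 0 ≤ ε)
    (hε : ∀ A : Finset α, 2 ≤ A.card → A.card < r → (deg H A : ℝ) * p ^ (r - A.card) ≤ ε) :
    ∑ a ∈ H, ∑ b ∈ H, ∑ c ∈ H, T2 p a b c ≤ H.card * p ^ r * (2 ^ r * ε * 4 ^ r) := by
  calc _ ≤ ∑ a ∈ H, p ^ r * (2 ^ r * ε * 4 ^ r) := by
        apply sum_le_sum
        intro a ha
        have h := ext_sum H hr hp hε0 2 hε a
        rw [hr a ha] at h
        have h' := mul_le_mul_of_nonneg_left (mul_le_mul_of_nonneg_right h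
          (show (0 : ℝ) ≤ 4 ^ r by positivity)) (pow_nonneg hp r)
        refine le_trans ?_ h'
        rw [sum_mul, mul_sum]
        apply sum_le_sum
        intro b hb
        by_cases h1 : 2 ≤ (b ∩ a).card ∧ ¬ b ⊆ a
        · rw [if_pos h1]
          have g := (sub_count H (a ∪ b)).trans (card_union_le_two hr ha hb)
          have g' := mul_le_mul_of_nonneg_left (mul_le_mul_of_nonneg_left g
            (pow_nonneg hp (b \ a).card)) (pow_nonneg hp r)
          refine le_trans (le_of_eq ?_) g'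
          rw [mul_sum, mul_sum]
          apply sum_congr rfl
          intro c _
          unfold T2
          simp only [h1, not_false_eq_true, and_self, true_and]
          split_ifs with h2
          · rw [union_eq_left.mpr h2, pow_union, hr a ha]; ring
          · simp
        · rw [if_neg h1]
          apply le_of_eq
          rw [zero_mul, mul_zero]
          apply sum_eq_zero
          intro c _
          unfold T2
          rw [if_neg (fun h => h1 h.1)]
    _ = _ := by rw [sum_const, nsmul_eq_mul]; ring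

lemma two_le_card {s : Finset α} {x y : α} (hx : x ∈ s) (hy : y ∈ s) (h : x ≠ y) : 2 ≤ s.card :=
  one_lt_card.mpr ⟨x, hx, y, hy, h⟩

lemma tri_le {p : ℝ} (hp : 0 ≤ p) {e e₁ e₂ : Finset α} (h3 : 3 ≤ e.card) (h : Tri e e₁ e₂) :
    p ^ (e ∪ e₁ ∪ e₂).card ≤ T1 p e e₁ e₂ + T1 p e₁ e₂ e + T1 p e₂ e e₁
      + T2 p e e₁ e₂ + T2 p e e₂ e₁ := by
  obtain ⟨u, hu1, v, hv, w, hw, hu, hv1, hw1, hu2, hw2, hv2⟩ := h
  have n1 := T1_nonneg hp e e₁ e₂
  have n2 := T1_nonneg hp e₁ e₂ e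
  have n3 := T1_nonneg hp e₂ e e₁
  have n4 := T2_nonneg hp e e₁ e₂
  have n5 := T2_nonneg hp e e₂ e₁
  by_cases c1 : e₂ ⊆ e ∪ e₁
  swap
  · have : T1 p e e₁ e₂ = p ^ (e ∪ e₁ ∪ e₂).card := by
      unfold T1
      rw [if_pos]
      refine ⟨⟨card_pos.mpr ⟨v, mem_inter.mpr ⟨hv1, hv⟩⟩, fun h => hu (h hu1)⟩, ?_, c1⟩
      exact two_le_card (mem_inter.mpr ⟨hu2, mem_union_right _ hu1⟩)
        (mem_inter.mpr ⟨hw2, mem_union_left _ hw⟩) (ne_of_mem_of_not_mem hw hu).symm
    linarith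
  by_cases c2 : e ⊆ e₁ ∪ e₂
  swap
  · have : T1 p e₁ e₂ e = p ^ (e ∪ e₁ ∪ e₂).card := by
      unfold T1
      rw [if_pos, union_comm (e₁ ∪ e₂), union_assoc]
      refine ⟨⟨card_pos.mpr ⟨u, mem_inter.mpr ⟨hu2, hu1⟩⟩, fun h => hw1 (h hw2)⟩, ?_, c2⟩
      exact two_le_card (mem_inter.mpr ⟨hv, mem_union_left _ hv1⟩)
        (mem_inter.mpr ⟨hw, mem_union_right _ hw2⟩) (ne_of_mem_of_not_mem hv1 hw1)
    linarith
  by_cases c3 : e₁ ⊆ e₂ ∪ e
  swap
  · have : T1 p e₂ e e₁ = p ^ (e ∪ e₁ ∪ e₂).card := by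
      unfold T1
      rw [if_pos, union_assoc, union_comm e₂]
      refine ⟨⟨card_pos.mpr ⟨w, mem_inter.mpr ⟨hw, hw2⟩⟩, fun h => hv2 (h hv)⟩, ?_, c3⟩
      exact two_le_card (mem_inter.mpr ⟨hu1, mem_union_left _ hu2⟩)
        (mem_inter.mpr ⟨hv1, mem_union_right _ hv⟩) (ne_of_mem_of_not_mem hv hu).symm
    linarith
  have hc : e.card ≤ (e₁ ∩ e).card + (e₂ ∩ e).card := by
    refine le_trans (card_le_card ?_) (card_union_le _ _)
    intro x hx
    rcases mem_union.mp (c2 hx) with h | h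
    · exact mem_union_left _ (mem_inter.mpr ⟨h, hx⟩)
    · exact mem_union_right _ (mem_inter.mpr ⟨h, hx⟩)
  by_cases c4 : 2 ≤ (e₁ ∩ e).card
  · have : T2 p e e₁ e₂ = p ^ (e ∪ e₁ ∪ e₂).card := by
      unfold T2
      rw [if_pos ⟨⟨c4, fun h => hu (h hu1)⟩, c1⟩]
    linarith
  · have : T2 p e e₂ e₁ = p ^ (e ∪ e₁ ∪ e₂).card := by
      unfold T2
      rw [if_pos ⟨⟨by omega, fun h => hu (h hu2)⟩, union_comm e₂ e ▸ c3⟩, union_right_comm]
    linarith

lemma Trip_zb_le (H : Finset (Finset α)) {r : ℕ} (hr : ∀ e ∈ H, e.card = r) (hr3 : 3 ≤ r)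
    {p D ε : ℝ} (hp : 0 ≤ p) (hD0 : 0 ≤ D) (hε0 : 0 ≤ ε)
    (hD : ∀ A : Finset α, 1 ≤ A.card → A.card < r → (deg H A : ℝ) * p ^ (r - A.card) ≤ D)
    (hε : ∀ A : Finset α, 2 ≤ A.card → A.card < r → (deg H A : ℝ) * p ^ (r - A.card) ≤ ε)
    (U : Finset α) :
    Trip H (zb p U ∅) ≤ H.card * p ^ r * (8 ^ r * (3 * D + 2) * ε) := by
  have s1 := sum_T1_le H hr hp hD0 hε0 hD hε
  have s2 := sum_T2_le H hr hp hε0 hε
  have h1 : Trip H (zb p U ∅) ≤ ∑ a ∈ H, ∑ b ∈ H, ∑ c ∈ H,
      (T1 p a b c + T1 p b c a + T1 p c a b + T2 p a b c + T2 p a c b) := by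
    unfold Trip
    apply sum_le_sum; intro a ha
    apply sum_le_sum; intro b hb
    apply sum_le_sum; intro c hc
    split_ifs with h
    · exact (prod_zb_le hp U _).trans (tri_le hp (hr a ha ▸ hr3) h)
    · have n1 := T1_nonneg hp a b c
      have n2 := T1_nonneg hp b c a
      have n3 := T1_nonneg hp c a b
      have n4 := T2_nonneg hp a b c
      have n5 := T2_nonneg hp a c b
      linarith
  simp only [sum_add_distrib] at h1
  have p1 : ∑ a ∈ H, ∑ b ∈ H, ∑ c ∈ H, T1 p b c a = ∑ a ∈ H, ∑ b ∈ H, ∑ c ∈ H, T1 p a b c := by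
    rw [sum_comm]
    exact sum_congr rfl fun b _ => sum_comm
  have p2 : ∑ a ∈ H, ∑ b ∈ H, ∑ c ∈ H, T1 p c a b = ∑ a ∈ H, ∑ b ∈ H, ∑ c ∈ H, T1 p a b c := by
    rw [sum_congr rfl fun a _ => sum_comm, sum_comm]
  have p3 : ∑ a ∈ H, ∑ b ∈ H, ∑ c ∈ H, T2 p a c b = ∑ a ∈ H, ∑ b ∈ H, ∑ c ∈ H, T2 p a b c :=
    sum_congr rfl fun a _ => sum_comm
  rw [p1, p2, p3] at h1
  have e8 : (8 : ℝ) ^ r = 2 ^ r * 4 ^ r := by rw [← mul_pow]; norm_num
  rw [e8]
  nlinarith

end Pool.Agent.P.MP_4376e9_pr
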