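import Pool.Agent.P.MP_4376e9_pr.Count

/-!
The hypergraph of cycles in a complete graph: multiplicities and codegrees.
-/

set_option linter.unusedSectionVars false
set_option linter.unusedVariables false

namespace Pool.Agent.P.MP_4376e9_pr
open Finset Function

variable {V : Type*} [Fintype V] [DecidableEq V]

/-- The `i`-th edge of a closed walk. -/
def cedge {j : ℕ} (f : Fin (j + 1) → V) (i : Fin (j + 1)) : Sym2 V := s(f i, f (i + 1))

/-- The edge set of a closed walk. -/
def cset {j : ℕ} (f : Fin (j + 1) → V) : Finset (Sym2 V) := univ.image (cedge f)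

/-- The edge sets of cycles of length `j + 1`. -/
def Hc (V : Type*) [Fintype V] [DecidableEq V] (j : ℕ) : Finset (Finset (Sym2 V)) :=
  (univ.filter (fun f : Fin (j + 1) → V => Injective f)).image cset

lemma fin_ind {j : ℕ} {P : Fin (j + 1) → Prop} (h0 : P 0) (hs : ∀ t, P t → P (t + 1)) :
    ∀ t, P t := by
  intro t
  induction t using Fin.induction with
  | zero => exact h0
  | succ i ih => rw [← Fin.coeSucc_eq_succ]; exact hs _ ih

lemma two_ne {j : ℕ} (hj : 2 ≤ j) (t : Fin (j + 1)) : t + 1 + 1 ≠ t := by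
  intro h
  rw [add_assoc, add_eq_left] at h
  have := congrArg Fin.val h
  obtain ⟨j, rfl⟩ := Nat.exists_eq_add_of_le' hj
  simp only [Fin.val_add, Fin.val_zero, Fin.val_one] at this
  rw [Nat.mod_eq_of_lt (by omega)] at this
  omega

lemma one_ne {j : ℕ} (hj : 2 ≤ j) (t : Fin (j + 1)) : t + 1 ≠ t := by
  intro h
  apply two_ne hj t
  rw [h, h]

lemma cedge_inj {j : ℕ} (hj : 2 ≤ j) {f : Fin (j + 1) → V} (hf : Injective f) :
    Injective (cedge f) := by
  intro i k h
  unfold cedge at h
  rw [Sym2.eq_iff] at h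
  rcases h with h | h
  · exact hf h.1
  · have h1 := hf h.1
    have h2 := hf h.2
    rw [h1] at h2
    exact absurd h2 (two_ne hj k)

lemma card_cset {j : ℕ} (hj : 2 ≤ j) {f : Fin (j + 1) → V} (hf : Injective f) :
    (cset f).card = j + 1 := by
  unfold cset
  rw [card_image_of_injective _ (cedge_inj hj hf), card_univ, Fintype.card_fin]

lemma card_of_mem_Hc {j : ℕ} (hj : 2 ≤ j) : ∀ e ∈ Hc V j, e.card = j + 1 := by
  intro e he
  obtain ⟨f, hf, rfl⟩ := mem_image.mp he
  exact card_cset hj (mem_filter.mp hf).2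

lemma prod_cset {j : ℕ} (hj : 2 ≤ j) {f : Fin (j + 1) → V} (hf : Injective f) (z : Sym2 V → ℝ) :
    ∏ v ∈ cset f, z v = ∏ i, z s(f i, f (i + 1)) := by
  unfold cset
  rw [prod_image (fun a _ b _ h => cedge_inj hj hf h)]
  rfl

/-- The dihedral reparametrisations. -/
def dih {j : ℕ} (f : Fin (j + 1) → V) (x : Bool × Fin (j + 1)) : Fin (j + 1) → V :=
  fun t => if x.1 then f (x.2 + t) else f (x.2 - t)

lemma fiber_card {j : ℕ} (hj : 2 ≤ j) {f : Fin (j + 1) → V} (hf : Injective f) :
    ((univ.filter (fun g : Fin (j + 1) → V => Injective g)).filter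
      (fun g => cset g = cset f)).card = 2 * (j + 1) := by
  have hinj : Injective (dih f) := by
    rintro ⟨b, c⟩ ⟨b', c'⟩ h
    have h0 := congrFun h 0
    have h1 := congrFun h 1
    have hc : c = c' := by
      cases b <;> cases b' <;> simpa [dih, hf.eq_iff] using h0
    subst hc
    cases b <;> cases b' <;> simp only [dih, hf.eq_iff, if_true, Bool.false_eq_true, if_false] at h1
    · rfl
    · exact absurd (sub_eq_iff_eq_add.mp h1).symm (two_ne hj c)
    · exact absurd (sub_eq_iff_eq_add.mp h1.symm).symm (two_ne hj c)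
    · rfl
  have : (univ.filter (fun g : Fin (j + 1) → V => Injective g)).filter
      (fun g => cset g = cset f) = univ.image (dih f) := by
    ext g
    simp only [mem_filter, mem_univ, true_and, mem_image]
    constructor
    · rintro ⟨hg, hc⟩
      have h1 : ∀ t, ∃ i, s(f i, f (i + 1)) = s(g t, g (t + 1)) := by
        intro t
        have : cedge g t ∈ cset f := hc ▸ mem_image_of_mem _ (mem_univ t)
        obtain ⟨i, _, hi⟩ := mem_image.mp this
        exact ⟨i, hi⟩
      have h2 : ∀ t, ∃ i, f i = g t := by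
        intro t
        obtain ⟨i, hi⟩ := h1 t
        rcases Sym2.eq_iff.mp hi with h | h
        · exact ⟨i, h.1⟩
        · exact ⟨i + 1, h.2⟩
      choose σ hσ using h2
      have hσi : Injective σ := fun a b h => hg (by rw [← hσ a, ← hσ b, h])
      have h3 : ∀ t, σ (t + 1) = σ t + 1 ∨ σ (t + 1) + 1 = σ t := by
        intro t
        obtain ⟨i, hi⟩ := h1 t
        rw [← hσ t, ← hσ (t + 1)] at hi
        rcases Sym2.eq_iff.mp hi with h | h
        · left; rw [← hf h.1, ← hf h.2]
        · right; rw [← hf h.1, ← hf h.2]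
      rcases h3 0 with h4 | h4
      · have h5 : ∀ t, σ (t + 1) = σ t + 1 := by
          apply fin_ind (P := fun t => σ (t + 1) = σ t + 1) h4
          intro t ht
          rcases h3 (t + 1) with h | h
          · exact h
          · rw [ht, add_left_inj] at h
            exact absurd (hσi h) (two_ne hj t)
        have h6 : ∀ t, σ t = σ 0 + t := by
          apply fin_ind (P := fun t => σ t = σ 0 + t) (by simp)
          intro t ht
          rw [h5, ht, add_assoc]
        refine ⟨(true, σ 0), ?_⟩
        funext t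
        simp only [dih, if_true]
        rw [← h6, hσ]
      · have h5 : ∀ t, σ (t + 1) + 1 = σ t := by
          apply fin_ind (P := fun t => σ (t + 1) + 1 = σ t) h4
          intro t ht
          rcases h3 (t + 1) with h | h
          · rw [ht] at h
            exact absurd (hσi h) (two_ne hj t)
          · exact h
        have h6 : ∀ t, σ t = σ 0 - t := by
          apply fin_ind (P := fun t => σ t = σ 0 - t) (by simp)
          intro t ht
          rw [← sub_sub, ← ht, eq_sub_iff_add_eq, h5]
        refine ⟨(false, σ 0), ?_⟩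
        funext t
        simp only [dih, Bool.false_eq_true, if_false]
        rw [← h6, hσ]
    · rintro ⟨⟨b, c⟩, rfl⟩
      cases b
      · refine ⟨fun a b h => ?_, ?_⟩
        · simpa [dih, hf.eq_iff] using h
        · ext e
          simp only [cset, mem_image, mem_univ, true_and, cedge, dih, Bool.false_eq_true, if_false]
          constructor
          · rintro ⟨t, rfl⟩
            exact ⟨c - (t + 1), by rw [Sym2.eq_swap, ← sub_sub, sub_add_cancel]⟩
          · rintro ⟨t, rfl⟩
            refine ⟨c - (t + 1), ?_⟩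
            rw [Sym2.eq_swap]
            congr 3 <;> abel
      · refine ⟨fun a b h => ?_, ?_⟩
        · simpa [dih, hf.eq_iff] using h
        · ext e
          simp only [cset, mem_image, mem_univ, true_and, cedge, dih, if_true]
          constructor
          · rintro ⟨t, rfl⟩
            exact ⟨c + t, by rw [add_assoc]⟩
          · rintro ⟨t, rfl⟩
            refine ⟨t - c, ?_⟩
            rw [← add_assoc, add_sub_cancel]
  rw [this, card_image_of_injective _ hinj]
  simp

lemma sum_inj {j : ℕ} (hj : 2 ≤ j) (F : Finset (Sym2 V) → ℝ) :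
    ∑ f ∈ univ.filter (fun g : Fin (j + 1) → V => Injective g), F (cset f)
      = 2 * ((j : ℝ) + 1) * ∑ e ∈ Hc V j, F e := by
  rw [sum_comp F cset, mul_sum]
  apply sum_congr rfl
  intro e he
  obtain ⟨f, hf, rfl⟩ := mem_image.mp he
  rw [fiber_card hj (mem_filter.mp hf).2, nsmul_eq_mul]
  push_cast; ring

lemma Lam_Hc {j : ℕ} (hj : 2 ≤ j) (z : Sym2 V → ℝ) :
    2 * ((j : ℝ) + 1) * Lam (Hc V j) z
      = ∑ f ∈ univ.filter (fun g : Fin (j + 1) → V => Injective g), ∏ i, z s(f i, f (i + 1)) := by
  unfold Lam
  rw [← sum_inj hj]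
  exact sum_congr rfl fun f hf => prod_cset hj (mem_filter.mp hf).2 z

lemma card_Hc_le {j : ℕ} (hj : 2 ≤ j) :
    2 * ((j : ℝ) + 1) * (Hc V j).card ≤ (Fintype.card V : ℝ) ^ (j + 1) := by
  have h := sum_inj (V := V) hj (fun _ => 1)
  simp only [sum_const, nsmul_eq_mul, mul_one] at h
  rw [← h]
  have := card_le_univ (univ.filter (fun g : Fin (j + 1) → V => Injective g))
  rw [Fintype.card_fun, Fintype.card_fin] at this
  exact_mod_cast this

lemma shift_card {j : ℕ} (J : Finset (Fin (j + 1))) (h0 : 1 ≤ J.card) (h1 : J.card < j + 1) :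
    J.card + 1 ≤ (J ∪ J.image (fun t => t + 1)).card := by
  by_contra h
  have h2 : J ∪ J.image (fun t => t + 1) = J :=
    (eq_of_subset_of_card_le subset_union_left (by omega)).symm
  have h3 : ∀ t ∈ J, t + 1 ∈ J := fun t ht =>
    h2 ▸ mem_union_right _ (mem_image_of_mem _ ht)
  obtain ⟨c, hc⟩ := card_pos.mp h0
  have h4 : ∀ t, c + t ∈ J := by
    apply fin_ind (P := fun t => c + t ∈ J) (by simpa using hc)
    intro t ht
    rw [← add_assoc]; exact h3 _ ht
  have : J = univ := by
    apply eq_univ_of_forall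
    intro t
    have := h4 (t - c)
    rwa [add_sub_cancel] at this
  rw [this, card_univ, Fintype.card_fin] at h1
  exact lt_irrefl _ h1

lemma deg_Hc_le {j : ℕ} (hj : 2 ≤ j) [Nonempty V] (A : Finset (Sym2 V)) (h0 : 1 ≤ A.card)
    (h1 : A.card < j + 1) :
    (deg (Hc V j) A : ℝ) ≤ (4 * ((j : ℝ) + 1)) ^ (j + 1) * (Fintype.card V : ℝ) ^ (j - A.card) := by
  set VA : Finset V := A.biUnion (fun e => univ.filter (fun x => x ∈ e)) with hVA
  have hVAc : VA.card ≤ 2 * (j + 1) := by
    refine card_biUnion_le.trans ?_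
    calc ∑ e ∈ A, (univ.filter (fun x => x ∈ e)).card ≤ ∑ e ∈ A, 2 := by
          apply sum_le_sum
          intro e _
          induction e using Sym2.ind with
          | h x y =>
            refine le_trans (card_le_card (t := {x, y}) ?_) card_le_two
            intro w hw
            simpa using hw
      _ = A.card * 2 := by simp
      _ ≤ 2 * (j + 1) := by omega
  set n := Fintype.card V with hn
  have hn1 : 1 ≤ n := Fintype.card_pos
  let S : Finset (Fin (j + 1)) → Finset (Fin (j + 1) → V) :=
    fun W => Fintype.piFinset (fun t => if t ∈ W then VA else univ)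
  have hS : ∀ W : Finset (Fin (j + 1)), A.card + 1 ≤ W.card →
      (S W).card ≤ (2 * (j + 1)) ^ (j + 1) * n ^ (j - A.card) := by
    intro W hW
    rw [Fintype.card_piFinset]
    have : ∀ t, (if t ∈ W then VA else univ).card = if t ∈ W then VA.card else n := by
      intro t; split_ifs <;> simp [hn]
    simp only [this]
    rw [prod_ite, prod_const, prod_const]
    have hWc : W.card ≤ j + 1 := by simpa using card_le_univ W
    have e1 : (univ.filter (fun t => t ∈ W)).card = W.card := by simp
    have e2 : (univ.filter (fun t => t ∉ W)).card = j + 1 - W.card := by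
      have := card_filter_add_card_filter_not (s := (univ : Finset (Fin (j + 1)))) (fun t => t ∈ W)
      rw [e1, card_univ, Fintype.card_fin] at this
      omega
    rw [e1, e2]
    apply Nat.mul_le_mul
    · exact (Nat.pow_le_pow_left hVAc _).trans (Nat.pow_le_pow_right (by omega) hWc)
    · exact Nat.pow_le_pow_right hn1 (by omega)
  have hsub : (Hc V j).filter (fun e => A ⊆ e) ⊆
      (((univ : Finset (Finset (Fin (j + 1)))).filter (fun W => A.card + 1 ≤ W.card)).biUnion
        S).image cset := by
    intro e he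
    rw [mem_filter] at he
    obtain ⟨f, hf, rfl⟩ := mem_image.mp he.1
    have hfi := (mem_filter.mp hf).2
    apply mem_image_of_mem
    set J := univ.filter (fun i => cedge f i ∈ A) with hJ
    have hJc : J.card = A.card := by
      rw [← card_image_of_injective J (cedge_inj hj hfi)]
      congr 1
      ext e
      simp only [hJ, mem_image, mem_filter, mem_univ, true_and]
      constructor
      · rintro ⟨i, hi, rfl⟩; exact hi
      · intro h
        obtain ⟨i, _, rfl⟩ := mem_image.mp (he.2 h)
        exact ⟨i, h, rfl⟩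
    rw [mem_biUnion]
    refine ⟨J ∪ J.image (fun t => t + 1), ?_, ?_⟩
    · rw [mem_filter]
      exact ⟨mem_univ _, hJc ▸ shift_card J (hJc ▸ h0) (hJc ▸ h1)⟩
    · rw [Fintype.mem_piFinset]
      intro t
      split_ifs with ht
      · rw [hVA, mem_biUnion]
        rcases mem_union.mp ht with h | h
        · exact ⟨cedge f t, (mem_filter.mp h).2, by simp [cedge]⟩
        · obtain ⟨i, hi, rfl⟩ := mem_image.mp h
          exact ⟨cedge f i, (mem_filter.mp hi).2, by simp [cedge]⟩
      · exact mem_univ _
  have h2 : deg (Hc V j) A ≤ 2 ^ (j + 1) * ((2 * (j + 1)) ^ (j + 1) * n ^ (j - A.card)) := by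
    unfold deg
    refine (card_le_card hsub).trans (card_image_le.trans (card_biUnion_le.trans ?_))
    refine (sum_le_sum fun W hW => hS W (mem_filter.mp hW).2).trans ?_
    rw [sum_const, smul_eq_mul]
    apply Nat.mul_le_mul_right
    refine (card_le_univ _).trans (le_of_eq ?_)
    simp
  have h3 : (deg (Hc V j) A : ℝ)
      ≤ 2 ^ (j + 1) * ((2 * ((j : ℝ) + 1)) ^ (j + 1) * (n : ℝ) ^ (j - A.card)) := by
    exact_mod_cast h2
  refine h3.trans (le_of_eq ?_)
  rw [← mul_assoc, ← mul_pow]
  congr 2
  ring

lemma free_iff {j : ℕ} (hj : 2 ≤ j) (G : SimpleGraph V) [DecidableRel G.Adj] :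
    (SimpleGraph.cycleGraph (j + 1)).Free G ↔ Ind (Hc V j) G.edgeFinset := by
  obtain ⟨j, rfl⟩ := Nat.exists_eq_add_of_le' hj
  constructor
  · intro h e he hsub
    obtain ⟨f, hf, rfl⟩ := mem_image.mp he
    have hfi := (mem_filter.mp hf).2
    have hadj : ∀ i, G.Adj (f i) (f (i + 1)) := by
      intro i
      have : cedge f i ∈ G.edgeFinset := hsub (mem_image_of_mem _ (mem_univ i))
      simpa [cedge] using this
    apply h
    refine ⟨⟨⟨f, ?_⟩, hfi⟩⟩
    intro a b hab
    rcases SimpleGraph.cycleGraph_adj.mp hab with h1 | h1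
    · rw [sub_eq_iff_eq_add'.mp h1]; exact (hadj b).symm
    · rw [sub_eq_iff_eq_add'.mp h1]; exact hadj a
  · rintro h ⟨φ⟩
    apply h (cset φ) (mem_image_of_mem _ (mem_filter.mpr ⟨mem_univ _, φ.injective⟩))
    intro e he
    obtain ⟨i, _, rfl⟩ := mem_image.mp he
    have : (SimpleGraph.cycleGraph (j + 2 + 1)).Adj i (i + 1) :=
      SimpleGraph.cycleGraph_adj.mpr (Or.inr (add_sub_cancel_left i 1))
    simpa [cedge] using φ.toHom.map_rel this

end Pool.Agent.P.MP_4376e9_pr
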