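import Pool.Agent.P.MP_4376e9_pr.Basic

/-!
One-step inequalities for the lower bound on the partition function.
-/

set_option linter.unusedSectionVars false
set_option linter.unusedVariables false

namespace Pool.Agent.P.MP_4376e9_pr
open Finset

variable {α : Type*} [DecidableEq α]

/-- `u` and `v` cannot both be added to `I`. -/
def adj (H : Finset (Finset α)) (I : Finset α) (u v : α) : Prop :=
  ¬ Ind H (insert v (insert u I))

instance (H : Finset (Finset α)) (I : Finset α) (u v : α) : Decidable (adj H I u v) := by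
  unfold adj; infer_instance

lemma adj_edge {H : Finset (Finset α)} {I : Finset α} {u v : α} (h : adj H I u v)
    (hu : Ind H (insert u I)) (hv : Ind H (insert v I)) :
    ∃ e ∈ H, u ∈ e ∧ v ∈ e ∧ e ⊆ insert v (insert u I) := by
  unfold adj Ind at h
  push Not at h
  obtain ⟨e, he, hsub⟩ := h
  refine ⟨e, he, ?_, ?_, hsub⟩
  · by_contra h
    apply hv e he
    intro x hx
    have := hsub hx
    simp only [mem_insert] at this ⊢
    rcases this with h1 | h1 | h1
    · exact Or.inl h1
    · exact absurd (h1 ▸ hx) h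
    · exact Or.inr h1
  · by_contra h
    apply hu e he
    intro x hx
    have := hsub hx
    rw [mem_insert] at this
    rcases this with h1 | h1
    · exact absurd (h1 ▸ hx) h
    · exact h1

/-- Killing probability. -/
noncomputable def hh (H : Finset (Finset α)) (U I : Finset α) (z : α → ℝ) (v : α) : ℝ :=
  (∑ u ∈ U.erase v, if adj H I u v then z u else 0) / ((U.card : ℝ) - 1)

/-- Compensated and capped weight. -/
noncomputable def ss (H : Finset (Finset α)) (p : ℝ) (U I : Finset α) (z : α → ℝ) (v : α) : ℝ :=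
  min (z v / (1 - hh H U I z v)) p

/-- Weight after including `u`. -/
noncomputable def sp (H : Finset (Finset α)) (p : ℝ) (U I : Finset α) (z : α → ℝ) (u v : α) : ℝ :=
  if adj H I u v then 0 else ss H p U I z v

lemma hh_mul (H : Finset (Finset α)) {U : Finset α} (I : Finset α) (z : α → ℝ) {v : α}
    (hv : v ∈ U) : ((U.card : ℝ) - 1) * hh H U I z v
      = ∑ u ∈ U.erase v, if adj H I u v then z u else 0 := by
  unfold hh
  by_cases h : (U.card : ℝ) - 1 = 0
  · have h1 : U.card = 1 := by
      have : (U.card : ℝ) = 1 := by linarith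
      exact_mod_cast this
    have : U.erase v = ∅ := by
      rw [← card_eq_zero, card_erase_of_mem hv, h1]
    rw [this]; simp
  · field_simp

lemma hh_bounds (H : Finset (Finset α)) {p : ℝ} (hp : 0 ≤ p) {U : Finset α} (I : Finset α)
    {z : α → ℝ} (hz0 : ∀ v ∈ U, 0 ≤ z v) (hz1 : ∀ v ∈ U, z v ≤ p) {v : α} (hv : v ∈ U) :
    0 ≤ hh H U I z v ∧ hh H U I z v ≤ p := by
  have hc : (1 : ℝ) ≤ U.card := by exact_mod_cast card_pos.mpr ⟨v, hv⟩
  have h0 : 0 ≤ ∑ u ∈ U.erase v, if adj H I u v then z u else 0 := by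
    apply sum_nonneg
    intro u hu
    split_ifs
    · exact hz0 u (mem_of_mem_erase hu)
    · exact le_rfl
  have h1 : (∑ u ∈ U.erase v, if adj H I u v then z u else 0) ≤ p * ((U.card : ℝ) - 1) := by
    calc (∑ u ∈ U.erase v, if adj H I u v then z u else 0) ≤ ∑ u ∈ U.erase v, p := by
          apply sum_le_sum
          intro u hu
          split_ifs
          · exact hz1 u (mem_of_mem_erase hu)
          · exact hp
      _ = p * ((U.card : ℝ) - 1) := by
          rw [sum_const, card_erase_of_mem hv, nsmul_eq_mul, Nat.cast_sub (card_pos.mpr ⟨v, hv⟩)]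
          simp [mul_comm]
  unfold hh
  refine ⟨div_nonneg h0 (by linarith), ?_⟩
  rcases (sub_nonneg.mpr hc).eq_or_lt with h | h
  · rw [← h, div_zero]; exact hp
  · rw [div_le_iff₀ h]; exact h1

lemma ent_scalar {p z h : ℝ} (hp0 : 0 < p) (hp1 : p < 1) (hz : 0 ≤ z) (hh0 : 0 ≤ h) (hh1 : h ≤ p) :
    h * p + (1 - h) * kap p (min (z / (1 - h)) p) ≤ kap p z + z * h / (1 - p) := by
  have h1 : 0 < 1 - h := by linarith
  have h2 : 0 < 1 - p := by linarith
  have a1 : kap p (min (z / (1 - h)) p) ≤ kap p (z / (1 - h)) := by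
    rcases le_total (z / (1 - h)) p with h3 | h3
    · rw [min_eq_left h3]
    · rw [min_eq_right h3, kap_self hp0]; exact kap_nonneg hp0 (div_nonneg hz h1.le)
  have a2 : h * p + (1 - h) * kap p (z / (1 - h)) = kap p z - z * Real.log (1 - h) := by
    rcases hz.eq_or_lt with rfl | hz
    · simp [kap]; ring
    unfold kap
    rw [Real.log_div (by positivity) hp0.ne', Real.log_div hz.ne' h1.ne',
      Real.log_div hz.ne' hp0.ne']
    field_simp
    ring
  have a3 : - Real.log (1 - h) ≤ h / (1 - p) := by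
    have := Real.one_sub_inv_le_log_of_pos h1
    have e : (1 - h)⁻¹ - 1 = h / (1 - h) := by field_simp; ring
    have : h / (1 - h) ≤ h / (1 - p) := div_le_div_of_nonneg_left hh0 h2 (by linarith)
    linarith
  have a4 := mul_le_mul_of_nonneg_left a3 hz
  have a5 := mul_le_mul_of_nonneg_left a1 h1.le
  have e : z * (h / (1 - p)) = z * h / (1 - p) := by ring
  linarith

lemma sum_erase_comm (U : Finset α) (f : α → α → ℝ) :
    ∑ u ∈ U, ∑ v ∈ U.erase u, f u v = ∑ v ∈ U, ∑ u ∈ U.erase v, f u v := by
  apply sum_comm'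
  intro x y
  simp only [mem_erase]
  constructor
  · rintro ⟨h1, h2, h3⟩; exact ⟨⟨h2.symm, h1⟩, h3⟩
  · rintro ⟨⟨h1, h2⟩, h3⟩; exact ⟨h2, h1.symm, h3⟩

lemma ent_sum (H : Finset (Finset α)) {p : ℝ} (hp0 : 0 < p) (hp1 : p < 1) (U I : Finset α)
    {z : α → ℝ} (hz0 : ∀ v ∈ U, 0 ≤ z v) (hz1 : ∀ v ∈ U, z v ≤ p) :
    ∑ u ∈ U, (z u * ∑ v ∈ U.erase u, kap p (sp H p U I z u v)
        + (1 - z u) * ∑ v ∈ U.erase u, kap p (ss H p U I z v))
      ≤ ((U.card : ℝ) - 1) * ∑ v ∈ U, kap p (z v)
        + (1 - p)⁻¹ * ∑ v ∈ U, ∑ u ∈ U.erase v, if adj H I u v then z u * z v else 0 := by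
  simp only [mul_sum, ← sum_add_distrib]
  rw [sum_erase_comm]
  apply sum_le_sum
  intro v hv
  obtain ⟨b0, b1⟩ := hh_bounds H hp0.le I hz0 hz1 hv
  have hm := hh_mul H I z hv
  have hc : (1 : ℝ) ≤ U.card := by exact_mod_cast card_pos.mpr ⟨v, hv⟩
  have e1 : ∑ u ∈ U.erase v, (z u * kap p (sp H p U I z u v) + (1 - z u) * kap p (ss H p U I z v))
      = ((U.card : ℝ) - 1) * (hh H U I z v * p + (1 - hh H U I z v) * kap p (ss H p U I z v)) := by
    have : ∀ u ∈ U.erase v, z u * kap p (sp H p U I z u v) + (1 - z u) * kap p (ss H p U I z v)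
        = kap p (ss H p U I z v)
          + (if adj H I u v then z u else 0) * (p - kap p (ss H p U I z v)) := by
      intro u _
      unfold sp
      split_ifs
      · rw [kap_zero]; ring
      · ring
    rw [sum_congr rfl this, sum_add_distrib, ← sum_mul, ← hm, sum_const, card_erase_of_mem hv,
      nsmul_eq_mul, Nat.cast_sub (card_pos.mpr ⟨v, hv⟩)]
    push_cast
    ring
  have e2 : ∑ u ∈ U.erase v, (1 - p)⁻¹ * (if adj H I u v then z u * z v else 0)
      = ((U.card : ℝ) - 1) * (z v * hh H U I z v / (1 - p)) := by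
    have : ∀ u ∈ U.erase v, (1 - p)⁻¹ * (if adj H I u v then z u * z v else 0)
        = (if adj H I u v then z u else 0) * (z v / (1 - p)) := by
      intro u _
      split_ifs
      · ring
      · ring
    rw [sum_congr rfl this, ← sum_mul, ← hm]
    ring
  rw [e1, e2, ← mul_add]
  apply mul_le_mul_of_nonneg_left _ (by linarith)
  exact ent_scalar hp0 hp1 (hz0 v hv) b0 b1

lemma prod_ext {U I e : Finset α} (h : ∀ v ∈ e, v ∉ U → v ∈ I) (f : α → ℝ) :
    ∏ v ∈ e, ext U I f v = ∏ v ∈ U ∩ e, f v := by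
  rw [← prod_inter_mul_prod_sdiff e U, inter_comm e U]
  have : ∏ v ∈ e \ U, ext U I f v = 1 := by
    apply prod_eq_one
    intro v hv
    rw [mem_sdiff] at hv
    simp [ext, hv.2, h v hv.1 hv.2]
  rw [this, mul_one]
  apply prod_congr rfl
  intro v hv
  simp [ext, (mem_inter.mp hv).1]

lemma adj_sum_le (H : Finset (Finset α)) {U I : Finset α} (hd : Disjoint U I)
    {z : α → ℝ} (hz0 : ∀ v ∈ U, 0 ≤ z v) (hzb : ∀ v ∈ U, ¬ Ind H (insert v I) → z v = 0) :
    (∑ v ∈ U, ∑ u ∈ U.erase v, if adj H I u v then z u * z v else 0)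
      ≤ ∑ e ∈ H, (if (U ∩ e).card = 2 then 2 else 0) * ∏ w ∈ e, ext U I z w := by
  have hP : ∀ e : Finset α, 0 ≤ ∏ w ∈ e, ext U I z w :=
    fun e => prod_nonneg fun w _ => ext_nonneg hz0 w
  calc (∑ v ∈ U, ∑ u ∈ U.erase v, if adj H I u v then z u * z v else 0)
      ≤ ∑ v ∈ U, ∑ u ∈ U.erase v, ∑ e ∈ H,
          if U ∩ e = {u, v} then ∏ w ∈ e, ext U I z w else 0 := by
        apply sum_le_sum; intro v hv
        apply sum_le_sum; intro u hu
        have huU := mem_of_mem_erase hu
        have huv := ne_of_mem_erase hu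
        have hnn : ∀ e ∈ H, 0 ≤ if U ∩ e = {u, v} then ∏ w ∈ e, ext U I z w else 0 := by
          intro e _; split_ifs
          · exact hP e
          · exact le_rfl
        split_ifs with h
        · by_cases h1 : Ind H (insert u I)
          · by_cases h2 : Ind H (insert v I)
            · obtain ⟨e, he, hue, hve, hsub⟩ := adj_edge h h1 h2
              refine le_trans (le_of_eq ?_) (single_le_sum hnn he)
              have hA : U ∩ e = {u, v} := by
                ext x
                simp only [mem_inter, mem_insert, mem_singleton]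
                constructor
                · rintro ⟨hx1, hx2⟩
                  have := hsub hx2
                  simp only [mem_insert] at this
                  rcases this with h3 | h3 | h3
                  · exact Or.inr h3
                  · exact Or.inl h3
                  · exact absurd h3 (disjoint_left.mp hd hx1)
                · rintro (rfl | rfl)
                  · exact ⟨huU, hue⟩
                  · exact ⟨hv, hve⟩
              rw [if_pos hA, prod_ext, hA, prod_pair huv]
              intro x hx hxU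
              have := hsub hx
              simp only [mem_insert] at this
              rcases this with h3 | h3 | h3
              · exact absurd (h3 ▸ hv) hxU
              · exact absurd (h3 ▸ huU) hxU
              · exact h3
            · rw [hzb v hv h2, mul_zero]; exact sum_nonneg hnn
          · rw [hzb u huU h1, zero_mul]; exact sum_nonneg hnn
        · exact sum_nonneg hnn
    _ = ∑ e ∈ H, ∑ v ∈ U, ∑ u ∈ U.erase v,
          if U ∩ e = {u, v} then ∏ w ∈ e, ext U I z w else 0 := by
        rw [sum_congr rfl fun v _ => sum_comm, sum_comm]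
    _ ≤ _ := by
        apply sum_le_sum
        intro e _
        by_cases hc : (U ∩ e).card = 2
        · rw [if_pos hc]
          calc (∑ v ∈ U, ∑ u ∈ U.erase v, if U ∩ e = {u, v} then ∏ w ∈ e, ext U I z w else 0)
              ≤ ∑ v ∈ U, ∑ u ∈ U.erase v,
                  if v ∈ U ∩ e ∧ u ∈ (U ∩ e).erase v then ∏ w ∈ e, ext U I z w else 0 := by
                apply sum_le_sum; intro v hv
                apply sum_le_sum; intro u hu
                by_cases h : U ∩ e = {u, v}
                · rw [if_pos h, if_pos]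
                  rw [h]
                  simp [ne_of_mem_erase hu]
                · rw [if_neg h]; split_ifs
                  · exact hP e
                  · exact le_rfl
            _ = ∑ v ∈ U ∩ e, ∑ u ∈ (U ∩ e).erase v, ∏ w ∈ e, ext U I z w := by
                simp only [ite_and, sum_ite_irrel, sum_const_zero, sum_ite_mem]
                rw [inter_eq_right.mpr inter_subset_left]
                apply sum_congr rfl
                intro v _
                rw [inter_eq_right.mpr (erase_subset_erase v inter_subset_left)]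
            _ = 2 * ∏ w ∈ e, ext U I z w := by
                rw [sum_congr rfl fun v hv => by
                  rw [sum_const, card_erase_of_mem hv, hc]]
                rw [sum_const, hc]
                simp
        · rw [if_neg hc, zero_mul]
          apply le_of_eq
          apply sum_eq_zero; intro v _
          apply sum_eq_zero; intro u hu
          rw [if_neg]
          intro h
          apply hc
          rw [h, card_pair (ne_of_mem_erase hu)]

lemma one_sub_sum_le_prod (s : Finset α) {h : α → ℝ} (h0 : ∀ v ∈ s, 0 ≤ h v)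
    (h1 : ∀ v ∈ s, h v ≤ 1) : 1 - ∑ v ∈ s, h v ≤ ∏ v ∈ s, (1 - h v) := by
  induction s using Finset.induction_on with
  | empty => simp
  | insert x s hx ih =>
    rw [sum_insert hx, prod_insert hx]
    have ih' := ih (fun v hv => h0 v (mem_insert_of_mem hv)) (fun v hv => h1 v (mem_insert_of_mem hv))
    have a0 := h0 x (mem_insert_self x s)
    have a1 := h1 x (mem_insert_self x s)
    have a2 : 0 ≤ ∑ v ∈ s, h v := sum_nonneg fun v hv => h0 v (mem_insert_of_mem hv)
    nlinarith [mul_le_mul_of_nonneg_left ih' (sub_nonneg.mpr a1)]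

/-- Weight of common killers of two vertices of an edge. -/
noncomputable def CC (H : Finset (Finset α)) (U I : Finset α) (z : α → ℝ) (e : Finset α) : ℝ :=
  ∑ u ∈ U \ e, ∑ v ∈ U ∩ e, ∑ w ∈ (U ∩ e).erase v,
    if adj H I u v ∧ adj H I u w then z u else 0

lemma bonf (A : Finset α) (P : α → Prop) [DecidablePred P] {c : ℝ} (hc : 0 ≤ c) :
    (∑ v ∈ A, if P v then c else 0)
      ≤ c + ∑ v ∈ A, ∑ w ∈ A.erase v, if P v ∧ P w then c else 0 := by
  set N : ℝ := ∑ v ∈ A, if P v then 1 else 0 with hN
  have e1 : (∑ v ∈ A, if P v then c else 0) = c * N := by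
    rw [hN, mul_sum]; apply sum_congr rfl; intro v _; split_ifs <;> simp
  have e2 : (∑ v ∈ A, ∑ w ∈ A.erase v, if P v ∧ P w then c else 0) = c * (N ^ 2 - N) := by
    have : ∀ v ∈ A, (∑ w ∈ A.erase v, if P v ∧ P w then c else 0)
        = c * ((if P v then 1 else 0) * N - (if P v then 1 else 0)) := by
      intro v hv
      by_cases h : P v
      · simp only [h, true_and, if_true, one_mul]
        rw [hN, ← add_sum_erase A _ hv, if_pos h, add_sub_cancel_left, mul_sum]
        apply sum_congr rfl; intro w _; split_ifs <;> simp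
      · simp [h]
    rw [sum_congr rfl this, ← mul_sum, sum_sub_distrib, ← sum_mul, ← hN]
    ring
  rw [e1, e2]
  nlinarith [mul_nonneg hc (sq_nonneg (N - 1))]

lemma energy_edge (H : Finset (Finset α)) {p : ℝ} (hp0 : 0 < p) {r : ℕ} (hrp : r * p ≤ 1 / 2)
    (hr1 : 1 ≤ r) {U I : Finset α} (hd : Disjoint U I)
    {z : α → ℝ} (hz0 : ∀ v ∈ U, 0 ≤ z v) (hz1 : ∀ v ∈ U, z v ≤ p)
    {e : Finset α} (he : e ∈ H) (her : e.card ≤ r) :
    ∑ u ∈ U, (z u * ∏ v ∈ e, ext (U.erase u) (insert u I) (sp H p U I z u) v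
        + (1 - z u) * ∏ v ∈ e, ext (U.erase u) I (ss H p U I z) v)
      ≤ (∏ v ∈ e, ext U I z v) * ((U.card : ℝ) + 4 * (r : ℝ) ^ 2 * p
          - (if (U ∩ e).card = 2 then 2 else 0) + 2 * CC H U I z e) := by
  have hr1' : (1 : ℝ) ≤ r := by exact_mod_cast hr1
  have hp1 : p ≤ 1 / 2 := by nlinarith
  by_cases hI : ∀ v ∈ e, v ∉ U → v ∈ I
  swap
  · push Not at hI
    obtain ⟨w, hwe, hwU, hwI⟩ := hI
    have h0 : ∏ v ∈ e, ext U I z v = 0 := prod_eq_zero hwe (by simp [ext, hwU, hwI])
    rw [h0, zero_mul]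
    apply le_of_eq
    apply sum_eq_zero
    intro u hu
    have hwu : w ≠ u := fun h => hwU (h ▸ hu)
    rw [prod_eq_zero hwe (by simp [ext, hwU, hwI, hwu]), prod_eq_zero hwe (by simp [ext, hwU, hwI])]
    simp
  set A := U ∩ e with hA
  have hAU : A ⊆ U := inter_subset_left
  have hAr : (A.card : ℝ) ≤ r := by
    exact_mod_cast (card_le_card inter_subset_right).trans her
  set h := hh H U I z with hh_def
  set s := ss H p U I z with hs_def
  have hb : ∀ v ∈ U, 0 ≤ h v ∧ h v ≤ p := fun v hv => hh_bounds H hp0.le I hz0 hz1 hv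
  have hs0 : ∀ v ∈ U, 0 ≤ s v := fun v hv =>
    le_min (div_nonneg (hz0 v hv) (by linarith [(hb v hv).2])) hp0.le
  have hs1 : ∀ v ∈ U, s v * (1 - h v) ≤ z v := by
    intro v hv
    have : 0 < 1 - h v := by linarith [(hb v hv).2]
    rw [← le_div_iff₀ this]
    exact min_le_left _ _
  have hsp0 : ∀ u, ∀ v ∈ U, 0 ≤ sp H p U I z u v := by
    intro u v hv; unfold sp; split_ifs
    · exact le_rfl
    · exact hs0 v hv
  have hsp1 : ∀ u, ∀ v ∈ U, sp H p U I z u v ≤ s v := by
    intro u v hv; unfold sp; split_ifs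
    · exact hs0 v hv
    · exact le_rfl
  set Hs := ∑ v ∈ A, h v with hHs
  have hHs0 : 0 ≤ Hs := sum_nonneg fun v hv => (hb v (hAU hv)).1
  have hHs1 : Hs ≤ r * p := by
    calc Hs ≤ ∑ v ∈ A, p := sum_le_sum fun v hv => (hb v (hAU hv)).2
      _ = A.card * p := by simp
      _ ≤ r * p := mul_le_mul_of_nonneg_right hAr hp0.le
  have h1Hs : 0 < 1 - Hs := by linarith
  set P := ∏ v ∈ A, z v with hP
  have hP0 : 0 ≤ P := prod_nonneg fun v hv => hz0 v (hAU hv)
  set Q := P / (1 - Hs) with hQ
  have hQP : Q * (1 - Hs) = P := by rw [hQ]; field_simp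
  have hQ0 : 0 ≤ Q := div_nonneg hP0 h1Hs.le
  have hB : ∀ B ⊆ A, (∏ v ∈ B, s v) * (1 - Hs) ≤ ∏ v ∈ B, z v := by
    intro B hBA
    have b1 : 1 - Hs ≤ ∏ v ∈ B, (1 - h v) := by
      refine le_trans ?_ (one_sub_sum_le_prod B (fun v hv => (hb v (hAU (hBA hv))).1)
        (fun v hv => by linarith [(hb v (hAU (hBA hv))).2]))
      have := sum_le_sum_of_subset_of_nonneg (f := h) hBA fun v hv _ => (hb v (hAU hv)).1
      linarith
    calc (∏ v ∈ B, s v) * (1 - Hs) ≤ (∏ v ∈ B, s v) * ∏ v ∈ B, (1 - h v) :=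
          mul_le_mul_of_nonneg_left b1 (prod_nonneg fun v hv => hs0 v (hAU (hBA hv)))
      _ = ∏ v ∈ B, s v * (1 - h v) := by rw [prod_mul_distrib]
      _ ≤ _ := prod_le_prod (fun v hv => mul_nonneg (hs0 v (hAU (hBA hv)))
            (by linarith [(hb v (hAU (hBA hv))).2])) fun v hv => hs1 v (hAU (hBA hv))
  have hQ1 : ∏ v ∈ A, s v ≤ Q := by
    rw [hQ, le_div_iff₀ h1Hs]; exact hB A Subset.rfl
  have hQ2 : ∀ a ∈ A, z a * ∏ v ∈ A.erase a, s v ≤ Q := by
    intro a ha
    rw [hQ, le_div_iff₀ h1Hs, hP, ← mul_prod_erase A _ ha, mul_assoc]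
    exact mul_le_mul_of_nonneg_left (hB _ (erase_subset a A)) (hz0 a (hAU ha))
  -- vertices outside the edge
  have hout : ∀ u ∈ U \ e, z u * ∏ v ∈ e, ext (U.erase u) (insert u I) (sp H p U I z u) v
        + (1 - z u) * ∏ v ∈ e, ext (U.erase u) I s v
      ≤ Q * (1 - (∑ v ∈ A, if adj H I u v then z u else 0)
          + ∑ v ∈ A, ∑ w ∈ A.erase v, if adj H I u v ∧ adj H I u w then z u else 0) := by
    intro u hu
    rw [mem_sdiff] at hu
    have hin : U.erase u ∩ e = A := by
      ext x; simp only [hA, mem_inter, mem_erase]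
      constructor
      · rintro ⟨⟨_, h2⟩, h3⟩; exact ⟨h2, h3⟩
      · rintro ⟨h2, h3⟩; exact ⟨⟨ne_of_mem_of_not_mem h3 hu.2, h2⟩, h3⟩
    have hI' : ∀ v ∈ e, v ∉ U.erase u → v ∈ I := by
      intro v hv hvU
      apply hI v hv
      intro h'
      exact hvU (mem_erase.mpr ⟨ne_of_mem_of_not_mem hv hu.2, h'⟩)
    rw [prod_ext (fun v hv h' => mem_insert_of_mem (hI' v hv h')), prod_ext hI', hin]
    have hzu0 := hz0 u hu.1
    have hzu1 : z u ≤ 1 := by linarith [hz1 u hu.1]
    by_cases hex : ∃ v ∈ A, adj H I u v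
    · obtain ⟨v, hv, hadj⟩ := hex
      rw [prod_eq_zero hv (by simp [sp, hadj]), mul_zero, zero_add]
      have := bonf A (fun v => adj H I u v) hzu0
      calc (1 - z u) * ∏ v ∈ A, s v ≤ (1 - z u) * Q :=
            mul_le_mul_of_nonneg_left hQ1 (by linarith)
        _ = Q * (1 - z u) := mul_comm _ _
        _ ≤ _ := mul_le_mul_of_nonneg_left (by linarith) hQ0
    · push Not at hex
      have e1 : ∏ v ∈ A, sp H p U I z u v = ∏ v ∈ A, s v :=
        prod_congr rfl fun v hv => by simp [sp, hex v hv, hs_def]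
      have e2 : (∑ v ∈ A, if adj H I u v then z u else 0) = 0 :=
        sum_eq_zero fun v hv => if_neg (hex v hv)
      have e3 : (∑ v ∈ A, ∑ w ∈ A.erase v, if adj H I u v ∧ adj H I u w then z u else 0) = 0 :=
        sum_eq_zero fun v hv => sum_eq_zero fun w _ => if_neg (fun h => hex v hv h.1)
      rw [e1, e2, e3]
      linarith
  -- vertices inside the edge
  have hin : ∀ a ∈ A, z a * ∏ v ∈ e, ext (U.erase a) (insert a I) (sp H p U I z a) v
        + (1 - z a) * ∏ v ∈ e, ext (U.erase a) I s v
      ≤ Q * (if A.card = 2 then 0 else 1) := by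
    intro a ha
    have haU := (mem_inter.mp ha).1
    have hae := (mem_inter.mp ha).2
    have hin : U.erase a ∩ e = A.erase a := by
      ext x; simp only [hA, mem_inter, mem_erase]; tauto
    have hI' : ∀ v ∈ e, v ∉ U.erase a → v ∈ insert a I := by
      intro v hv hvU
      by_cases h' : v = a
      · rw [h']; exact mem_insert_self a I
      · exact mem_insert_of_mem (hI v hv fun h'' => hvU (mem_erase.mpr ⟨h', h''⟩))
    rw [prod_ext hI', hin, prod_eq_zero hae (by simp [ext, disjoint_left.mp hd haU]), mul_zero,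
      add_zero]
    split_ifs with hc
    · have : (A.erase a).card = 1 := by rw [card_erase_of_mem ha, hc]
      obtain ⟨v, hv⟩ := card_eq_one.mp this
      have hadj : adj H I a v := by
        intro hind
        apply hind e he
        intro x hx
        by_cases hxU : x ∈ U.erase a
        · have : x ∈ A.erase a := hin ▸ mem_inter.mpr ⟨hxU, hx⟩
          rw [hv, mem_singleton] at this
          rw [this]; exact mem_insert_self _ _
        · exact mem_insert_of_mem (hI' x hx hxU)
      rw [hv, prod_singleton]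
      simp [sp, hadj]
    · rw [mul_one]
      refine le_trans ?_ (hQ2 a ha)
      apply mul_le_mul_of_nonneg_left _ (hz0 a haU)
      exact prod_le_prod (fun v hv => hsp0 a v (hAU (mem_of_mem_erase hv)))
        (fun v hv => hsp1 a v (hAU (mem_of_mem_erase hv)))
  rw [← sum_inter_add_sum_sdiff U e, prod_ext hI]
  have s1 := (sum_le_sum hout).trans (le_of_eq (by
    rw [← mul_sum, sum_add_distrib, sum_sub_distrib, sum_const, nsmul_eq_mul, mul_one]))
  have s2 := (sum_le_sum hin).trans (le_of_eq (by
    rw [← mul_sum, sum_const, nsmul_eq_mul]))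
  rw [← hA, ← hP]
  have hcard : ((U \ e).card : ℝ) + A.card = U.card := by
    exact_mod_cast card_sdiff_add_card_inter U e
  have hN : ((U.card : ℝ) - 1) * Hs - (r : ℝ) ^ 2 * p
      ≤ ∑ u ∈ U \ e, ∑ v ∈ A, if adj H I u v then z u else 0 := by
    rw [sum_comm, hHs, mul_sum]
    have : ∀ v ∈ A, ((U.card : ℝ) - 1) * h v - r * p
        ≤ ∑ u ∈ U \ e, if adj H I u v then z u else 0 := by
      intro v hv
      rw [hh_def, hh_mul H I z (hAU hv)]
      have c0 : ∀ u ∈ U, 0 ≤ if adj H I u v then z u else 0 := by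
        intro u hu; split_ifs
        · exact hz0 u hu
        · exact le_rfl
      have c1 : (∑ u ∈ U.erase v, if adj H I u v then z u else 0)
          ≤ ∑ u ∈ U, if adj H I u v then z u else 0 :=
        sum_le_sum_of_subset_of_nonneg (erase_subset v U) fun u hu _ => c0 u hu
      have c2 : (∑ u ∈ U ∩ e, if adj H I u v then z u else 0) ≤ r * p := by
        calc (∑ u ∈ U ∩ e, if adj H I u v then z u else 0) ≤ ∑ u ∈ A, p := by
              apply sum_le_sum; intro u hu; split_ifs
              · exact hz1 u (hAU hu)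
              · exact hp0.le
          _ = A.card * p := by simp
          _ ≤ r * p := mul_le_mul_of_nonneg_right hAr hp0.le
      rw [← sum_inter_add_sum_sdiff U e] at c1
      linarith
    have c3 := sum_le_sum this
    rw [sum_sub_distrib, sum_const, nsmul_eq_mul] at c3
    have : (A.card : ℝ) * (r * p) ≤ (r : ℝ) ^ 2 * p := by
      have := mul_le_mul_of_nonneg_right hAr (show 0 ≤ (r : ℝ) * p by positivity)
      nlinarith
    linarith
  have hC : CC H U I z e = ∑ u ∈ U \ e, ∑ v ∈ A, ∑ w ∈ A.erase v,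
      if adj H I u v ∧ adj H I u w then z u else 0 := rfl
  rw [← hC] at s1
  have hC0 : 0 ≤ CC H U I z e := by
    rw [hC]
    apply sum_nonneg; intro u hu
    apply sum_nonneg; intro v _
    apply sum_nonneg; intro w _
    split_ifs
    · exact hz0 u (mem_sdiff.mp hu).1
    · exact le_rfl
  set C := CC H U I z e
  set N := ∑ u ∈ U \ e, ∑ v ∈ A, if adj H I u v then z u else 0
  have hd2 : (A.card : ℝ) * (if A.card = 2 then 0 else 1)
      = A.card - (if A.card = 2 then 2 else 0) := by
    split_ifs with hc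
    · rw [hc]; norm_num
    · ring
  rw [hd2] at s2
  have hd0 : (0 : ℝ) ≤ (if A.card = 2 then 2 else 0) := by split_ifs <;> norm_num
  set d : ℝ := (if A.card = 2 then 2 else 0)
  have hPQ : P ≤ Q := by nlinarith
  have hQP2 : Q ≤ 2 * P := by nlinarith
  have hrr : Hs ≤ (r : ℝ) ^ 2 * p := by
    have : (r : ℝ) * p ≤ (r : ℝ) ^ 2 * p := by
      apply mul_le_mul_of_nonneg_right _ hp0.le; nlinarith
    linarith
  have f1 : Q * (((U \ e).card : ℝ) - N + C) + Q * (A.card - d)
      ≤ Q * ((U.card : ℝ) * (1 - Hs) + (Hs + (r : ℝ) ^ 2 * p + C) - d) := by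
    rw [← mul_add]
    apply mul_le_mul_of_nonneg_left _ hQ0
    nlinarith
  have f2 : Q * (Hs + (r : ℝ) ^ 2 * p + C) ≤ 2 * P * (2 * (r : ℝ) ^ 2 * p + C) :=
    mul_le_mul hQP2 (by linarith) (by positivity) (by positivity)
  have f3 : P * d ≤ Q * d := mul_le_mul_of_nonneg_right hPQ hd0
  have f4 : Q * ((U.card : ℝ) * (1 - Hs)) = P * U.card := by rw [← hQP]; ring
  nlinarith

end Pool.Agent.P.MP_4376e9_pr
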