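import Pool.Agent.P.MP_4376e9_pr.Upper1
import Pool.Agent.P.MP_4376e9_pr.Lower1

/-!
Degenerate closed walks: second-order contribution.
-/

set_option linter.unusedSectionVars false
set_option linter.unusedVariables false

namespace Pool.Agent.P.MP_4376e9_pr
open Finset Function

section elim
variable {ι V : Type*} [Fintype ι] [DecidableEq ι] [Fintype V] [DecidableEq V]

lemma sum_update (t : ι) (F : (ι → V) → ℝ) :
    ∑ f : ι → V, ∑ w, F (update f t w) = Fintype.card V * ∑ f, F f := by
  let σ : (ι → V) × V → (ι → V) × V := fun x => (update x.1 t x.2, x.1 t)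
  have hσ : Involutive σ := by
    rintro ⟨f, w⟩
    simp [σ]
  rw [← Fintype.sum_prod_type' (fun f w => F (update f t w))]
  rw [Fintype.sum_equiv hσ.toPerm (fun x => F (update x.1 t x.2)) (fun x => F x.1)
    (fun x => rfl), Fintype.sum_prod_type]
  simp only [sum_const, card_univ, nsmul_eq_mul, mul_sum]

lemma elim_le [Nonempty V] (ρ : ι → ℕ) (φ : ι → (ι → V) → ℝ) (D : ι → ℝ)
    (h0 : ∀ t f, 0 ≤ φ t f) (hD0 : ∀ t, 0 ≤ D t)
    (hdep : ∀ t s, s ≠ t → ρ t ≤ ρ s → ∀ f w, φ t (update f s w) = φ t f)
    (hsum : ∀ t f, ∑ w, φ t (update f t w) ≤ D t) :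
    ∑ f : ι → V, ∏ t, φ t f ≤ ∏ t, D t := by
  have hV : (0 : ℝ) < Fintype.card V := by exact_mod_cast Fintype.card_pos
  have key : ∀ S : Finset ι, (Fintype.card V : ℝ) ^ S.card * ∑ f : ι → V, ∏ t ∈ S, φ t f
      ≤ (Fintype.card V : ℝ) ^ Fintype.card ι * ∏ t ∈ S, D t := by
    intro S
    induction S using Finset.induction_on_max_value ρ with
    | empty => simp
    | insert a s ha hmax ih =>
      rw [card_insert_of_notMem ha, pow_succ, mul_assoc, ← sum_update a, prod_insert ha]
      have h1 : ∑ f : ι → V, ∑ w, ∏ t ∈ insert a s, φ t (update f a w)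
          ≤ D a * ∑ f : ι → V, ∏ t ∈ s, φ t f := by
        rw [mul_sum]
        apply sum_le_sum
        intro f _
        have : ∀ w, ∏ t ∈ insert a s, φ t (update f a w) = φ a (update f a w) * ∏ t ∈ s, φ t f := by
          intro w
          rw [prod_insert ha]
          congr 1
          exact prod_congr rfl fun t ht =>
            hdep t a (ne_of_mem_of_not_mem ht ha).symm (hmax t ht) f w
        rw [sum_congr rfl fun w _ => this w, ← sum_mul]
        exact mul_le_mul_of_nonneg_right (hsum a f) (prod_nonneg fun t _ => h0 t f)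
      calc _ ≤ (Fintype.card V : ℝ) ^ s.card * (D a * ∑ f : ι → V, ∏ t ∈ s, φ t f) :=
            mul_le_mul_of_nonneg_left h1 (by positivity)
        _ = D a * ((Fintype.card V : ℝ) ^ s.card * ∑ f : ι → V, ∏ t ∈ s, φ t f) := by ring
        _ ≤ D a * ((Fintype.card V : ℝ) ^ Fintype.card ι * ∏ t ∈ s, D t) :=
            mul_le_mul_of_nonneg_left ih (hD0 a)
        _ = _ := by ring
  have := key univ
  rw [card_univ] at this
  exact le_of_mul_le_mul_left this (by positivity)

lemma prod_taylor (s : Finset ι) {a b z : ι → ℝ} (ha0 : ∀ v, 0 ≤ a v) (ha : ∀ v, a v ≤ z v)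
    (hb0 : ∀ v, 0 ≤ b v) (hb : ∀ v, b v ≤ z v) :
    |∏ v ∈ s, a v - ∏ v ∈ s, b v - ∑ i ∈ s, (a i - b i) * ∏ v ∈ s.erase i, b v|
      ≤ ∑ i ∈ s, ∑ k ∈ s.erase i, |a i - b i| * |a k - b k| * ∏ w ∈ (s.erase i).erase k, z w := by
  have hz : ∀ v, 0 ≤ z v := fun v => (ha0 v).trans (ha v)
  induction s using Finset.induction_on with
  | empty => simp
  | insert x s hx ih =>
    rw [prod_insert hx, prod_insert hx, sum_insert hx, sum_insert hx, erase_insert hx]
    have h2 : ∑ i ∈ s, (a i - b i) * ∏ v ∈ (insert x s).erase i, b v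
        = b x * ∑ i ∈ s, (a i - b i) * ∏ v ∈ s.erase i, b v := by
      rw [mul_sum]
      apply sum_congr rfl
      intro v hv
      have hvx : x ≠ v := fun h => hx (h ▸ hv)
      rw [erase_insert_of_ne hvx, prod_insert (fun h => hx (mem_of_mem_erase h))]
      ring
    have h3 : z x * ∑ i ∈ s, ∑ k ∈ s.erase i,
          |a i - b i| * |a k - b k| * ∏ w ∈ (s.erase i).erase k, z w
        ≤ ∑ i ∈ s, ∑ k ∈ (insert x s).erase i,
          |a i - b i| * |a k - b k| * ∏ w ∈ ((insert x s).erase i).erase k, z w := by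
      rw [mul_sum]
      apply sum_le_sum
      intro i hi
      have hix : x ≠ i := fun h => hx (h ▸ hi)
      have hx' : x ∉ s.erase i := fun h => hx (mem_of_mem_erase h)
      rw [erase_insert_of_ne hix, sum_insert hx', mul_sum]
      have : 0 ≤ |a i - b i| * |a x - b x| * ∏ w ∈ (insert x (s.erase i)).erase x, z w :=
        mul_nonneg (by positivity) (prod_nonneg fun w _ => hz w)
      refine le_trans (le_of_eq ?_) (le_add_of_nonneg_left this)
      apply sum_congr rfl
      intro k hk
      have hkx : x ≠ k := fun h => hx' (h ▸ hk)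
      rw [erase_insert_of_ne hkx, prod_insert (fun h => hx' (mem_of_mem_erase h))]
      ring
    have h4 := prod_diff_le s ha0 ha hb0 hb
    have e : a x * ∏ v ∈ s, a v - b x * ∏ v ∈ s, b v - ((a x - b x) * ∏ v ∈ s, b v
          + b x * ∑ i ∈ s, (a i - b i) * ∏ v ∈ s.erase i, b v)
        = (a x - b x) * (∏ v ∈ s, a v - ∏ v ∈ s, b v)
          + b x * (∏ v ∈ s, a v - ∏ v ∈ s, b v - ∑ i ∈ s, (a i - b i) * ∏ v ∈ s.erase i, b v) := by
      ring
    rw [h2, e]
    refine (abs_add_le _ _).trans (add_le_add ?_ (le_trans ?_ h3))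
    · rw [abs_mul]
      refine (mul_le_mul_of_nonneg_left h4 (abs_nonneg _)).trans (le_of_eq ?_)
      rw [mul_sum]
      exact sum_congr rfl fun k _ => by ring
    · rw [abs_mul, abs_of_nonneg (hb0 x)]
      exact mul_le_mul (hb x) ih (abs_nonneg _) (hz x)

lemma prod_taylor_sq {a b z : ι → ℝ} (ha0 : ∀ v, 0 ≤ a v) (ha : ∀ v, a v ≤ z v)
    (hb0 : ∀ v, 0 ≤ b v) (hb : ∀ v, b v ≤ z v) :
    ∏ v, a v ≤ ∏ v, b v + ∑ i, (a i - b i) * ∏ v ∈ univ.erase i, b v
      + ∑ i, ∑ k ∈ univ.erase i, (a i - b i) ^ 2 * ∏ w ∈ (univ.erase i).erase k, z w := by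
  have hz : ∀ v, 0 ≤ z v := fun v => (ha0 v).trans (ha v)
  have h1 := (le_abs_self _).trans (prod_taylor univ ha0 ha hb0 hb)
  have h2 : ∑ i, ∑ k ∈ univ.erase i, (a k - b k) ^ 2 * ∏ w ∈ (univ.erase i).erase k, z w
      = ∑ i, ∑ k ∈ univ.erase i, (a i - b i) ^ 2 * ∏ w ∈ (univ.erase i).erase k, z w := by
    rw [sum_erase_comm]
    exact sum_congr rfl fun i _ => sum_congr rfl fun k _ => by rw [erase_right_comm]
  have h3 : 2 * ∑ i, ∑ k ∈ univ.erase i,
        |a i - b i| * |a k - b k| * ∏ w ∈ (univ.erase i).erase k, z w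
      ≤ ∑ i, ∑ k ∈ univ.erase i, (a i - b i) ^ 2 * ∏ w ∈ (univ.erase i).erase k, z w
        + ∑ i, ∑ k ∈ univ.erase i, (a k - b k) ^ 2 * ∏ w ∈ (univ.erase i).erase k, z w := by
    rw [← sum_add_distrib, mul_sum]
    apply sum_le_sum; intro i _
    rw [← sum_add_distrib, mul_sum]
    apply sum_le_sum; intro k _
    have hP : 0 ≤ ∏ w ∈ (univ.erase i).erase k, z w := prod_nonneg fun w _ => hz w
    have : 2 * (|a i - b i| * |a k - b k|) ≤ (a i - b i) ^ 2 + (a k - b k) ^ 2 := by
      rw [← sq_abs (a i - b i), ← sq_abs (a k - b k)]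
      nlinarith [sq_nonneg (|a i - b i| - |a k - b k|)]
    nlinarith [mul_le_mul_of_nonneg_right this hP]
  linarith

end elim

section walk
variable {V : Type*} [Fintype V] [DecidableEq V]

/-- Parent of a vertex of the cycle with the last edge and the edge `k` removed. -/
def par {j : ℕ} (k t : Fin (j + 1)) : Fin (j + 1) :=
  if t.val ≤ k.val then ⟨t.val - 1, by omega⟩ else ⟨min (t.val + 1) j, by omega⟩

/-- Elimination rank. -/
def rk {j : ℕ} (k t : Fin (j + 1)) : ℕ :=
  if t.val ≤ k.val then 2 * t.val else 2 * (j - t.val) + 1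

lemma root_bound_aux {j : ℕ} (Z : V → V → ℝ) (hs : ∀ x y, Z x y = Z y x) (h0 : ∀ x y, 0 ≤ Z x y)
    (h1 : ∀ x y, Z x y ≤ 1) {D : ℝ} (hD1 : 1 ≤ D) (hD : ∀ x, ∑ y, Z x y ≤ D) {x y : V}
    (hxy : x ≠ y) {k a b : Fin (j + 1)} (hk : k ≠ Fin.last j) (hab : rk k a < rk k b) :
    ∑ f : Fin (j + 1) → V, (if f (Fin.last j) = x ∧ f 0 = y ∧ f a = f b then
      ∏ l ∈ (univ.erase (Fin.last j)).erase k, Z (f l) (f (l + 1)) else 0) ≤ D ^ (j - 2) := by
  have hk' : k.val < j := Fin.val_lt_last hk
  have hne : a ≠ b := fun h => by rw [h] at hab; exact lt_irrefl _ hab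
  have hb0 : b ≠ 0 := by
    rintro rfl
    simp [rk] at hab
  by_cases hbl : b = Fin.last j
  · have ha : a = 0 := by
      subst hbl
      apply Fin.ext
      have := a.isLt
      have h5 : (Fin.last j).val = j := rfl
      have h6 : (0 : Fin (j + 1)).val = 0 := rfl
      unfold rk at hab
      split_ifs at hab <;> omega
    subst hbl ha
    refine le_trans (le_of_eq (sum_eq_zero fun f _ => if_neg ?_)) (by positivity)
    rintro ⟨h2, h3, h4⟩
    exact hxy (by rw [← h2, ← h3, h4])
  have : Nonempty V := ⟨x⟩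
  have h0l : (0 : Fin (j + 1)) ≠ Fin.last j := by
    intro h; have := congrArg Fin.val h; simp at this; omega
  let φ : Fin (j + 1) → (Fin (j + 1) → V) → ℝ := fun t f =>
    if t = 0 then (if f 0 = y then 1 else 0)
    else if t = Fin.last j then (if f (Fin.last j) = x then 1 else 0)
    else if t = b then (if f a = f b then Z (f (par k t)) (f t) else 0)
    else Z (f (par k t)) (f t)
  let DD : Fin (j + 1) → ℝ := fun t =>
    if t = 0 then 1 else if t = Fin.last j then 1 else if t = b then 1 else D
  have hpar : ∀ t, t ≠ 0 → t ≠ Fin.last j → rk k (par k t) < rk k t := by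
    intro t ht0 htl
    have a1 : t.val < j := Fin.val_lt_last htl
    have a2 : t.val ≠ 0 := fun h => ht0 (Fin.ext h)
    unfold rk par
    split_ifs <;> simp only at * <;> omega
  have hrk0 : rk k 0 = 0 := by simp [rk]
  have key := elim_le (rk k) φ DD ?_ ?_ ?_ ?_
  · have e1 : ∏ t, DD t = D ^ (j - 2) := by
      rw [← mul_prod_erase univ _ (mem_univ 0),
        ← mul_prod_erase _ _ (mem_erase.mpr ⟨h0l.symm, mem_univ _⟩),
        ← mul_prod_erase _ _ (mem_erase.mpr ⟨hbl, mem_erase.mpr ⟨hb0, mem_univ _⟩⟩)]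
      have : ∏ t ∈ ((univ.erase 0).erase (Fin.last j)).erase b, DD t
          = ∏ t ∈ ((univ.erase 0).erase (Fin.last j)).erase b, D := by
        apply prod_congr rfl
        intro t ht
        simp only [mem_erase] at ht
        simp [DD, ht.1, ht.2.1, ht.2.2.1]
      rw [this, prod_const, card_erase_of_mem (mem_erase.mpr ⟨hbl, mem_erase.mpr ⟨hb0, mem_univ _⟩⟩),
        card_erase_of_mem (mem_erase.mpr ⟨h0l.symm, mem_univ _⟩), card_erase_of_mem (mem_univ _),
        card_univ, Fintype.card_fin]
      simp only [DD, if_true, h0l.symm, hb0, hbl, if_false, one_mul]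
      congr 1
    rw [e1] at key
    refine le_trans (le_of_eq (sum_congr rfl fun f _ => ?_)) key
    have e2 : ∏ l ∈ (univ.erase (Fin.last j)).erase k, Z (f l) (f (l + 1))
        = ∏ t ∈ (univ.erase 0).erase (Fin.last j), Z (f (par k t)) (f t) := by
      symm
      apply prod_nbij' (fun t => if t.val ≤ k.val then par k t else t)
        (fun l => if l.val < k.val then l + 1 else l)
      · intro t ht
        simp only [mem_erase, mem_univ, and_true, ne_eq, Fin.ext_iff, Fin.val_last,
          Fin.val_zero] at ht ⊢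
        have := t.isLt
        by_cases c : t.val ≤ k.val
        · have a1 : (par k t).val = t.val - 1 := by simp [par, c]
          rw [if_pos c]; omega
        · rw [if_neg c]; omega
      · intro l hl
        simp only [mem_erase, mem_univ, and_true, ne_eq] at hl ⊢
        have a1 : l.val < j := Fin.val_lt_last hl.2
        have a2 : (l + 1).val = l.val + 1 := Fin.val_add_one_of_lt (Fin.lt_last_iff_ne_last.mpr hl.2)
        have a3 : l.val ≠ k.val := fun h => hl.1 (Fin.ext h)
        simp only [Fin.ext_iff, Fin.val_last, Fin.val_zero]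
        split_ifs <;> omega
      · intro t ht
        simp only [mem_erase, mem_univ, and_true, ne_eq, Fin.ext_iff, Fin.val_last,
          Fin.val_zero] at ht ⊢
        have := t.isLt
        by_cases c : t.val ≤ k.val
        · have a1 : (par k t).val = t.val - 1 := by simp [par, c]
          have a2 : (par k t + 1).val = (par k t).val + 1 :=
            Fin.val_add_one_of_lt (by rw [Fin.lt_def, Fin.val_last]; omega)
          simp only [c, if_true]
          rw [if_pos (by omega)]
          omega
        · simp only [c, if_false]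
          rw [if_neg (by omega)]
      · intro l hl
        simp only [mem_erase, mem_univ, and_true, ne_eq] at hl ⊢
        have a1 : l.val < j := Fin.val_lt_last hl.2
        have a2 : (l + 1).val = l.val + 1 := Fin.val_add_one_of_lt (Fin.lt_last_iff_ne_last.mpr hl.2)
        have a3 : l.val ≠ k.val := fun h => hl.1 (Fin.ext h)
        by_cases c : l.val < k.val
        · simp only [c, if_true]
          rw [if_pos (by omega)]
          apply Fin.ext
          unfold par
          rw [if_pos (by omega)]
          simp only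
          omega
        · simp only [c, if_false]
          rw [if_neg (by omega)]
      · intro t ht
        simp only [mem_erase, mem_univ, and_true, ne_eq, Fin.ext_iff, Fin.val_last,
          Fin.val_zero] at ht
        have := t.isLt
        by_cases c : t.val ≤ k.val
        · have a1 : (par k t).val = t.val - 1 := by simp [par, c]
          have a2 : (par k t + 1).val = (par k t).val + 1 :=
            Fin.val_add_one_of_lt (by rw [Fin.lt_def, Fin.val_last]; omega)
          simp only [c, if_true]
          have : par k t + 1 = t := Fin.ext (by omega)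
          rw [this]
        · simp only [c, if_false]
          have a2 : (t + 1).val = t.val + 1 :=
            Fin.val_add_one_of_lt (by rw [Fin.lt_def, Fin.val_last]; omega)
          have a1 : (par k t).val = min (t.val + 1) j := by simp [par, c]
          have : par k t = t + 1 := Fin.ext (by omega)
          rw [this, hs]
    rw [e2, ← mul_prod_erase univ _ (mem_univ 0),
        ← mul_prod_erase (univ.erase 0) _ (mem_erase.mpr ⟨h0l.symm, mem_univ _⟩),
        ← mul_prod_erase _ (fun t => φ t f) (mem_erase.mpr ⟨hbl, mem_erase.mpr ⟨hb0, mem_univ _⟩⟩),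
        ← mul_prod_erase _ _ (mem_erase.mpr ⟨hbl, mem_erase.mpr ⟨hb0, mem_univ _⟩⟩)]
    have : ∏ t ∈ ((univ.erase 0).erase (Fin.last j)).erase b, φ t f
        = ∏ t ∈ ((univ.erase 0).erase (Fin.last j)).erase b, Z (f (par k t)) (f t) := by
      apply prod_congr rfl
      intro t ht
      simp only [mem_erase] at ht
      simp [φ, ht.1, ht.2.1, ht.2.2.1]
    rw [this]
    simp only [φ, if_true, h0l.symm, hb0, hbl, if_false]
    by_cases c1 : f (Fin.last j) = x <;> by_cases c2 : f 0 = y <;> by_cases c3 : f a = f b <;>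
      simp [c1, c2, c3]
  · intro t f
    simp only [φ]
    split_ifs <;> first | exact zero_le_one | exact le_rfl | exact h0 _ _
  · intro t
    simp only [DD]
    split_ifs <;> linarith
  · intro t s hst hle f w
    simp only [φ]
    by_cases c0 : t = 0
    · subst c0; simp [update_of_ne hst.symm]
    by_cases cl : t = Fin.last j
    · subst cl; simp only [c0, if_false, if_true, update_of_ne hst.symm]
    have hp : par k t ≠ s := by
      rintro rfl
      exact absurd (hpar t c0 cl) (not_lt.mpr hle)
    by_cases cb : t = b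
    · subst cb
      have : a ≠ s := by
        rintro rfl
        exact absurd hab (not_lt.mpr hle)
      simp [c0, cl, update_of_ne hst.symm, update_of_ne hp, update_of_ne this]
    · simp [c0, cl, cb, update_of_ne hst.symm, update_of_ne hp]
  · intro t f
    simp only [φ, DD]
    by_cases c0 : t = 0
    · subst c0; simp
    by_cases cl : t = Fin.last j
    · subst cl; simp [c0]
    have hp : par k t ≠ t := by
      intro h
      have := hpar t c0 cl
      rw [h] at this
      exact lt_irrefl _ this
    by_cases cb : t = b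
    · subst cb
      simp [c0, cl, update_of_ne hp, update_of_ne hne, h1]
    · simp [c0, cl, cb, update_of_ne hp, hD]

lemma rk_inj {j : ℕ} (k : Fin (j + 1)) {a b : Fin (j + 1)} (h : rk k a = rk k b) : a = b := by
  apply Fin.ext
  have := a.isLt
  have := b.isLt
  unfold rk at h
  split_ifs at h <;> omega

lemma root_bound {j : ℕ} (Z : V → V → ℝ) (hs : ∀ x y, Z x y = Z y x) (h0 : ∀ x y, 0 ≤ Z x y)
    (h1 : ∀ x y, Z x y ≤ 1) {D : ℝ} (hD1 : 1 ≤ D) (hD : ∀ x, ∑ y, Z x y ≤ D)
    (δ : V → V → ℝ) (hδ0 : ∀ x y, 0 ≤ δ x y) (hδ : ∀ x, δ x x = 0)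
    {k : Fin (j + 1)} (hk : k ≠ Fin.last j) :
    ∑ f ∈ univ.filter (fun f : Fin (j + 1) → V => ¬ Injective f), δ (f (Fin.last j)) (f 0) *
      ∏ l ∈ (univ.erase (Fin.last j)).erase k, Z (f l) (f (l + 1))
      ≤ ((j : ℝ) + 1) ^ 2 * D ^ (j - 2) * ∑ x, ∑ y, δ x y := by
  set P : (Fin (j + 1) → V) → ℝ :=
    fun f => ∏ l ∈ (univ.erase (Fin.last j)).erase k, Z (f l) (f (l + 1)) with hP
  have hP0 : ∀ f, 0 ≤ P f := fun f => prod_nonneg fun l _ => h0 _ _
  have hD0 : 0 ≤ D ^ (j - 2) := by positivity
  calc ∑ f ∈ univ.filter (fun f : Fin (j + 1) → V => ¬ Injective f),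
        δ (f (Fin.last j)) (f 0) * P f
      ≤ ∑ f : Fin (j + 1) → V, ∑ x, ∑ y, ∑ a, ∑ b ∈ univ.erase a,
          δ x y * (if f (Fin.last j) = x ∧ f 0 = y ∧ f a = f b then P f else 0) := by
        rw [sum_filter]
        apply sum_le_sum
        intro f _
        have hnn : ∀ x y a b, 0 ≤
            δ x y * (if f (Fin.last j) = x ∧ f 0 = y ∧ f a = f b then P f else 0) := by
          intro x y a b
          apply mul_nonneg (hδ0 x y)
          split_ifs
          · exact hP0 f
          · exact le_rfl
        split_ifs with hf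
        · exact sum_nonneg fun x _ => sum_nonneg fun y _ => sum_nonneg fun a _ =>
            sum_nonneg fun b _ => hnn x y a b
        · unfold Injective at hf
          push Not at hf
          obtain ⟨a, b, hab, hne⟩ := hf
          refine le_trans ?_ (single_le_sum (fun x _ => sum_nonneg fun y _ => sum_nonneg fun a _ =>
            sum_nonneg fun b _ => hnn x y a b) (mem_univ (f (Fin.last j))))
          refine le_trans ?_ (single_le_sum (fun y _ => sum_nonneg fun a _ =>
            sum_nonneg fun b _ => hnn _ y a b) (mem_univ (f 0)))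
          refine le_trans ?_ (single_le_sum (fun a _ =>
            sum_nonneg fun b _ => hnn _ _ a b) (mem_univ a))
          refine le_trans ?_ (single_le_sum (fun b _ => hnn _ _ a b)
            (mem_erase.mpr ⟨hne.symm, mem_univ b⟩))
          rw [if_pos ⟨rfl, rfl, hab⟩]
    _ = ∑ x, ∑ y, ∑ a, ∑ b ∈ univ.erase a, δ x y * ∑ f : Fin (j + 1) → V,
          (if f (Fin.last j) = x ∧ f 0 = y ∧ f a = f b then P f else 0) := by
        rw [sum_comm]
        apply sum_congr rfl; intro x _
        rw [sum_comm]
        apply sum_congr rfl; intro y _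
        rw [sum_comm]
        apply sum_congr rfl; intro a _
        rw [sum_comm]
        apply sum_congr rfl; intro b _
        rw [mul_sum]
    _ ≤ ∑ x, ∑ y, ∑ a : Fin (j + 1), ∑ b : Fin (j + 1), δ x y * D ^ (j - 2) := by
        apply sum_le_sum; intro x _
        apply sum_le_sum; intro y _
        apply sum_le_sum; intro a _
        refine le_trans ?_ (sum_le_sum_of_subset_of_nonneg (erase_subset a univ)
          fun b _ _ => mul_nonneg (hδ0 x y) hD0)
        apply sum_le_sum; intro b hb
        by_cases hxy : x = y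
        · rw [hxy, hδ]; simp
        apply mul_le_mul_of_nonneg_left _ (hδ0 x y)
        rcases lt_trichotomy (rk k a) (rk k b) with h | h | h
        · exact root_bound_aux Z hs h0 h1 hD1 hD hxy hk h
        · exact absurd (rk_inj k h) (ne_of_mem_erase hb).symm
        · have := root_bound_aux Z hs h0 h1 hD1 hD hxy hk h
          refine le_trans (le_of_eq (sum_congr rfl fun f _ => ?_)) this
          simp only [hP, eq_comm (a := f a)]
    _ = _ := by
        simp only [sum_const, card_univ, Fintype.card_fin, nsmul_eq_mul, mul_sum]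
        apply sum_congr rfl; intro x _
        apply sum_congr rfl; intro y _
        push_cast; ring

lemma rot_bound {j : ℕ} (Z : V → V → ℝ) (hs : ∀ x y, Z x y = Z y x) (h0 : ∀ x y, 0 ≤ Z x y)
    (h1 : ∀ x y, Z x y ≤ 1) {D : ℝ} (hD1 : 1 ≤ D) (hD : ∀ x, ∑ y, Z x y ≤ D)
    (δ : V → V → ℝ) (hδ0 : ∀ x y, 0 ≤ δ x y) (hδ : ∀ x, δ x x = 0)
    {i k : Fin (j + 1)} (hk : k ≠ i) :
    ∑ f ∈ univ.filter (fun f : Fin (j + 1) → V => ¬ Injective f), δ (f i) (f (i + 1)) *
      ∏ l ∈ (univ.erase i).erase k, Z (f l) (f (l + 1))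
      ≤ ((j : ℝ) + 1) ^ 2 * D ^ (j - 2) * ∑ x, ∑ y, δ x y := by
  have hl : Fin.last j + (i + 1) = i := by
    rw [add_comm i 1, ← add_assoc, Fin.last_add_one, zero_add]
  have hk' : k - (i + 1) ≠ Fin.last j := by
    intro h
    apply hk
    rw [← hl, ← h, sub_add_cancel]
  refine le_trans (le_of_eq ?_) (root_bound Z hs h0 h1 hD1 hD δ hδ0 hδ hk')
  apply sum_equiv (Equiv.arrowCongr (Equiv.addRight (i + 1)).symm (Equiv.refl V))
  · intro f
    simp only [mem_filter, mem_univ, true_and, not_iff_not]
    have : (Equiv.arrowCongr (Equiv.addRight (i + 1)).symm (Equiv.refl V)) f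
        = f ∘ (Equiv.addRight (i + 1)) := by
      funext t; simp
    rw [this]
    exact ((Equiv.addRight (i + 1)).injective_comp f).symm
  · intro f _
    simp only [Equiv.arrowCongr_apply, Equiv.symm_symm, Equiv.coe_refl, comp_apply, id_eq,
      Equiv.coe_addRight, hl, zero_add]
    congr 1
    symm
    apply prod_equiv (Equiv.addRight (i + 1))
    · intro l
      simp only [mem_erase, mem_univ, and_true, Equiv.coe_addRight, ne_eq, eq_sub_iff_add_eq]
      have : l + (i + 1) = i ↔ l = Fin.last j := by
        constructor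
        · intro h; rw [← add_left_inj (i + 1), h, hl]
        · intro h; rw [h, hl]
      rw [this]
    · intro l _
      simp only [Equiv.coe_addRight]
      rw [add_right_comm l 1]

end walk

end Pool.Agent.P.MP_4376e9_pr
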