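import Mathlib

/-!
Trace of a matrix power as a sum over closed walks, and Klein's inequality for even powers.
-/

set_option linter.unusedSectionVars false
set_option linter.unusedVariables false

namespace Pool.Agent.P.MP_4376e9_pr
open Finset Matrix

variable {V : Type*} [Fintype V] [DecidableEq V]

lemma path_sum (Z : Matrix V V ℝ) (j : ℕ) (F : V → V → ℝ) :
    ∑ g : Fin (j + 1) → V, (∏ i : Fin j, Z (g i.castSucc) (g i.succ)) * F (g 0) (g (Fin.last j))
      = ∑ x, ∑ y, (Z ^ j) x y * F x y := by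
  induction j generalizing F with
  | zero =>
    simp only [univ_eq_empty, prod_empty, one_mul, pow_zero, one_apply, ite_mul, zero_mul,
      sum_ite_eq, mem_univ, if_true]
    exact Fintype.sum_equiv (Equiv.funUnique (Fin 1) V) _ _ (fun g => rfl)
  | succ j ih =>
    rw [← (Fin.consEquiv (fun _ : Fin (j + 2) => V)).sum_comp, Fintype.sum_prod_type]
    have : ∀ x : V, ∑ g : Fin (j + 1) → V,
        (∏ i : Fin (j + 1), Z ((Fin.consEquiv (fun _ : Fin (j + 2) => V)) (x, g) i.castSucc)
          ((Fin.consEquiv (fun _ : Fin (j + 2) => V)) (x, g) i.succ))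
          * F ((Fin.consEquiv (fun _ : Fin (j + 2) => V)) (x, g) 0)
            ((Fin.consEquiv (fun _ : Fin (j + 2) => V)) (x, g) (Fin.last (j + 1)))
        = ∑ y, (Z ^ (j + 1)) x y * F x y := by
      intro x
      have h := ih (fun a y => Z x a * F x y)
      rw [sum_comm] at h
      simp only [pow_succ', mul_apply, sum_mul]
      rw [← sum_congr rfl fun y _ => sum_congr rfl fun a _ =>
        (show (Z ^ j) a y * (Z x a * F x y) = Z x a * (Z ^ j) a y * F x y by ring), ← h]
      apply sum_congr rfl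
      intro g _
      rw [Fin.prod_univ_succ]
      simp only [Fin.consEquiv_apply, Fin.castSucc_zero, Fin.cons_zero, Fin.cons_succ,
        ← Fin.succ_last, ← Fin.succ_castSucc]
      ring
    rw [sum_congr rfl fun x _ => this x]

lemma cycle_sum (Z : Matrix V V ℝ) (j : ℕ) :
    ∑ g : Fin (j + 1) → V, ∏ i : Fin (j + 1), Z (g i) (g (i + 1)) = trace (Z ^ (j + 1)) := by
  have h := path_sum Z j (fun x y => Z y x)
  rw [pow_succ, trace]
  simp only [diag_apply, mul_apply]
  rw [← h]
  apply sum_congr rfl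
  intro g _
  rw [Fin.prod_univ_castSucc]
  simp only [Fin.coeSucc_eq_succ, Fin.last_add_one]

lemma even_pow_tangent {m : ℕ} (hm : Even (m + 1)) (a b : ℝ) :
    a ^ (m + 1) + (m + 1) * (a ^ m * b - a ^ (m + 1)) ≤ b ^ (m + 1) := by
  rcases eq_or_ne a 0 with rfl | ha
  · have hm0 : m ≠ 0 := by rintro rfl; simp at hm
    simp only [zero_pow hm0, zero_pow (Nat.succ_ne_zero m)]
    simpa using hm.pow_nonneg b
  obtain ⟨t, rfl⟩ : ∃ t, b = a * t := ⟨b / a, by field_simp⟩
  have h1 : 1 + ((m + 1 : ℕ) : ℝ) * (t - 1) ≤ t ^ (m + 1) := by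
    by_cases ht : -2 ≤ t - 1
    · simpa using one_add_mul_le_pow ht (m + 1)
    · have := hm.pow_nonneg t
      have h2 : (1 : ℝ) ≤ ((m + 1 : ℕ) : ℝ) := by exact_mod_cast Nat.succ_pos m
      nlinarith
  have h2 := mul_le_mul_of_nonneg_left h1 (hm.pow_nonneg a)
  push_cast at h2
  rw [mul_pow]
  have e : a ^ (m + 1) + (m + 1) * (a ^ m * (a * t) - a ^ (m + 1))
      = a ^ (m + 1) * (1 + (m + 1) * (t - 1)) := by ring
  rw [e]; exact h2

lemma trace_diag (x y : V → ℝ) (W : Matrix V V ℝ) :
    trace (diagonal x * W * diagonal y * star W) = ∑ a, ∑ b, x a * y b * W a b ^ 2 := by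
  simp only [trace, diag_apply, mul_apply (M := diagonal x * W * diagonal y), mul_diagonal,
    diagonal_mul, star_apply, star_trivial]
  apply sum_congr rfl; intro a _
  apply sum_congr rfl; intro b _
  ring

theorem klein {A B : Matrix V V ℝ} (hA : A.IsHermitian) (hB : B.IsHermitian) {m : ℕ}
    (hm : Even (m + 1)) :
    trace (A ^ (m + 1)) + (m + 1) * trace (A ^ m * (B - A)) ≤ trace (B ^ (m + 1)) := by
  set U : Matrix V V ℝ := hA.eigenvectorUnitary.1 with hU
  set X : Matrix V V ℝ := hB.eigenvectorUnitary.1 with hX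
  have hpA : ∀ j : ℕ, A ^ j = U * diagonal (fun a => hA.eigenvalues a ^ j) * star U := by
    intro j
    conv_lhs => rw [hA.spectral_theorem, ← map_pow, diagonal_pow]
    rw [Unitary.conjStarAlgAut_apply]
    rfl
  have hpB : ∀ j : ℕ, B ^ j = X * diagonal (fun a => hB.eigenvalues a ^ j) * star X := by
    intro j
    conv_lhs => rw [hB.spectral_theorem, ← map_pow, diagonal_pow]
    rw [Unitary.conjStarAlgAut_apply]
    rfl
  have hT : ∀ j l : ℕ, trace (A ^ j * B ^ l)
      = ∑ a, ∑ b, hA.eigenvalues a ^ j * hB.eigenvalues b ^ l * (star U * X) a b ^ 2 := by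
    intro j l
    rw [← trace_diag, hpA j, hpB l, star_mul, star_star]
    simp only [Matrix.mul_assoc]
    rw [trace_mul_comm U]
    simp only [Matrix.mul_assoc]
  have e1 := hT (m + 1) 0
  have e2 := hT 0 (m + 1)
  have e3 := hT m 1
  simp only [pow_zero, pow_one, mul_one, one_mul] at e1 e2 e3
  rw [Matrix.mul_sub, trace_sub, ← pow_succ, e1, e2, e3, ← sum_sub_distrib, mul_sum,
    ← sum_add_distrib]
  apply sum_le_sum; intro a _
  rw [← sum_sub_distrib, mul_sum, ← sum_add_distrib]
  apply sum_le_sum; intro b _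
  have := mul_le_mul_of_nonneg_right
    (even_pow_tangent hm (hA.eigenvalues a) (hB.eigenvalues b)) (sq_nonneg ((star U * X) a b))
  linarith

end Pool.Agent.P.MP_4376e9_pr
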