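import Pool.Agent.P.MP_4376e9_pr.Cycle1
import Pool.Agent.P.MP_4376e9_pr.Klein
import Pool.Agent.P.MP_4376e9_pr.Degen

/-!
Near-convexity of the even cycle polynomial and the non-asymptotic two-sided bounds.
-/

set_option linter.unusedSectionVars false
set_option linter.unusedVariables false

namespace Pool.Agent.P.MP_4376e9_pr
open Finset Function

variable {V : Type*} [Fintype V] [DecidableEq V]

/-- The symmetric matrix of a weight vector on pairs. -/
def mat (z : Sym2 V → ℝ) : Matrix V V ℝ := Matrix.of fun x y => z s(x, y)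

lemma mat_herm (z : Sym2 V → ℝ) : (mat z).IsHermitian := by
  ext x y
  simp [mat, Sym2.eq_swap]

/-- Degenerate closed walks. -/
noncomputable def Dg (j : ℕ) (z : Sym2 V → ℝ) : ℝ :=
  ∑ f ∈ univ.filter (fun g : Fin (j + 1) → V => ¬ Injective g), ∏ i, z s(f i, f (i + 1))

lemma Lam_eq_trace {j : ℕ} (hj : 2 ≤ j) (z : Sym2 V → ℝ) :
    2 * ((j : ℝ) + 1) * Lam (Hc V j) z = Matrix.trace (mat z ^ (j + 1)) - Dg j z := by
  rw [Lam_Hc hj, ← cycle_sum, Dg, eq_sub_iff_add_eq, sum_filter_add_sum_filter_not]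
  rfl

lemma sum_sym2 (F : Sym2 V → ℝ) (hF : ∀ x, F s(x, x) = 0) :
    ∑ x, ∑ y, F s(x, y) = 2 * ∑ e, F e := by
  rw [← Fintype.sum_prod_type' (fun x y => F s(x, y)),
    ← sum_fiberwise (s := univ) (g := fun q : V × V => s(q.1, q.2)), mul_sum]
  apply sum_congr rfl
  intro e _
  induction e using Sym2.ind with
  | h x y =>
    by_cases hxy : x = y
    · subst hxy
      rw [hF, mul_zero]
      apply sum_eq_zero
      intro q hq
      rw [(mem_filter.mp hq).2, hF]
    · have : univ.filter (fun q : V × V => s(q.1, q.2) = s(x, y)) = {(x, y), (y, x)} := by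
        ext ⟨a, b⟩
        simp only [mem_filter, mem_univ, true_and, Sym2.eq_iff, mem_insert, mem_singleton,
          Prod.mk.injEq]
      rw [this, sum_pair (by simp [hxy])]
      simp only [Sym2.eq_swap (a := y)]
      ring

lemma Dg_taylor {j : ℕ} {zbar : Sym2 V → ℝ} (h1 : ∀ e, zbar e ≤ 1) (hdiag : ∀ x, zbar s(x, x) = 0)
    {D : ℝ} (hD1 : 1 ≤ D) (hD : ∀ x, ∑ y, zbar s(x, y) ≤ D) {a m : Sym2 V → ℝ}
    (ha0 : ∀ v, 0 ≤ a v) (ha : ∀ v, a v ≤ zbar v) (hm0 : ∀ v, 0 ≤ m v) (hm : ∀ v, m v ≤ zbar v) :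
    Dg j a ≤ Dg j m + ∑ f ∈ univ.filter (fun g : Fin (j + 1) → V => ¬ Injective g),
        ∑ i, (a - m) s(f i, f (i + 1)) * ∏ l ∈ univ.erase i, m s(f l, f (l + 1))
      + 2 * ((j : ℝ) + 1) ^ 4 * D ^ (j - 2) * ∑ e, (a e - m e) ^ 2 := by
  have hz : ∀ v, 0 ≤ zbar v := fun v => (ha0 v).trans (ha v)
  have hd : ∀ x, (a s(x, x) - m s(x, x)) ^ 2 = 0 := by
    intro x
    have e1 : a s(x, x) = 0 := le_antisymm (hdiag x ▸ ha _) (ha0 _)
    have e2 : m s(x, x) = 0 := le_antisymm (hdiag x ▸ hm _) (hm0 _)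
    rw [e1, e2]; simp
  have h2 := sum_le_sum fun f (_ : f ∈ univ.filter (fun g : Fin (j + 1) → V => ¬ Injective g)) =>
    prod_taylor_sq (a := fun i => a s(f i, f (i + 1))) (b := fun i => m s(f i, f (i + 1)))
      (z := fun i => zbar s(f i, f (i + 1))) (fun _ => ha0 _) (fun _ => ha _) (fun _ => hm0 _)
      (fun _ => hm _)
  rw [sum_add_distrib, sum_add_distrib] at h2
  refine h2.trans (add_le_add le_rfl ?_)
  rw [sum_comm]
  calc _ = ∑ i : Fin (j + 1), ∑ k ∈ univ.erase i,
          ∑ f ∈ univ.filter (fun g : Fin (j + 1) → V => ¬ Injective g),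
          (a s(f i, f (i + 1)) - m s(f i, f (i + 1))) ^ 2
            * ∏ w ∈ (univ.erase i).erase k, zbar s(f w, f (w + 1)) :=
        sum_congr rfl fun i _ => sum_comm
    _ ≤ ∑ i : Fin (j + 1), ∑ k : Fin (j + 1),
          ((j : ℝ) + 1) ^ 2 * D ^ (j - 2) * ∑ x, ∑ y, (a s(x, y) - m s(x, y)) ^ 2 := by
        apply sum_le_sum; intro i _
        refine le_trans ?_ (sum_le_sum_of_subset_of_nonneg (erase_subset i univ)
          fun b _ _ => by positivity)
        apply sum_le_sum; intro k hk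
        exact rot_bound (fun x y => zbar s(x, y)) (fun x y => by rw [Sym2.eq_swap])
          (fun x y => hz _) (fun x y => h1 _) hD1 hD (fun x y => (a s(x, y) - m s(x, y)) ^ 2)
          (fun x y => sq_nonneg _) hd (ne_of_mem_erase hk)
    _ = _ := by
        rw [sum_sym2 (fun e => (a e - m e) ^ 2) hd]
        simp only [sum_const, card_univ, Fintype.card_fin, nsmul_eq_mul]
        push_cast; ring

lemma conv_Hc {j : ℕ} (hj : 2 ≤ j) (hev : Even (j + 1)) {zbar : Sym2 V → ℝ}
    (h1 : ∀ e, zbar e ≤ 1) (hdiag : ∀ x, zbar s(x, x) = 0)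
    {D : ℝ} (hD1 : 1 ≤ D) (hD : ∀ x, ∑ y, zbar s(x, y) ≤ D) :
    Conv (Hc V j) zbar (((j : ℝ) + 1) ^ 3 * D ^ (j - 2)) := by
  intro m hm0 hm
  let L : (Sym2 V → ℝ) →ₗ[ℝ] ℝ :=
    { toFun := fun δ => (((j : ℝ) + 1) * Matrix.trace (mat m ^ j * mat δ)
        - ∑ f ∈ univ.filter (fun g : Fin (j + 1) → V => ¬ Injective g),
          ∑ i, δ s(f i, f (i + 1)) * ∏ l ∈ univ.erase i, m s(f l, f (l + 1))) / (2 * ((j : ℝ) + 1))
      map_add' := by
        intro δ δ'
        have : mat (δ + δ') = mat δ + mat δ' := rfl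
        simp only [this, Matrix.mul_add, Matrix.trace_add, Pi.add_apply, add_mul, sum_add_distrib]
        ring
      map_smul' := by
        intro c δ
        have : mat (c • δ) = c • mat δ := rfl
        simp only [this, Matrix.mul_smul, Matrix.trace_smul, Pi.smul_apply, smul_eq_mul, mul_assoc,
          ← mul_sum, RingHom.id_apply]
        ring }
  refine ⟨L, fun a ha0 ha => ?_⟩
  have k1 := klein (mat_herm m) (mat_herm a) hev
  have k2 := Dg_taylor (j := j) h1 hdiag hD1 hD ha0 ha hm0 hm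
  have k3 := Lam_eq_trace hj a
  have k4 := Lam_eq_trace hj m
  have hpos : (0 : ℝ) < 2 * ((j : ℝ) + 1) := by positivity
  have k5 : 2 * ((j : ℝ) + 1) * L (a - m) = ((j : ℝ) + 1) * Matrix.trace (mat m ^ j * (mat a - mat m))
      - ∑ f ∈ univ.filter (fun g : Fin (j + 1) → V => ¬ Injective g),
          ∑ i, (a - m) s(f i, f (i + 1)) * ∏ l ∈ univ.erase i, m s(f l, f (l + 1)) := by
    have : mat a - mat m = mat (a - m) := rfl
    rw [this]
    simp only [L, LinearMap.coe_mk, AddHom.coe_mk]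
    field_simp
  apply le_of_mul_le_mul_left _ hpos
  nlinarith

/-- The non-diagonal pairs. -/
def U0 (V : Type*) [Fintype V] [DecidableEq V] : Finset (Sym2 V) := univ.filter (fun e => ¬ e.IsDiag)

lemma card_U0 : 2 * ((U0 V).card : ℝ) = (Fintype.card V : ℝ) ^ 2 - Fintype.card V := by
  have h := sum_sym2 (V := V) (fun e => if ¬ e.IsDiag then 1 else 0) (by simp)
  rw [← sum_filter, sum_const, nsmul_eq_mul, mul_one] at h
  unfold U0
  rw [← h]
  have : ∀ x : V, (∑ y : V, if ¬ (s(x, y)).IsDiag then (1 : ℝ) else 0) = Fintype.card V - 1 := by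
    intro x
    have : ∀ y : V, (if ¬ (s(x, y)).IsDiag then (1 : ℝ) else 0) = 1 - if x = y then 1 else 0 := by
      intro y; by_cases h : x = y <;> simp [h]
    simp only [this, sum_sub_distrib, sum_const, card_univ, nsmul_eq_mul, mul_one, sum_ite_eq,
      mem_univ, if_true]
  simp only [this, sum_const, card_univ, nsmul_eq_mul]
  ring

/-- Penalty for states with a large degree. -/
noncomputable def Bad (j : ℕ) (p D : ℝ) (U I : Finset (Sym2 V)) : ℝ :=
  ((Hc V j).card * Real.exp (- (D / 2))) *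
    ∑ x : V, ∏ e ∈ univ.image (fun y => s(x, y)), (1 + 1 * zb p U I e)

lemma super_Bad (j : ℕ) {p : ℝ} (hp : 0 ≤ p) (D : ℝ) : Super p (Bad (V := V) j p D) :=
  (Super.sum univ fun x _ => super_prod hp _ zero_le_one zero_le_one).smul (by positivity)

lemma Bad_nonneg (j : ℕ) {p : ℝ} (hp : 0 ≤ p) (D : ℝ) (U I : Finset (Sym2 V)) :
    0 ≤ Bad j p D U I := by
  unfold Bad
  apply mul_nonneg (by positivity)
  exact sum_nonneg fun x _ => prod_nonneg fun e _ => by linarith [zb_nonneg hp U I e]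

lemma star_inj (x : V) : Injective (fun y => s(x, y)) := fun a b h => Sym2.congr_right.mp h

lemma exp_half_le {t : ℝ} (h0 : 0 ≤ t) (h1 : t ≤ 1) : Real.exp (t / 2) ≤ 1 + t := by
  have h2 := Real.one_sub_le_exp_neg (t / 2)
  have h3 : Real.exp (t / 2) * Real.exp (-(t / 2)) = 1 := by rw [← Real.exp_add]; simp
  have h4 := Real.exp_pos (t / 2)
  nlinarith [mul_le_mul_of_nonneg_left h2 h4.le]

lemma good_or_bad {j : ℕ} (hj : 2 ≤ j) (hev : Even (j + 1)) {p D : ℝ} (hp : 0 ≤ p) (hp1 : p ≤ 1)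
    (hD1 : 1 ≤ D) (U I : Finset (Sym2 V)) (hU : U ⊆ U0 V) (hI : I ⊆ U0 V) :
    Conv (Hc V j) (zb p U I) (((j : ℝ) + 1) ^ 3 * D ^ (j - 2))
      ∨ ((Hc V j).card : ℝ) ≤ Bad j p D U I := by
  by_cases h : ∀ x, ∑ y, zb p U I s(x, y) ≤ D
  · left
    apply conv_Hc hj hev (zb_le_one hp1 U I) _ hD1 h
    intro x
    have h1 : s(x, x) ∉ U0 V := by simp [U0]
    simp only [zb, ext]
    rw [if_neg (fun h => h1 (hU h)), if_neg (fun h => h1 (hI h))]
  · right
    push Not at h
    obtain ⟨x, hx⟩ := h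
    unfold Bad
    have h1 : Real.exp (D / 2) ≤ ∏ e ∈ univ.image (fun y => s(x, y)), (1 + 1 * zb p U I e) := by
      rw [prod_image (fun a _ b _ h => star_inj x h)]
      calc Real.exp (D / 2) ≤ Real.exp (∑ y, zb p U I s(x, y) / 2) := by
            rw [← sum_div]; exact Real.exp_le_exp.mpr (by linarith)
        _ = ∏ y, Real.exp (zb p U I s(x, y) / 2) := Real.exp_sum _ _
        _ ≤ _ := prod_le_prod (fun y _ => (Real.exp_pos _).le) fun y _ => by
            rw [one_mul]; exact exp_half_le (zb_nonneg hp U I _) (zb_le_one hp1 U I _)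
    have h2 := h1.trans (single_le_sum
      (f := fun x : V => ∏ e ∈ univ.image (fun y => s(x, y)), (1 + 1 * zb p U I e))
      (fun x _ => prod_nonneg fun e _ => by linarith [zb_nonneg hp U I e]) (mem_univ x))
    have h3 : Real.exp (-(D / 2)) * Real.exp (D / 2) = 1 := by rw [← Real.exp_add]; simp
    calc ((Hc V j).card : ℝ) = (Hc V j).card * Real.exp (-(D / 2)) * Real.exp (D / 2) := by
          rw [mul_assoc, h3, mul_one]
      _ ≤ _ := mul_le_mul_of_nonneg_left h2 (by positivity)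

lemma Bad_init (j : ℕ) {p : ℝ} (hp : 0 ≤ p) (D : ℝ) (U : Finset (Sym2 V)) :
    Bad j p D U ∅ ≤ (Hc V j).card * Real.exp (- (D / 2)) *
      (Fintype.card V * Real.exp (Fintype.card V * p)) := by
  unfold Bad
  apply mul_le_mul_of_nonneg_left _ (by positivity)
  calc _ ≤ ∑ x : V, Real.exp (Fintype.card V * p) := by
        apply sum_le_sum
        intro x _
        rw [prod_image (fun a _ b _ h => star_inj x h)]
        calc _ ≤ ∏ y : V, Real.exp p := prod_le_prod
              (fun y _ => by linarith [zb_nonneg hp U ∅ s(x, y)]) fun y _ => by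
                have := zb_le_of_notMem hp (U := U) (notMem_empty s(x, y))
                have := Real.add_one_le_exp p
                linarith
          _ = _ := by rw [prod_const, card_univ, ← Real.exp_nat_mul]
    _ = _ := by simp

lemma noninj_le [Nonempty V] (j : ℕ) :
    ((univ.filter (fun g : Fin (j + 1) → V => ¬ Injective g)).card : ℝ)
      ≤ ((j : ℝ) + 1) ^ 2 * (Fintype.card V : ℝ) ^ j := by
  have hV : (0 : ℝ) < Fintype.card V := by exact_mod_cast Fintype.card_pos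
  have h1 : ∀ a b : Fin (j + 1), b ≠ a →
      (∑ f : Fin (j + 1) → V, if f a = f b then (1 : ℝ) else 0) = (Fintype.card V : ℝ) ^ j := by
    intro a b hab
    have := sum_update b (fun f : Fin (j + 1) → V => if f a = f b then (1 : ℝ) else 0)
    simp only [update_self, update_of_ne hab.symm, sum_ite_eq, mem_univ, if_true, sum_const,
      card_univ, Fintype.card_fun, Fintype.card_fin, nsmul_eq_mul, mul_one] at this
    apply mul_left_cancel₀ hV.ne'
    rw [← this]; push_cast; ring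
  calc ((univ.filter (fun g : Fin (j + 1) → V => ¬ Injective g)).card : ℝ)
      = ∑ f : Fin (j + 1) → V, if ¬ Injective f then (1 : ℝ) else 0 := by
        rw [← sum_filter]; simp
    _ ≤ ∑ f : Fin (j + 1) → V, ∑ a, ∑ b ∈ univ.erase a, if f a = f b then (1 : ℝ) else 0 := by
        apply sum_le_sum
        intro f _
        have hnn : ∀ a b, (0 : ℝ) ≤ if f a = f b then (1 : ℝ) else 0 := by
          intro a b; split_ifs <;> norm_num
        split_ifs with hf
        · exact sum_nonneg fun a _ => sum_nonneg fun b _ => hnn a b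
        · unfold Injective at hf
          push Not at hf
          obtain ⟨a, b, hab, hne⟩ := hf
          refine le_trans ?_ (single_le_sum (fun a _ =>
            sum_nonneg fun b _ => hnn a b) (mem_univ a))
          refine le_trans ?_ (single_le_sum (fun b _ => hnn a b)
            (mem_erase.mpr ⟨hne.symm, mem_univ b⟩))
          rw [if_pos hab]
    _ = ∑ a : Fin (j + 1), ∑ b ∈ univ.erase a, (Fintype.card V : ℝ) ^ j := by
        rw [sum_comm]
        apply sum_congr rfl; intro a _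
        rw [sum_comm]
        exact sum_congr rfl fun b hb => h1 a b (ne_of_mem_erase hb)
    _ ≤ ∑ a : Fin (j + 1), ∑ b : Fin (j + 1), (Fintype.card V : ℝ) ^ j :=
        sum_le_sum fun a _ => sum_le_sum_of_subset_of_nonneg (erase_subset a univ)
          fun b _ _ => by positivity
    _ = _ := by
        simp only [sum_const, card_univ, Fintype.card_fin, nsmul_eq_mul]
        push_cast; ring

lemma const_pow (a : ℝ) (i : ℕ) : (mat (fun _ : Sym2 V => a)) ^ (i + 1)
    = Matrix.of fun _ _ => a ^ (i + 1) * (Fintype.card V : ℝ) ^ i := by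
  induction i with
  | zero => ext x y; simp [mat]
  | succ i ih =>
    rw [pow_succ, ih]
    ext x y
    simp only [Matrix.mul_apply, Matrix.of_apply, mat, sum_const, card_univ, nsmul_eq_mul]
    ring

lemma init_bound [Nonempty V] {i : ℕ} (hi : 1 ≤ i) (hev : Even (i + 2)) {p a : ℝ} (hp : 0 < p)
    (ha : 0 < a) (hcrit : Real.log (a / p) = - (a ^ (i + 1) * (Fintype.card V : ℝ) ^ i))
    {q : Sym2 V → ℝ} (hq0 : ∀ v ∈ U0 V, 0 ≤ q v) (hq1 : ∀ v ∈ U0 V, q v ≤ p) :
    (U0 V).card * kap p a + (a * Fintype.card V) ^ (i + 2) / (2 * ((i : ℝ) + 2))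
      - (a * Fintype.card V) ^ (i + 2) / Fintype.card V
      - ((i : ℝ) + 2) * (p * Fintype.card V) ^ (i + 2) / Fintype.card V
      ≤ ∑ v ∈ U0 V, kap p (q v) + Lam (Hc V (i + 1)) (ext (U0 V) ∅ q) := by
  set n : ℝ := (Fintype.card V : ℝ) with hn
  have hV : 0 < n := by rw [hn]; exact_mod_cast Fintype.card_pos
  set z := ext (U0 V) ∅ q with hz
  have hz0 : ∀ v, 0 ≤ z v := ext_nonneg hq0
  have hz1 : ∀ v, z v ≤ p := fun v =>
    (ext_le_zb hq1 v).trans (zb_le_of_notMem hp.le (notMem_empty v))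
  have h1 : ∑ v ∈ U0 V, (kap p a + Real.log (a / p) * (q v - a)) ≤ ∑ v ∈ U0 V, kap p (q v) :=
    sum_le_sum fun v hv => kap_tangent hp (hq0 v hv) ha
  rw [sum_add_distrib, ← mul_sum, sum_sub_distrib, sum_const, sum_const, nsmul_eq_mul,
    nsmul_eq_mul, hcrit] at h1
  have h2 := klein (mat_herm (fun _ : Sym2 V => a)) (mat_herm z) hev
  have hs : ∑ x, ∑ y, z s(x, y) = 2 * ∑ v ∈ U0 V, q v := by
    rw [sum_sym2 z (fun x => by simp [hz, ext, U0])]
    congr 1
    simp only [hz, ext, notMem_empty, if_false, sum_ite_mem, univ_inter]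
  have t1 : Matrix.trace (mat (fun _ : Sym2 V => a) ^ (i + 1 + 1)) = (a * n) ^ (i + 2) := by
    rw [const_pow]
    simp only [Matrix.trace, Matrix.diag_apply, Matrix.of_apply, sum_const, card_univ, nsmul_eq_mul]
    rw [← hn]; ring
  have t2 : Matrix.trace (mat (fun _ : Sym2 V => a) ^ (i + 1) * (mat z - mat (fun _ => a)))
      = a ^ (i + 1) * n ^ i * (2 * ∑ v ∈ U0 V, q v) - (a * n) ^ (i + 2) := by
    rw [Matrix.mul_sub, Matrix.trace_sub, ← pow_succ, t1, const_pow, ← hs]
    simp only [Matrix.trace, Matrix.diag_apply, Matrix.of_apply, Matrix.mul_apply, mat, ← mul_sum]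
    rw [sum_comm]
  have h3 := Lam_eq_trace (show 2 ≤ i + 1 by omega) z
  have h4 : Dg (i + 1) z ≤ ((i : ℝ) + 2) ^ 2 * n ^ (i + 1) * p ^ (i + 2) := by
    have := noninj_le (V := V) (i + 1)
    unfold Dg
    calc _ ≤ ∑ f ∈ univ.filter (fun g : Fin (i + 1 + 1) → V => ¬ Injective g), p ^ (i + 2) := by
          apply sum_le_sum
          intro f _
          calc _ ≤ ∏ l : Fin (i + 1 + 1), p := prod_le_prod (fun l _ => hz0 _) (fun l _ => hz1 _)
            _ = _ := by simp
      _ ≤ _ := by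
          rw [sum_const, nsmul_eq_mul]
          apply mul_le_mul_of_nonneg_right _ (by positivity)
          refine this.trans (le_of_eq ?_)
          push_cast; ring
  have h5 := card_U0 (V := V)
  rw [← hn] at h5
  rw [t1, t2] at h2
  push_cast at h2 h3
  have hpos : (0 : ℝ) < 2 * ((i : ℝ) + 2) := by positivity
  have e1 : (a * n) ^ (i + 2) / n = a ^ (i + 1) * n ^ i * (a * n) := by field_simp; ring
  have e2 : ((i : ℝ) + 2) * (p * n) ^ (i + 2) / n = ((i : ℝ) + 2) * (n ^ (i + 1) * p ^ (i + 2)) := by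
    field_simp; ring
  have e3 : (a * n) ^ (i + 2) = a ^ (i + 1) * n ^ i * (a * n ^ 2) := by ring
  set τ := a ^ (i + 1) * n ^ i with hτ
  have hτ0 : 0 ≤ τ := by positivity
  have hY : 0 ≤ n ^ (i + 1) * p ^ (i + 2) := by positivity
  have h6 : (a * n) ^ (i + 2) / (2 * ((i : ℝ) + 2)) + τ * (∑ v ∈ U0 V, q v) - (a * n) ^ (i + 2) / 2
      - ((i : ℝ) + 2) * (n ^ (i + 1) * p ^ (i + 2)) ≤ Lam (Hc V (i + 1)) z := by
    apply le_of_mul_le_mul_left _ hpos
    have e4 : 2 * ((i : ℝ) + 2) * ((a * n) ^ (i + 2) / (2 * ((i : ℝ) + 2))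
        + τ * (∑ v ∈ U0 V, q v) - (a * n) ^ (i + 2) / 2
        - ((i : ℝ) + 2) * (n ^ (i + 1) * p ^ (i + 2)))
        = (a * n) ^ (i + 2) + ((i : ℝ) + 2) * (τ * (2 * ∑ v ∈ U0 V, q v) - (a * n) ^ (i + 2))
          - 2 * (((i : ℝ) + 2) ^ 2 * n ^ (i + 1) * p ^ (i + 2)) := by
      field_simp; ring
    have : 0 ≤ ((i : ℝ) + 2) ^ 2 * n ^ (i + 1) * p ^ (i + 2) := by positivity
    rw [e4]
    have e5 : (i : ℝ) + 1 + 1 = i + 2 := by ring
    rw [e5] at h2 h3
    linarith
  rw [e1, e2]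
  have h7 : τ * ((U0 V).card * a) = (a * n) ^ (i + 2) / 2 - τ * (a * n) / 2 := by
    rw [e3]
    have : ((U0 V).card : ℝ) = (n ^ 2 - n) / 2 := by linarith
    rw [this]; ring
  have : 0 ≤ τ * (a * n) := by positivity
  nlinarith

end Pool.Agent.P.MP_4376e9_pr
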