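import Pool.Agent.P.MP_4376e9_pr.Basic

/-!
One-step inequality for the upper bound on the partition function.
-/

set_option linter.unusedSectionVars false
set_option linter.unusedVariables false

namespace Pool.Agent.P.MP_4376e9_pr
open Finset

variable {α : Type*} [DecidableEq α] [Fintype α]

/-- Near-convexity of the edge polynomial on the box below `zbar`. -/
def Conv (H : Finset (Finset α)) (zbar : α → ℝ) (ω : ℝ) : Prop :=
  ∀ m : α → ℝ, (∀ v, 0 ≤ m v) → (∀ v, m v ≤ zbar v) →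
    ∃ L : (α → ℝ) →ₗ[ℝ] ℝ, ∀ a : α → ℝ, (∀ v, 0 ≤ a v) → (∀ v, a v ≤ zbar v) →
      Lam H m + L (a - m) - ω * ∑ v, (a v - m v) ^ 2 ≤ Lam H a

/-- Pairs of distinct edges sharing at least two vertices. -/
noncomputable def Pairs (H : Finset (Finset α)) (z : α → ℝ) : ℝ :=
  ∑ e ∈ H, ∑ e' ∈ H.filter (fun e' => e' ≠ e ∧ 2 ≤ (e ∩ e').card), ∏ v ∈ e ∪ e', z v

lemma Pairs_nonneg (H : Finset (Finset α)) {z : α → ℝ} (hz : ∀ v, 0 ≤ z v) : 0 ≤ Pairs H z :=
  sum_nonneg fun _ _ => sum_nonneg fun _ _ => prod_nonneg fun v _ => hz v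

lemma super_Pairs {p : ℝ} (hp : 0 ≤ p) (H : Finset (Finset α)) :
    Super p (fun U I => Pairs H (zb p U I)) :=
  Super.sum H fun e _ => Super.sum _ fun e' _ => super_mono hp (e ∪ e')

lemma prod_diff_le (s : Finset α) {a b z : α → ℝ} (ha0 : ∀ v, 0 ≤ a v) (ha : ∀ v, a v ≤ z v)
    (hb0 : ∀ v, 0 ≤ b v) (hb : ∀ v, b v ≤ z v) :
    |∏ v ∈ s, a v - ∏ v ∈ s, b v| ≤ ∑ v ∈ s, |a v - b v| * ∏ w ∈ s.erase v, z w := by
  induction s using Finset.induction_on with
  | empty => simp
  | insert x s hx ih =>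
    rw [prod_insert hx, prod_insert hx, sum_insert hx, erase_insert hx]
    have e : a x * ∏ v ∈ s, a v - b x * ∏ v ∈ s, b v
        = (a x - b x) * ∏ v ∈ s, a v + b x * (∏ v ∈ s, a v - ∏ v ∈ s, b v) := by ring
    have h1 : ∏ v ∈ s, a v ≤ ∏ v ∈ s, z v := prod_le_prod (fun v _ => ha0 v) (fun v _ => ha v)
    have h0 : 0 ≤ ∏ v ∈ s, a v := prod_nonneg fun v _ => ha0 v
    have h2 : ∑ v ∈ s, |a v - b v| * ∏ w ∈ (insert x s).erase v, z w
        = z x * ∑ v ∈ s, |a v - b v| * ∏ w ∈ s.erase v, z w := by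
      rw [mul_sum]
      apply sum_congr rfl
      intro v hv
      have hvx : x ≠ v := fun h => hx (h ▸ hv)
      rw [erase_insert_of_ne hvx, prod_insert (fun h => hx (mem_of_mem_erase h))]
      ring
    rw [e, h2]
    calc |(a x - b x) * ∏ v ∈ s, a v + b x * (∏ v ∈ s, a v - ∏ v ∈ s, b v)|
        ≤ |(a x - b x) * ∏ v ∈ s, a v| + |b x * (∏ v ∈ s, a v - ∏ v ∈ s, b v)| := abs_add_le _ _
      _ = |a x - b x| * ∏ v ∈ s, a v + b x * |∏ v ∈ s, a v - ∏ v ∈ s, b v| := by
          rw [abs_mul, abs_mul, abs_of_nonneg h0, abs_of_nonneg (hb0 x)]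
      _ ≤ _ := by
          apply add_le_add
          · exact mul_le_mul_of_nonneg_left h1 (abs_nonneg _)
          · exact mul_le_mul (hb x) ih (abs_nonneg _) ((hb0 x).trans (hb x))

/-- Link polynomial. -/
noncomputable def LamU (H : Finset (Finset α)) (u : α) (z : α → ℝ) : ℝ :=
  ∑ e ∈ H.filter (fun e => u ∈ e), ∏ v ∈ e.erase u, z v

lemma Lam_change (H : Finset (Finset α)) (u : α) {z z' : α → ℝ} (h : ∀ v, v ≠ u → z' v = z v) :
    Lam H z' = Lam H z + (z' u - z u) * LamU H u z := by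
  unfold Lam LamU
  rw [sum_filter, mul_sum, ← sum_add_distrib]
  apply sum_congr rfl
  intro e _
  split_ifs with hu
  · rw [← mul_prod_erase e _ hu, ← mul_prod_erase e _ hu]
    have : ∏ v ∈ e.erase u, z' v = ∏ v ∈ e.erase u, z v :=
      prod_congr rfl fun v hv => h v (ne_of_mem_erase hv)
    rw [this]; ring
  · rw [mul_zero, add_zero]
    exact prod_congr rfl fun v hv => h v (ne_of_mem_of_not_mem hv hu)

/-- Weight of the rest of an edge through `u` and `v`. -/
noncomputable def gg (z : α → ℝ) (u v : α) (e : Finset α) : ℝ :=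
  ∏ w ∈ (e.erase u).erase v, z w

/-- Weighted codegree. -/
noncomputable def gam (H : Finset (Finset α)) (z : α → ℝ) (u v : α) : ℝ :=
  ∑ e ∈ H.filter (fun e => u ∈ e ∧ v ∈ e), gg z u v e

/-- Off-diagonal part of the square of the weighted codegree. -/
noncomputable def pii (H : Finset (Finset α)) (z : α → ℝ) (u v : α) : ℝ :=
  ∑ e ∈ H.filter (fun e => u ∈ e ∧ v ∈ e),
    ∑ e' ∈ (H.filter (fun e => u ∈ e ∧ v ∈ e)).erase e, gg z u v e * gg z u v e'

lemma gg_nonneg {z : α → ℝ} (hz : ∀ v, 0 ≤ z v) (u v : α) (e : Finset α) : 0 ≤ gg z u v e :=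
  prod_nonneg fun w _ => hz w

lemma gam_nonneg (H : Finset (Finset α)) {z : α → ℝ} (hz : ∀ v, 0 ≤ z v) (u v : α) :
    0 ≤ gam H z u v := sum_nonneg fun e _ => gg_nonneg hz u v e

lemma pii_nonneg (H : Finset (Finset α)) {z : α → ℝ} (hz : ∀ v, 0 ≤ z v) (u v : α) :
    0 ≤ pii H z u v :=
  sum_nonneg fun e _ => sum_nonneg fun e' _ => mul_nonneg (gg_nonneg hz u v e) (gg_nonneg hz u v e')

lemma gam_sq (H : Finset (Finset α)) (z : α → ℝ) (u v : α) :
    gam H z u v ^ 2 = pii H z u v + ∑ e ∈ H.filter (fun e => u ∈ e ∧ v ∈ e), gg z u v e ^ 2 := by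
  unfold gam pii
  rw [sq, sum_mul_sum, ← sum_add_distrib]
  apply sum_congr rfl
  intro e he
  rw [← add_sum_erase _ _ he]
  ring

lemma gam_sq_le (H : Finset (Finset α)) {z : α → ℝ} (hz : ∀ v, 0 ≤ z v) (u v : α) {p : ℝ}
    (h : ∀ e ∈ H, u ∈ e → v ∈ e → gg z u v e ≤ p) :
    gam H z u v ^ 2 ≤ pii H z u v + p * gam H z u v := by
  rw [gam_sq]
  unfold gam
  rw [mul_sum]
  gcongr with e he
  rw [mem_filter] at he
  rw [sq]
  exact mul_le_mul_of_nonneg_right (h e he.1 he.2.1 he.2.2) (gg_nonneg hz u v e)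

lemma gam_sub_one_le (H : Finset (Finset α)) {z : α → ℝ} (hz : ∀ v, 0 ≤ z v) (u v : α)
    {e₀ : Finset α} (he₀ : e₀ ∈ H) (hu : u ∈ e₀) (hv : v ∈ e₀) (h1 : gg z u v e₀ = 1) :
    1 ≤ gam H z u v ∧ gam H z u v - 1 ≤ pii H z u v := by
  have hm : e₀ ∈ H.filter (fun e => u ∈ e ∧ v ∈ e) := mem_filter.mpr ⟨he₀, hu, hv⟩
  have e1 : gam H z u v = 1 + ∑ e' ∈ (H.filter (fun e => u ∈ e ∧ v ∈ e)).erase e₀,
      gg z u v e' := by
    unfold gam; rw [← add_sum_erase _ _ hm, h1]
  have h2 : 0 ≤ ∑ e' ∈ (H.filter (fun e => u ∈ e ∧ v ∈ e)).erase e₀, gg z u v e' :=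
    sum_nonneg fun e _ => gg_nonneg hz u v e
  refine ⟨by linarith, ?_⟩
  rw [e1, add_sub_cancel_left]
  unfold pii
  have h3 := single_le_sum (s := H.filter (fun e => u ∈ e ∧ v ∈ e))
    (f := fun e => ∑ e' ∈ (H.filter (fun e => u ∈ e ∧ v ∈ e)).erase e, gg z u v e * gg z u v e')
    (fun e _ => sum_nonneg fun e' _ => mul_nonneg (gg_nonneg hz u v e) (gg_nonneg hz u v e')) hm
  simp only [h1, one_mul] at h3
  exact h3

lemma LamU_diff (H : Finset (Finset α)) (u : α) {a b z : α → ℝ} (ha0 : ∀ v, 0 ≤ a v)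
    (ha : ∀ v, a v ≤ z v) (hb0 : ∀ v, 0 ≤ b v) (hb : ∀ v, b v ≤ z v) (W : Finset α)
    (huW : u ∉ W) (hW : ∀ v, v ∉ W → a v = b v) :
    LamU H u b - LamU H u a ≤ ∑ v ∈ W, |a v - b v| * gam H z u v := by
  have hz : ∀ v, 0 ≤ z v := fun v => (ha0 v).trans (ha v)
  unfold LamU gam
  rw [← sum_sub_distrib]
  calc ∑ e ∈ H.filter (fun e => u ∈ e), (∏ v ∈ e.erase u, b v - ∏ v ∈ e.erase u, a v)
      ≤ ∑ e ∈ H.filter (fun e => u ∈ e), ∑ v ∈ W,
          if v ∈ e then |a v - b v| * gg z u v e else 0 := by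
        apply sum_le_sum
        intro e _
        calc ∏ v ∈ e.erase u, b v - ∏ v ∈ e.erase u, a v
            ≤ |∏ v ∈ e.erase u, a v - ∏ v ∈ e.erase u, b v| := by
              rw [abs_sub_comm]; exact le_abs_self _
          _ ≤ ∑ v ∈ e.erase u, |a v - b v| * gg z u v e := prod_diff_le _ ha0 ha hb0 hb
          _ = ∑ v ∈ (e.erase u).filter (fun v => v ∈ W), |a v - b v| * gg z u v e := by
              rw [sum_filter]
              apply sum_congr rfl
              intro v _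
              split_ifs with h
              · rfl
              · rw [hW v h]; simp
          _ = ∑ v ∈ W, if v ∈ e then |a v - b v| * gg z u v e else 0 := by
              rw [← sum_filter]
              apply sum_congr _ (fun _ _ => rfl)
              ext v
              simp only [mem_filter, mem_erase]
              constructor
              · rintro ⟨⟨_, h2⟩, h3⟩; exact ⟨h3, h2⟩
              · rintro ⟨h3, h2⟩; exact ⟨⟨ne_of_mem_of_not_mem h3 huW, h2⟩, h3⟩
    _ = _ := by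
        rw [sum_comm]
        apply sum_congr rfl
        intro v _
        rw [← sum_filter, filter_filter, mul_sum]

/-- The per-vertex inequality. -/
lemma upper_vertex {p η ω t x y w γ π : ℝ} (hp0 : 0 < p) (hp1 : p ≤ 1 / 2) (hη0 : 0 ≤ η)
    (hη1 : η ≤ 1 / 2) (hω : ω ≤ η / (4 * p)) (ht0 : 0 ≤ t) (htp : t ≤ p)
    (hx : 0 ≤ x) (hxp : x ≤ p) (hy : 0 ≤ y) (hyp : y ≤ p) (hw : w = t * x + (1 - t) * y)
    (hγ : 0 ≤ γ) (hπ : 0 ≤ π)
    (hcase : 0 < t → 0 < w → (x = 0 ∧ 1 ≤ γ ∧ γ - 1 ≤ π) ∨ γ ^ 2 ≤ π + p * γ) :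
    - (p ^ 2 * ((η + 2 * p) * γ + 2 * π)) ≤
      (t * kap p x + (1 - t) * kap p y - kap p w)
        - ω * (t * (x - w) ^ 2 + (1 - t) * (y - w) ^ 2) - t * (|x - w| * γ) := by
  have ht1 : t ≤ 1 := by linarith
  have hJ := jensen_sq hp0 ht0 ht1 hx hxp hy hyp hw
  set J := t * kap p x + (1 - t) * kap p y - kap p w with hJdef
  set S := t * (x - w) ^ 2 + (1 - t) * (y - w) ^ 2 with hSdef
  have hS0 : 0 ≤ S := by
    rw [hSdef]; have : 0 ≤ 1 - t := by linarith
    positivity
  have hJ0 : 0 ≤ J := le_trans (by positivity) hJ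
  have h1 : ω * S ≤ η * J := by
    calc ω * S ≤ η / (4 * p) * S := mul_le_mul_of_nonneg_right hω hS0
      _ = η * (S / (4 * p)) := by ring
      _ ≤ η * J := mul_le_mul_of_nonneg_left hJ hη0
  have hE : 0 ≤ p ^ 2 * ((η + 2 * p) * γ + 2 * π) := by positivity
  have hw0 : 0 ≤ w := by rw [hw]; nlinarith
  have hwp : w ≤ p := by rw [hw]; nlinarith
  have h2 : 0 ≤ (1 - η) * J := mul_nonneg (by linarith) hJ0
  rcases ht0.eq_or_lt with h0 | h0
  · rw [← h0]; simp only [zero_mul, sub_zero]; nlinarith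
  rcases hw0.eq_or_lt with hw' | hw'
  · have : t * x = 0 := by nlinarith [mul_nonneg ht0 hx, mul_nonneg (sub_nonneg.mpr ht1) hy]
    have hx0 : x = 0 := by
      rcases mul_eq_zero.mp this with h | h
      · exact absurd h h0.ne'
      · exact h
    have : |x - w| = 0 := by rw [hx0, ← hw']; simp
    rw [this]; simp only [zero_mul, mul_zero, sub_zero]; nlinarith
  rcases hcase h0 hw' with ⟨hx0, hg1, hg2⟩ | hg
  · have hk : t * w ≤ J := by
      rw [hJdef, hx0]
      exact jensen_kill hp0 ht0 ht1 hy (by rw [hw, hx0])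
    have : |x - w| = w := by rw [hx0, zero_sub, abs_neg, abs_of_pos hw']
    rw [this]
    have htw : t * w ≤ p ^ 2 := by nlinarith
    have htw0 : 0 ≤ t * w := by positivity
    have h3 : (1 - η) * (t * w) ≤ (1 - η) * J := mul_le_mul_of_nonneg_left hk (by linarith)
    have h4 : t * w * (η + (γ - 1)) ≤ p ^ 2 * (η * γ + π) := by
      apply mul_le_mul htw _ (by linarith) (by positivity)
      nlinarith
    have h5 : p ^ 2 * (η * γ + π) ≤ p ^ 2 * ((η + 2 * p) * γ + 2 * π) := by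
      apply mul_le_mul_of_nonneg_left _ (by positivity)
      nlinarith
    nlinarith
  · have h3 : t * (x - w) ^ 2 / (4 * p) ≤ J := by
      refine le_trans ?_ hJ
      apply div_le_div_of_nonneg_right _ (by positivity)
      rw [hSdef]; have : 0 ≤ (1 - t) * (y - w) ^ 2 := mul_nonneg (by linarith) (sq_nonneg _)
      linarith
    have h4 : |x - w| * γ ≤ (x - w) ^ 2 / (8 * p) + 2 * p * γ ^ 2 := by
      have e : (x - w) ^ 2 / (8 * p) + 2 * p * γ ^ 2 - |x - w| * γ
          = (|x - w| - 4 * p * γ) ^ 2 / (8 * p) := by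
        field_simp
        rw [← sq_abs (x - w)]; ring
      have : 0 ≤ (|x - w| - 4 * p * γ) ^ 2 / (8 * p) := by positivity
      linarith
    have h5 : t * (|x - w| * γ) ≤ t * ((x - w) ^ 2 / (8 * p) + 2 * p * γ ^ 2) :=
      mul_le_mul_of_nonneg_left h4 ht0
    have h6 : t * ((x - w) ^ 2 / (8 * p)) ≤ (1 - η) * J := by
      have e : t * ((x - w) ^ 2 / (8 * p)) = (1 / 2) * (t * (x - w) ^ 2 / (4 * p)) := by
        field_simp; ring
      rw [e]
      nlinarith
    have h7 : t * (2 * p * γ ^ 2) ≤ p * (2 * p * (π + p * γ)) := by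
      apply mul_le_mul htp _ (by positivity) hp0.le
      exact mul_le_mul_of_nonneg_left hg (by positivity)
    have h8 : 0 ≤ p ^ 2 * (η * γ) := by positivity
    nlinarith

lemma upper_step (H : Finset (Finset α)) {p η ω : ℝ} (hp0 : 0 < p) (hp1 : p ≤ 1 / 2)
    (hη0 : 0 ≤ η) (hη1 : η ≤ 1 / 2) (hω : ω ≤ η / (4 * p))
    {U I : Finset α} (hd : Disjoint U I) {u : α} (hu : u ∈ U) {q qp qm : α → ℝ}
    (hq0 : ∀ v ∈ U, 0 ≤ q v) (hq1 : ∀ v ∈ U, q v ≤ p)
    (hqp0 : ∀ v ∈ U.erase u, 0 ≤ qp v) (hqp1 : ∀ v ∈ U.erase u, qp v ≤ p)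
    (hqm0 : ∀ v ∈ U.erase u, 0 ≤ qm v) (hqm1 : ∀ v ∈ U.erase u, qm v ≤ p)
    (hmart : ∀ v ∈ U.erase u, q v = q u * qp v + (1 - q u) * qm v)
    (hblock : ∀ v ∈ U, ¬ Ind H (insert v I) → q v = 0)
    (hkill : ∀ v ∈ U.erase u, ¬ Ind H (insert v (insert u I)) → qp v = 0)
    (hconv : Conv H (zb p U I) ω) :
    ∑ v ∈ U, kap p (q v) + Lam H (ext U I q) ≤
      kap p (q u)
        + q u * (∑ v ∈ U.erase u, kap p (qp v) + Lam H (ext (U.erase u) (insert u I) qp))
        + (1 - q u) * (∑ v ∈ U.erase u, kap p (qm v) + Lam H (ext (U.erase u) I qm))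
        + p ^ 2 * ∑ v ∈ U.erase u,
            ((η + 2 * p) * gam H (zb p U I) u v + 2 * pii H (zb p U I) u v) := by
  set t := q u with ht
  have ht0 : 0 ≤ t := hq0 u hu
  have htp : t ≤ p := hq1 u hu
  have huI : u ∉ I := disjoint_left.mp hd hu
  set z := zb p U I with hz
  have hz0 : ∀ v, 0 ≤ z v := zb_nonneg hp0.le U I
  have hz1 : ∀ v, z v ≤ 1 := zb_le_one (by linarith) U I
  set a := ext U I (Function.update qp u t) with ha
  set b := ext U I (Function.update qm u t) with hb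
  set m := ext U I q with hm
  have upd0 : ∀ f : α → ℝ, (∀ v ∈ U.erase u, 0 ≤ f v) → ∀ v ∈ U, 0 ≤ Function.update f u t v := by
    intro f hf v hv
    by_cases h : v = u
    · rw [h, Function.update_self]; exact ht0
    · rw [Function.update_of_ne h]; exact hf v (mem_erase.mpr ⟨h, hv⟩)
  have upd1 : ∀ f : α → ℝ, (∀ v ∈ U.erase u, f v ≤ p) → ∀ v ∈ U, Function.update f u t v ≤ p := by
    intro f hf v hv
    by_cases h : v = u
    · rw [h, Function.update_self]; exact htp
    · rw [Function.update_of_ne h]; exact hf v (mem_erase.mpr ⟨h, hv⟩)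
  have ha0 : ∀ v, 0 ≤ a v := ext_nonneg (upd0 qp hqp0)
  have ha1 : ∀ v, a v ≤ z v := ext_le_zb (upd1 qp hqp1)
  have hb0 : ∀ v, 0 ≤ b v := ext_nonneg (upd0 qm hqm0)
  have hb1 : ∀ v, b v ≤ z v := ext_le_zb (upd1 qm hqm1)
  have hm0 : ∀ v, 0 ≤ m v := ext_nonneg hq0
  have hm1 : ∀ v, m v ≤ z v := ext_le_zb hq1
  have ha_in : ∀ v ∈ U.erase u, a v = qp v := by
    intro v hv
    simp [ha, ext, mem_of_mem_erase hv, Function.update_of_ne (ne_of_mem_erase hv)]
  have hb_in : ∀ v ∈ U.erase u, b v = qm v := by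
    intro v hv
    simp [hb, ext, mem_of_mem_erase hv, Function.update_of_ne (ne_of_mem_erase hv)]
  have hm_in : ∀ v ∈ U.erase u, m v = q v := by
    intro v hv
    simp [hm, ext, mem_of_mem_erase hv]
  have ha_out : ∀ v, v ∉ U.erase u → a v = m v := by
    intro v hv
    by_cases h : v = u
    · simp [ha, hm, ext, h, hu, ht]
    · have : v ∉ U := fun h' => hv (mem_erase.mpr ⟨h, h'⟩)
      simp [ha, hm, ext, this]
  have hb_out : ∀ v, v ∉ U.erase u → b v = m v := by
    intro v hv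
    by_cases h : v = u
    · simp [hb, hm, ext, h, hu, ht]
    · have : v ∉ U := fun h' => hv (mem_erase.mpr ⟨h, h'⟩)
      simp [hb, hm, ext, this]
  obtain ⟨L, hL⟩ := hconv m hm0 hm1
  have hLa := hL a ha0 ha1
  have hLb := hL b hb0 hb1
  have hlin : t * L (a - m) + (1 - t) * L (b - m) = 0 := by
    rw [← smul_eq_mul, ← smul_eq_mul, ← map_smul, ← map_smul, ← map_add]
    have : t • (a - m) + (1 - t) • (b - m) = 0 := by
      funext v
      simp only [Pi.add_apply, Pi.smul_apply, Pi.sub_apply, smul_eq_mul, Pi.zero_apply]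
      by_cases hv : v ∈ U.erase u
      · rw [ha_in v hv, hb_in v hv, hm_in v hv, hmart v hv]; ring
      · rw [ha_out v hv, hb_out v hv]; ring
    rw [this, map_zero]
  have hsa : ∑ v, (a v - m v) ^ 2 = ∑ v ∈ U.erase u, (qp v - q v) ^ 2 := by
    rw [← sum_subset (subset_univ (U.erase u))]
    · exact sum_congr rfl fun v hv => by rw [ha_in v hv, hm_in v hv]
    · intro v _ hv; rw [ha_out v hv]; simp
  have hsb : ∑ v, (b v - m v) ^ 2 = ∑ v ∈ U.erase u, (qm v - q v) ^ 2 := by
    rw [← sum_subset (subset_univ (U.erase u))]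
    · exact sum_congr rfl fun v hv => by rw [hb_in v hv, hm_in v hv]
    · intro v _ hv; rw [hb_out v hv]; simp
  have hau : a u = t := by simp [ha, ext, hu]
  have hbu : b u = t := by simp [hb, ext, hu]
  have hplus : Lam H (ext (U.erase u) (insert u I) qp) = Lam H a + (1 - t) * LamU H u a := by
    rw [Lam_change H u (z := a), hau]
    · simp [ext]
    · intro v hv
      simp [ha, ext, hv]
  have hminus : Lam H (ext (U.erase u) I qm) = Lam H b + (0 - t) * LamU H u b := by
    rw [Lam_change H u (z := b), hbu]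
    · simp [ext, huI]
    · intro v hv
      simp [hb, ext, hv]
  have hdiff := LamU_diff H u ha0 ha1 hb0 hb1 (U.erase u) (notMem_erase u U)
    (fun v hv => by rw [ha_out v hv, hb_out v hv])
  have hdiff2 : (1 - t) * ∑ v ∈ U.erase u, |a v - b v| * gam H z u v
      = ∑ v ∈ U.erase u, |qp v - q v| * gam H z u v := by
    rw [mul_sum]
    apply sum_congr rfl
    intro v hv
    have : qp v - q v = (1 - t) * (qp v - qm v) := by rw [hmart v hv]; ring
    rw [this, abs_mul, abs_of_nonneg (show 0 ≤ 1 - t by linarith), ha_in v hv, hb_in v hv]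
    ring
  have hvert : ∀ v ∈ U.erase u,
      - (p ^ 2 * ((η + 2 * p) * gam H z u v + 2 * pii H z u v)) ≤
      (t * kap p (qp v) + (1 - t) * kap p (qm v) - kap p (q v))
        - ω * (t * (qp v - q v) ^ 2 + (1 - t) * (qm v - q v) ^ 2)
        - t * (|qp v - q v| * gam H z u v) := by
    intro v hv
    have hvU := mem_of_mem_erase hv
    have hvu := ne_of_mem_erase hv
    apply upper_vertex hp0 hp1 hη0 hη1 hω ht0 htp (hqp0 v hv) (hqp1 v hv) (hqm0 v hv) (hqm1 v hv)
      (hmart v hv) (gam_nonneg H hz0 u v) (pii_nonneg H hz0 u v)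
    intro htpos hqpos
    have hIu : Ind H (insert u I) := by
      by_contra h; exact htpos.ne' (hblock u hu h)
    have hIv : Ind H (insert v I) := by
      by_contra h; exact hqpos.ne' (hblock v hvU h)
    by_cases hN : Ind H (insert v (insert u I))
    · right
      apply gam_sq_le H hz0
      intro e he hue hve
      obtain ⟨w, hwe, hw⟩ := not_subset.mp (hN e he)
      simp only [mem_insert, not_or] at hw
      have hw' : w ∈ (e.erase u).erase v := mem_erase.mpr ⟨hw.1, mem_erase.mpr ⟨hw.2.1, hwe⟩⟩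
      unfold gg
      rw [← mul_prod_erase _ _ hw']
      calc z w * ∏ x ∈ ((e.erase u).erase v).erase w, z x ≤ p * 1 :=
            mul_le_mul (zb_le_of_notMem hp0.le hw.2.2)
              (prod_le_one (fun x _ => hz0 x) (fun x _ => hz1 x))
              (prod_nonneg fun x _ => hz0 x) hp0.le
        _ = p := mul_one p
    · left
      refine ⟨hkill v hv hN, ?_⟩
      unfold Ind at hN
      push Not at hN
      obtain ⟨e, he, hsub⟩ := hN
      have hue : u ∈ e := by
        by_contra h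
        apply hIv e he
        intro x hx
        have := hsub hx
        simp only [mem_insert] at this ⊢
        rcases this with h1 | h1 | h1
        · exact Or.inl h1
        · exact absurd (h1 ▸ hx) h
        · exact Or.inr h1
      have hve : v ∈ e := by
        by_contra h
        apply hIu e he
        intro x hx
        have := hsub hx
        rw [mem_insert] at this
        rcases this with h1 | h1
        · exact absurd (h1 ▸ hx) h
        · exact h1
      apply gam_sub_one_le H hz0 u v he hue hve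
      unfold gg
      apply prod_eq_one
      intro w hw
      have hw1 := mem_erase.mp hw
      have hw2 := mem_erase.mp hw1.2
      have := hsub hw2.2
      simp only [mem_insert] at this
      rcases this with h1 | h1 | h1
      · exact absurd h1 hw1.1
      · exact absurd h1 hw2.1
      · exact zb_of_memI hd h1
  have hsum := sum_le_sum hvert
  simp only [sum_neg_distrib, sum_sub_distrib, sum_add_distrib, ← mul_sum] at hsum
  rw [← add_sum_erase U _ hu, hplus, hminus]
  simp only [sum_add_distrib, ← mul_sum]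
  rw [hsa] at hLa
  rw [hsb] at hLb
  have ht1 : 0 ≤ 1 - t := by linarith
  have k1 := mul_le_mul_of_nonneg_left hLa ht0
  have k2 := mul_le_mul_of_nonneg_left hLb ht1
  have k3 := mul_le_mul_of_nonneg_left (mul_le_mul_of_nonneg_left hdiff ht1) ht0
  rw [hdiff2] at k3
  rw [← ht]
  nlinarith

end Pool.Agent.P.MP_4376e9_pr
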