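import Pool.Agent.P.MP_4376e9_pr.Upper1

/-!
The abstract upper bound on the partition function.
-/

set_option linter.unusedSectionVars false
set_option linter.unusedVariables false

namespace Pool.Agent.P.MP_4376e9_pr
open Finset

variable {α : Type*} [DecidableEq α] [Fintype α]

lemma sum_pairs_le (H : Finset (Finset α)) {r : ℕ} (hr : ∀ e ∈ H, e.card ≤ r) (U : Finset α)
    {F : Finset α → ℝ} (hF : ∀ e ∈ H, 0 ≤ F e) :
    ∑ u ∈ U, ∑ v ∈ U.erase u, ∑ e ∈ H.filter (fun e => u ∈ e ∧ v ∈ e), F e
      ≤ (r : ℝ) ^ 2 * ∑ e ∈ H, F e := by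
  calc ∑ u ∈ U, ∑ v ∈ U.erase u, ∑ e ∈ H.filter (fun e => u ∈ e ∧ v ∈ e), F e
      ≤ ∑ u : α, ∑ v : α, ∑ e ∈ H.filter (fun e => u ∈ e ∧ v ∈ e), F e := by
        have h0 : ∀ u v : α, 0 ≤ ∑ e ∈ H.filter (fun e => u ∈ e ∧ v ∈ e), F e :=
          fun u v => sum_nonneg fun e he => hF e (mem_filter.mp he).1
        calc _ ≤ ∑ u ∈ U, ∑ v : α, ∑ e ∈ H.filter (fun e => u ∈ e ∧ v ∈ e), F e :=
              sum_le_sum fun u _ =>
                sum_le_sum_of_subset_of_nonneg (subset_univ _) fun v _ _ => h0 u v
          _ ≤ _ := sum_le_sum_of_subset_of_nonneg (subset_univ _)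
              fun u _ _ => sum_nonneg fun v _ => h0 u v
    _ = ∑ e ∈ H, (e.card : ℝ) ^ 2 * F e := by
        simp only [sum_filter]
        rw [sum_congr rfl fun u _ => sum_comm, sum_comm]
        apply sum_congr rfl
        intro e _
        simp only [ite_and, sum_ite_irrel, sum_const_zero, sum_ite_mem, univ_inter, sum_const,
          nsmul_eq_mul]
        ring
    _ ≤ _ := by
        rw [mul_sum]
        apply sum_le_sum
        intro e he
        apply mul_le_mul_of_nonneg_right _ (hF e he)
        have : (e.card : ℝ) ≤ r := by exact_mod_cast hr e he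
        exact pow_le_pow_left₀ (Nat.cast_nonneg _) this 2

lemma sq_mul_gg {p : ℝ} {U I : Finset α} {u v : α} (hu : u ∈ U) (hv : v ∈ U.erase u)
    {e : Finset α} (hue : u ∈ e) (hve : v ∈ e) :
    p ^ 2 * gg (zb p U I) u v e = ∏ w ∈ e, zb p U I w := by
  unfold gg
  rw [← mul_prod_erase e _ hue,
    ← mul_prod_erase (e.erase u) _ (mem_erase.mpr ⟨ne_of_mem_erase hv, hve⟩),
    zb_of_mem hu, zb_of_mem (mem_of_mem_erase hv)]
  ring

lemma sum_gam_le (H : Finset (Finset α)) {r : ℕ} (hr : ∀ e ∈ H, e.card ≤ r) {p : ℝ} (hp : 0 ≤ p)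
    (U I : Finset α) :
    ∑ u ∈ U, ∑ v ∈ U.erase u, p ^ 2 * gam H (zb p U I) u v ≤ (r : ℝ) ^ 2 * Lam H (zb p U I) := by
  refine le_trans (le_of_eq ?_) (sum_pairs_le H hr U
    (F := fun e => ∏ w ∈ e, zb p U I w) (fun e _ => prod_nonneg fun w _ => zb_nonneg hp U I w))
  apply sum_congr rfl
  intro u hu
  apply sum_congr rfl
  intro v hv
  unfold gam
  rw [mul_sum]
  apply sum_congr rfl
  intro e he
  rw [mem_filter] at he
  exact sq_mul_gg hu hv he.2.1 he.2.2

lemma sum_pii_le (H : Finset (Finset α)) {r : ℕ} (hr : ∀ e ∈ H, e.card ≤ r) {p : ℝ} (hp : 0 ≤ p)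
    (hp1 : p ≤ 1) (U I : Finset α) :
    ∑ u ∈ U, ∑ v ∈ U.erase u, p ^ 2 * pii H (zb p U I) u v ≤ (r : ℝ) ^ 2 * Pairs H (zb p U I) := by
  have hz0 := zb_nonneg hp U I
  have hz1 := zb_le_one hp1 U I
  refine le_trans ?_ (sum_pairs_le H hr U
    (F := fun e => ∑ e' ∈ H.filter (fun e' => e' ≠ e ∧ 2 ≤ (e ∩ e').card),
      ∏ w ∈ e ∪ e', zb p U I w)
    (fun e _ => sum_nonneg fun e' _ => prod_nonneg fun w _ => hz0 w))
  apply sum_le_sum
  intro u hu
  apply sum_le_sum
  intro v hv
  unfold pii
  rw [mul_sum]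
  apply sum_le_sum
  intro e he
  rw [mem_filter] at he
  rw [mul_sum]
  calc ∑ e' ∈ (H.filter (fun e => u ∈ e ∧ v ∈ e)).erase e,
        p ^ 2 * (gg (zb p U I) u v e * gg (zb p U I) u v e')
      ≤ ∑ e' ∈ (H.filter (fun e => u ∈ e ∧ v ∈ e)).erase e, ∏ w ∈ e ∪ e', zb p U I w := by
        apply sum_le_sum
        intro e' he'
        have he2 := mem_filter.mp (mem_of_mem_erase he')
        rw [← mul_assoc, sq_mul_gg hu hv he.2.1 he.2.2]
        unfold gg
        have hun : e ∪ (e'.erase u).erase v = e ∪ e' := by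
          ext x
          simp only [mem_union, mem_erase]
          constructor
          · rintro (h | h)
            · exact Or.inl h
            · exact Or.inr h.2.2
          · rintro (h | h)
            · exact Or.inl h
            · by_cases h1 : x = v
              · exact Or.inl (h1 ▸ he.2.2)
              · by_cases h2 : x = u
                · exact Or.inl (h2 ▸ he.2.1)
                · exact Or.inr ⟨h1, h2, h⟩
        rw [← prod_union_inter, hun]
        calc (∏ x ∈ e ∪ e', zb p U I x) * ∏ x ∈ e ∩ (e'.erase u).erase v, zb p U I x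
            ≤ (∏ x ∈ e ∪ e', zb p U I x) * 1 :=
              mul_le_mul_of_nonneg_left (prod_le_one (fun x _ => hz0 x) (fun x _ => hz1 x))
                (prod_nonneg fun x _ => hz0 x)
          _ = _ := mul_one _
    _ ≤ _ := by
        apply sum_le_sum_of_subset_of_nonneg
        · intro e' he'
          have he1 := mem_erase.mp he'
          have he2 := mem_filter.mp he1.2
          refine mem_filter.mpr ⟨he2.1, he1.1, ?_⟩
          have hsub : ({u, v} : Finset α) ⊆ e ∩ e' := by
            intro x hx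
            simp only [mem_insert, mem_singleton] at hx
            rcases hx with rfl | rfl
            · exact mem_inter.mpr ⟨he.2.1, he2.2.1⟩
            · exact mem_inter.mpr ⟨he.2.2, he2.2.2⟩
          have := card_le_card hsub
          rwa [card_pair (ne_of_mem_erase hv).symm] at this
        · intro e' _ _
          exact prod_nonneg fun w _ => hz0 w

/-- True conditional marginal. -/
noncomputable def mq (H : Finset (Finset α)) (p : ℝ) (U I : Finset α) (v : α) : ℝ :=
  p * Zf H p (U.erase v) (insert v I) / Zf H p U I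

lemma mq_nonneg (H : Finset (Finset α)) {p : ℝ} (hp0 : 0 ≤ p) (hp1 : p ≤ 1) (U I : Finset α)
    (v : α) : 0 ≤ mq H p U I v :=
  div_nonneg (mul_nonneg hp0 (Zf_nonneg H hp0 hp1 _ _)) (Zf_nonneg H hp0 hp1 _ _)

lemma mq_le (H : Finset (Finset α)) {p : ℝ} (hp0 : 0 ≤ p) (hp1 : p ≤ 1) {U : Finset α}
    (I : Finset α) {v : α} (hv : v ∈ U) : mq H p U I v ≤ p := by
  unfold mq
  rcases (Zf_nonneg H hp0 hp1 U I).eq_or_lt with h | h
  · rw [← h, div_zero]; exact hp0
  rw [div_le_iff₀ h]
  apply mul_le_mul_of_nonneg_left _ hp0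
  rw [Zf_erase H p U I v hv]
  have := Zf_anti H hp0 hp1 (U.erase v) (subset_insert v I)
  nlinarith

lemma mq_block (H : Finset (Finset α)) (p : ℝ) (U I : Finset α) {v : α}
    (h : ¬ Ind H (insert v I)) : mq H p U I v = 0 := by
  unfold mq
  rw [Zf_eq_zero H p _ h]; simp

lemma mq_mart (H : Finset (Finset α)) {p : ℝ} (hp0 : 0 < p) (hp1 : p < 1) {U I : Finset α}
    (hI : Ind H I) {u v : α} (hu : u ∈ U) (hv : v ∈ U.erase u) :
    mq H p U I v = mq H p U I u * mq H p (U.erase u) (insert u I) v
      + (1 - mq H p U I u) * mq H p (U.erase u) I v := by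
  have hvu := ne_of_mem_erase hv
  have hZ := Zf_pos H hp0.le hp1 U hI
  have hZm := Zf_pos H hp0.le hp1 (U.erase u) hI
  have h1 := Zf_erase H p U I u hu
  have h2 := Zf_erase H p (U.erase v) (insert v I) u (mem_erase.mpr ⟨hvu.symm, hu⟩)
  have h3 := Zf_erase H p (U.erase u) (insert u I) v hv
  rw [erase_right_comm, insert_comm] at h2
  unfold mq
  set Z := Zf H p U I
  set Zp := Zf H p (U.erase u) (insert u I)
  set Zm := Zf H p (U.erase u) I
  set A := Zf H p ((U.erase u).erase v) (insert v (insert u I)) with hA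
  set B := Zf H p ((U.erase u).erase v) (insert v I)
  have hA0 : 0 ≤ A := Zf_nonneg H hp0.le hp1.le _ _
  have hC0 : 0 ≤ Zf H p ((U.erase u).erase v) (insert u I) := Zf_nonneg H hp0.le hp1.le _ _
  have e1 : 1 - p * Zp / Z = (1 - p) * Zm / Z := by
    field_simp; rw [h1]; ring
  rw [h2, e1]
  rcases (Zf_nonneg H hp0.le hp1.le (U.erase u) (insert u I)).eq_or_lt with h | h
  · have hZp : Zp = 0 := h.symm
    have hA' : A = 0 := by
      have : 0 ≤ (1 - p) * Zf H p ((U.erase u).erase v) (insert u I) :=
        mul_nonneg (by linarith) hC0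
      have h4 : p * A ≤ 0 := by linarith
      nlinarith
    rw [hZp, hA']
    simp only [mul_zero, zero_div, zero_add]
    field_simp
  · have hZp : Zp ≠ 0 := h.ne'
    field_simp

/-- The entropy potential at the true marginals. -/
noncomputable def GU (H : Finset (Finset α)) (p : ℝ) (U I : Finset α) : ℝ :=
  ∑ v ∈ U, kap p (mq H p U I v) + Lam H (ext U I (mq H p U I))

/-- Error polynomial for the upper bound. -/
noncomputable def EU (H : Finset (Finset α)) (r : ℕ) (p η : ℝ) (U I : Finset α) : ℝ :=
  (r : ℝ) ^ 2 * ((η + 2 * p) * Lam H (zb p U I) + 2 * Pairs H (zb p U I))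

theorem upper_main (H : Finset (Finset α)) {r : ℕ} (hr : ∀ e ∈ H, e.card ≤ r) {p η ω : ℝ}
    (hp0 : 0 < p) (hp1 : p ≤ 1 / 2) (hη0 : 0 ≤ η) (hη1 : η ≤ 1 / 2) (hω : ω ≤ η / (4 * p))
    (U₀ : Finset α) (B : Finset α → Finset α → ℝ) (hBs : Super p B) (hB0 : ∀ U I, 0 ≤ B U I)
    (hgood : ∀ U I, U ⊆ U₀ → I ⊆ U₀ → Conv H (zb p U I) ω ∨ (H.card : ℝ) ≤ B U I) :
    ∀ (M : ℕ) (U I : Finset α), U.card = M → Disjoint U I → Ind H I → U ⊆ U₀ → I ⊆ U₀ →
      GU H p U I - harm M * EU H r p η U I - M * B U I ≤ - Real.log (Zf H p U I) := by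
  have hp1' : p < 1 := by linarith
  have hEs : Super p (EU H r p η) :=
    ((( super_Lam hp0.le H).smul (show 0 ≤ η + 2 * p by linarith)).add
      ((super_Pairs hp0.le H).smul (show (0 : ℝ) ≤ 2 by norm_num))).smul (sq_nonneg (r : ℝ))
  have hE0 : ∀ U I, 0 ≤ EU H r p η U I := by
    intro U I
    have h1 := Lam_nonneg H (zb_nonneg hp0.le U I)
    have h2 := Pairs_nonneg H (zb_nonneg hp0.le U I)
    unfold EU
    have : 0 ≤ η + 2 * p := by linarith
    positivity
  intro M
  induction M with
  | zero =>
    intro U I hU hd hI _ _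
    rw [card_eq_zero] at hU
    subst hU
    simp [GU, Zf_empty H p hI, Lam_ext_empty hI, harm]
  | succ M ih =>
    intro U I hU hd hI hU0 hI0
    have hq0 : ∀ U I v, 0 ≤ mq H p U I v := fun U I v => mq_nonneg H hp0.le hp1'.le U I v
    have hq1 : ∀ U I, ∀ v ∈ U, mq H p U I v ≤ p := fun U I v hv => mq_le H hp0.le hp1'.le I hv
    -- the chain rule with the induction hypothesis
    have key : ∀ u ∈ U,
        kap p (mq H p U I u) + mq H p U I u * GU H p (U.erase u) (insert u I)
          + (1 - mq H p U I u) * GU H p (U.erase u) I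
          - harm M * EU H r p η U I - M * B U I ≤ - Real.log (Zf H p U I) := by
      intro u hu
      have huI : u ∉ I := disjoint_left.mp hd hu
      have hcard : (U.erase u).card = M := by rw [card_erase_of_mem hu, hU]; rfl
      have hsub : U.erase u ⊆ U₀ := (erase_subset u U).trans hU0
      have hm := ih (U.erase u) I hcard (hd.mono_left (erase_subset u U)) hI hsub hI0
      set t := mq H p U I u with ht
      have ht0 : 0 ≤ t := hq0 U I u
      have htp : t ≤ p := hq1 U I u hu
      have hpl : t * (GU H p (U.erase u) (insert u I) - harm M * EU H r p η (U.erase u) (insert u I)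
          - M * B (U.erase u) (insert u I))
          ≤ t * (- Real.log (Zf H p (U.erase u) (insert u I))) := by
        by_cases hIu : Ind H (insert u I)
        · apply mul_le_mul_of_nonneg_left _ ht0
          apply ih (U.erase u) (insert u I) hcard _ hIu hsub (insert_subset (hU0 hu) hI0)
          rw [disjoint_insert_right]
          exact ⟨notMem_erase u U, hd.mono_left (erase_subset u U)⟩
        · have : t = 0 := mq_block H p U I hIu
          rw [this]; simp
      have hch := chain_eq hp0 hp1' (Zf_nonneg H hp0.le hp1'.le (U.erase u) (insert u I))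
        (Zf_pos H hp0.le hp1' (U.erase u) hI) (q := t)
        (by rw [ht, mq, ← Zf_erase H p U I u hu])
      rw [← Zf_erase H p U I u hu] at hch
      have hk := kap_le_klb hp1' (show t < 1 by linarith)
      have hm' := mul_le_mul_of_nonneg_left hm (show 0 ≤ 1 - t by linarith)
      have hE := mul_le_mul_of_nonneg_left (hEs U I u t hu huI ht0 htp) (harm_nonneg M)
      have hB := mul_le_mul_of_nonneg_left (hBs U I u t hu huI ht0 htp)
        (Nat.cast_nonneg M : (0 : ℝ) ≤ M)
      nlinarith
    have hsum := sum_le_sum key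
    simp only [sum_sub_distrib, sum_const, hU, nsmul_eq_mul] at hsum
    have hstep : ((M : ℝ) + 1) * GU H p U I - EU H r p η U I - ((M : ℝ) + 1) * B U I ≤
        ∑ u ∈ U, (kap p (mq H p U I u) + mq H p U I u * GU H p (U.erase u) (insert u I)
          + (1 - mq H p U I u) * GU H p (U.erase u) I) := by
      rcases hgood U I hU0 hI0 with hc | hb
      · have h1 : ∀ u ∈ U, GU H p U I ≤
            (kap p (mq H p U I u) + mq H p U I u * GU H p (U.erase u) (insert u I)
              + (1 - mq H p U I u) * GU H p (U.erase u) I)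
            + p ^ 2 * ∑ v ∈ U.erase u,
              ((η + 2 * p) * gam H (zb p U I) u v + 2 * pii H (zb p U I) u v) := by
          intro u hu
          exact upper_step H hp0 hp1 hη0 hη1 hω hd hu (fun v _ => hq0 _ _ v) (hq1 U I)
            (fun v _ => hq0 _ _ v) (hq1 _ _) (fun v _ => hq0 _ _ v) (hq1 _ _)
            (fun v hv => mq_mart H hp0 hp1' hI hu hv) (fun v _ h => mq_block H p U I h)
            (fun v _ h => mq_block H p _ _ h) hc
        have h2 := sum_le_sum h1
        rw [sum_add_distrib, sum_const, hU, nsmul_eq_mul] at h2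
        have h3 : ∑ u ∈ U, p ^ 2 * ∑ v ∈ U.erase u,
              ((η + 2 * p) * gam H (zb p U I) u v + 2 * pii H (zb p U I) u v)
            = (η + 2 * p) * ∑ u ∈ U, ∑ v ∈ U.erase u, p ^ 2 * gam H (zb p U I) u v
              + 2 * ∑ u ∈ U, ∑ v ∈ U.erase u, p ^ 2 * pii H (zb p U I) u v := by
          simp only [mul_sum, ← sum_add_distrib]
          apply sum_congr rfl; intro u _
          apply sum_congr rfl; intro v _
          ring
        have h4 := mul_le_mul_of_nonneg_left (sum_gam_le H hr hp0.le U I)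
          (show 0 ≤ η + 2 * p by linarith)
        have h5 := sum_pii_le H hr hp0.le hp1'.le U I
        have h6 := mul_nonneg (show (0 : ℝ) ≤ (M : ℝ) + 1 by positivity) (hB0 U I)
        unfold EU
        push_cast at h2
        nlinarith
      · have h1 : ∀ u ∈ U, GU H p U I - B U I ≤
            (kap p (mq H p U I u) + mq H p U I u * GU H p (U.erase u) (insert u I)
              + (1 - mq H p U I u) * GU H p (U.erase u) I) := by
          intro u hu
          set t := mq H p U I u with ht
          have ht0 : 0 ≤ t := hq0 U I u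
          have htp : t ≤ p := hq1 U I u hu
          have hJ : ∑ v ∈ U.erase u, kap p (mq H p U I v) ≤
              t * ∑ v ∈ U.erase u, kap p (mq H p (U.erase u) (insert u I) v)
              + (1 - t) * ∑ v ∈ U.erase u, kap p (mq H p (U.erase u) I v) := by
            rw [mul_sum, mul_sum, ← sum_add_distrib]
            apply sum_le_sum
            intro v hv
            have := jensen_sq hp0 ht0 (by linarith) (hq0 _ _ v) (hq1 _ _ v hv) (hq0 _ _ v)
              (hq1 _ _ v hv) (mq_mart H hp0 hp1' hI hu hv)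
            have h0 : 0 ≤ (t * (mq H p (U.erase u) (insert u I) v - mq H p U I v) ^ 2
                + (1 - t) * (mq H p (U.erase u) I v - mq H p U I v) ^ 2) / (4 * p) := by
              have : 0 ≤ 1 - t := by linarith
              positivity
            linarith
          have hL1 : Lam H (ext U I (mq H p U I)) ≤ H.card :=
            Lam_le_card H (ext_nonneg fun v _ => hq0 _ _ v)
              (fun v => (ext_le_zb (hq1 U I) v).trans (zb_le_one hp1'.le U I v))
          have hL2 := mul_nonneg ht0 (Lam_nonneg H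
            (ext_nonneg (U := U.erase u) (I := insert u I) fun v _ => hq0 (U.erase u) (insert u I) v))
          have hL3 := mul_nonneg (show 0 ≤ 1 - t by linarith) (Lam_nonneg H
            (ext_nonneg (U := U.erase u) (I := I) fun v _ => hq0 (U.erase u) I v))
          unfold GU
          rw [← add_sum_erase U _ hu, ← ht]
          nlinarith
        have h2 := sum_le_sum h1
        rw [sum_const, hU, nsmul_eq_mul] at h2
        push_cast at h2
        have := hE0 U I
        nlinarith
    rw [harm_succ]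
    push_cast at hsum ⊢
    have hM : (0 : ℝ) < (M : ℝ) + 1 := by positivity
    have hfin : ((M : ℝ) + 1) * (GU H p U I - (harm M + 1 / ((M : ℝ) + 1)) * EU H r p η U I
        - ((M : ℝ) + 1) * B U I) ≤ ((M : ℝ) + 1) * (- Real.log (Zf H p U I)) := by
      have e : ((M : ℝ) + 1) * (GU H p U I - (harm M + 1 / ((M : ℝ) + 1)) * EU H r p η U I
        - ((M : ℝ) + 1) * B U I) = ((M : ℝ) + 1) * GU H p U I - EU H r p η U I
          - ((M : ℝ) + 1) * B U I - ((M : ℝ) + 1) * (harm M * EU H r p η U I)
          - ((M : ℝ) + 1) * (M * B U I) := by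
        field_simp; ring
      rw [e]
      linarith
    exact le_of_mul_le_mul_left hfin hM

end Pool.Agent.P.MP_4376e9_pr
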